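import Pool.Agent.R944.SD.Stm

set_option autoImplicit false

namespace Pool.Agent.R944.SD.A1

theorem sum_inv_sqrt (J : ℕ) : ∑ i ∈ Finset.Icc 1 J, 1 / Real.sqrt (i : ℝ) ≤ 2 * Real.sqrt J := by
  induction J with
  | zero => simp
  | succ J ih =>
    rw [Finset.sum_Icc_succ_top (by omega)]
    have h1 : Real.sqrt (J : ℝ) ≤ Real.sqrt ((J + 1 : ℕ) : ℝ) := Real.sqrt_le_sqrt (by push_cast; linarith)
    have h2 : 0 < Real.sqrt ((J + 1 : ℕ) : ℝ) := by positivity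
    have h0 : 0 ≤ Real.sqrt (J : ℝ) := Real.sqrt_nonneg _
    have h3 : Real.sqrt ((J + 1 : ℕ) : ℝ) ^ 2 = J + 1 := by
      rw [Real.sq_sqrt (by positivity)]; push_cast; ring
    have h4 : Real.sqrt (J : ℝ) ^ 2 = J := Real.sq_sqrt (by positivity)
    have h5 : 1 / Real.sqrt ((J + 1 : ℕ) : ℝ) ≤
        2 * Real.sqrt ((J + 1 : ℕ) : ℝ) - 2 * Real.sqrt (J : ℝ) := by
      rw [div_le_iff₀ h2]
      nlinarith [sq_nonneg (Real.sqrt ((J + 1 : ℕ) : ℝ) - Real.sqrt (J : ℝ))]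
    linarith

theorem rpow_three_half (x : ℝ) (hx : 0 < x) : x ^ ((3 : ℝ) / 2) = x * Real.sqrt x := by
  rw [show (3 : ℝ) / 2 = 1 + 1 / 2 by norm_num, Real.rpow_add hx, Real.rpow_one,
    ← Real.sqrt_eq_rpow]

theorem term (n i : ℕ) (hi : 1 ≤ i) (h2 : 2 * i ≤ n) :
    (i : ℝ) * ((n : ℝ) / ((i : ℝ) * ((n - i : ℕ) : ℝ))) ^ ((3 : ℝ) / 2) ≤ 3 / Real.sqrt i := by
  have hi0 : (0 : ℝ) < i := by exact_mod_cast hi
  have h2' : 2 * (i : ℝ) ≤ n := by exact_mod_cast h2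
  have hsub : ((n - i : ℕ) : ℝ) = n - i := by
    rw [Nat.cast_sub (by omega)]
  rw [hsub]
  have hni : (0 : ℝ) < n - i := by linarith
  have h3 : (n : ℝ) / ((i : ℝ) * (n - i)) ≤ 2 / i := by
    rw [div_le_div_iff₀ (by positivity) hi0]
    nlinarith
  have h4 : ((n : ℝ) / ((i : ℝ) * (n - i))) ^ ((3 : ℝ) / 2) ≤ (2 / (i : ℝ)) ^ ((3 : ℝ) / 2) :=
    Real.rpow_le_rpow (by positivity) h3 (by norm_num)
  have h5 : (2 / (i : ℝ)) ^ ((3 : ℝ) / 2) = 2 / i * (Real.sqrt 2 / Real.sqrt i) := by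
    rw [rpow_three_half _ (by positivity), Real.sqrt_div (by norm_num)]
  have h6 : Real.sqrt 2 ≤ 3 / 2 := by
    rw [show (3 : ℝ) / 2 = Real.sqrt ((3 / 2) ^ 2) from (Real.sqrt_sq (by norm_num)).symm]
    exact Real.sqrt_le_sqrt (by norm_num)
  calc (i : ℝ) * ((n : ℝ) / ((i : ℝ) * (n - i))) ^ ((3 : ℝ) / 2)
      ≤ i * (2 / i * (Real.sqrt 2 / Real.sqrt i)) := by rw [← h5]; gcongr
    _ = 2 * Real.sqrt 2 / Real.sqrt i := by field_simp
    _ ≤ 3 / Real.sqrt i := by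
        gcongr
        linarith

theorem step (R : ℕ → ℕ → ℝ) (Q : ℕ → ℕ → ℕ → ℝ) (q : ℕ → ℕ → ℝ) (C : ℝ) (h : Cnt R Q q C)
    (n J : ℕ) (hn : 2 ≤ n) (h2 : 2 * J ≤ n) (M : ℝ) (hM : 0 ≤ M)
    (hR : ∀ i, 1 ≤ i → i ≤ J → R (n - i) J ≤ M) :
    ((n : ℝ) - 1) * R n J ≤ 6 * C * Real.sqrt J * M := by
  have hC := h.C0
  refine (h.sizes n J (by omega)).trans ?_
  have h1 : ∑ i ∈ Finset.Icc 1 J, (i : ℝ) * Q n i J ≤
      ∑ i ∈ Finset.Icc 1 J, (3 * C * M) * (1 / Real.sqrt (i : ℝ)) := by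
    apply Finset.sum_le_sum
    intro i hi
    rw [Finset.mem_Icc] at hi
    have hi0 : (0 : ℝ) < i := by exact_mod_cast hi.1
    have ht := term n i hi.1 (by omega)
    have hs := h.split n i J hi.1 (by omega)
    have hst := h.st n i hi.1 (by omega)
    have hq := h.q0 n i
    calc (i : ℝ) * Q n i J ≤ i * (q n i * R (n - i) J) := by gcongr
      _ ≤ i * (q n i * M) := by
          have := hR i hi.1 hi.2
          gcongr
      _ ≤ i * ((C * ((n : ℝ) / ((i : ℝ) * ((n - i : ℕ) : ℝ))) ^ ((3 : ℝ) / 2)) * M) := by gcongr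
      _ = C * M * (i * ((n : ℝ) / ((i : ℝ) * ((n - i : ℕ) : ℝ))) ^ ((3 : ℝ) / 2)) := by ring
      _ ≤ C * M * (3 / Real.sqrt i) := by gcongr
      _ = (3 * C * M) * (1 / Real.sqrt (i : ℝ)) := by ring
  refine h1.trans ?_
  rw [← Finset.mul_sum]
  calc 3 * C * M * ∑ i ∈ Finset.Icc 1 J, 1 / Real.sqrt (i : ℝ)
      ≤ 3 * C * M * (2 * Real.sqrt J) := by
        gcongr
        exact sum_inv_sqrt J
    _ = 6 * C * Real.sqrt J * M := by ring

theorem main : S_A1 := by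
  intro R Q q C h
  have hC := h.C0
  refine ⟨(12 * C) ^ 3, by positivity, ?_⟩
  intro k J hk hJk
  have hk0 : (0 : ℝ) < k := by exact_mod_cast (by omega : 0 < k)
  rcases Nat.eq_zero_or_pos J with rfl | hJ
  · have h1 := h.sizes k 0 (by omega)
    simp at h1
    have hk1 : (0 : ℝ) < (k : ℝ) - 1 := by
      have : (2 : ℝ) ≤ k := by exact_mod_cast hk
      linarith
    have h2 : R k 0 ≤ 0 := by
      by_contra hne
      push Not at hne
      nlinarith [mul_pos hk1 hne]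
    have h3 : (k : ℝ) * R k 0 ≤ 0 := mul_nonpos_of_nonneg_of_nonpos hk0.le h2
    exact h3.trans (by positivity)
  · have hk8 : 8 ≤ k := by omega
    have hk8' : (8 : ℝ) ≤ k := by exact_mod_cast hk8
    set D : ℝ := 12 * C * Real.sqrt J / k with hD
    have hD0 : 0 ≤ D := by positivity
    have hstep : ∀ (M : ℝ) (n : ℕ), 0 ≤ M → k - 2 * J ≤ n →
        (∀ i, 1 ≤ i → i ≤ J → R (n - i) J ≤ M) → R n J ≤ D * M := by
      intro M n hM hn hR
      have h1 := step R Q q C h n J (by omega) (by omega) M hM hR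
      have hn' : (k : ℝ) / 2 ≤ (n : ℝ) - 1 := by
        have : k + 2 ≤ 2 * n := by omega
        have : (k : ℝ) + 2 ≤ 2 * n := by exact_mod_cast this
        linarith
      have h2 : (k : ℝ) / 2 * R n J ≤ ((n : ℝ) - 1) * R n J :=
        mul_le_mul_of_nonneg_right hn' (h.R0 n J)
      have h3 : R n J ≤ (6 * C * Real.sqrt J * M) / (k / 2) := by
        rw [le_div_iff₀ (by positivity)]
        linarith
      refine h3.trans (le_of_eq ?_)
      rw [hD]
      field_simp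
      ring
    have s1 : ∀ n, k - 2 * J ≤ n → R n J ≤ D * 1 := fun n hn =>
      hstep 1 n zero_le_one hn (fun i _ _ => h.R1 _ _ (by omega))
    have s2 : ∀ n, k - J ≤ n → R n J ≤ D * (D * 1) := fun n hn =>
      hstep (D * 1) n (by positivity) (by omega) (fun i _ _ => s1 _ (by omega))
    have s3 : R k J ≤ D * (D * (D * 1)) :=
      hstep (D * (D * 1)) k (by positivity) (by omega) (fun i _ _ => s2 _ (by omega))
    have hJk' : (J : ℝ) ≤ k := by exact_mod_cast (by omega : J ≤ k)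
    have hsJ : Real.sqrt J ≤ Real.sqrt k := Real.sqrt_le_sqrt hJk'
    have hsk : 0 < Real.sqrt (k : ℝ) := by positivity
    have hskk : Real.sqrt (k : ℝ) ^ 2 = k := Real.sq_sqrt hk0.le
    have hD1 : D ≤ 12 * C / Real.sqrt k := by
      have : 12 * C / Real.sqrt k = 12 * C * Real.sqrt k / k := by
        rw [div_eq_div_iff hsk.ne' hk0.ne']
        nlinarith
      rw [this, hD]
      gcongr
    calc (k : ℝ) * R k J ≤ k * (D * (D * (D * 1))) := by gcongr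
      _ = k * D ^ 3 := by ring
      _ ≤ k * (12 * C / Real.sqrt k) ^ 3 := by gcongr
      _ = Real.sqrt k ^ 2 * (12 * C / Real.sqrt k) ^ 3 := by rw [hskk]
      _ = (12 * C) ^ 3 / Real.sqrt k := by field_simp

end Pool.Agent.R944.SD.A1
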