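import Pool.Agent.R944.SD.Stm
import Pool.Agent.R944.SD.A1

set_option autoImplicit false

namespace Pool.Agent.R944.SD.A2

open Pool.Agent.R944.SD.A1

/-- `1/(r√r) ≤ 4 (1/√r - 1/√(r+1))` -/
theorem tele (r : ℝ) (hr : 1 ≤ r) :
    1 / (r * Real.sqrt r) ≤ 4 * (1 / Real.sqrt r - 1 / Real.sqrt (r + 1)) := by
  set a := Real.sqrt r with ha
  set b := Real.sqrt (r + 1) with hb
  have ha0 : 0 < a := by positivity
  have hb0 : 0 < b := by positivity
  have ha2 : a ^ 2 = r := Real.sq_sqrt (by linarith)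
  have hb2 : b ^ 2 = r + 1 := Real.sq_sqrt (by linarith)
  have hab : a ≤ b := Real.sqrt_le_sqrt (by linarith)
  have h1 : 1 / a - 1 / b = 1 / (a * b * (a + b)) := by
    rw [div_sub_div _ _ ha0.ne' hb0.ne', div_eq_div_iff (by positivity) (by positivity)]
    have : (b - a) * (a + b) = 1 := by nlinarith
    linear_combination (a * b) * this
  rw [h1, ← ha2, mul_one_div, div_le_div_iff₀ (by positivity) (by positivity)]
  have h2 : b ^ 2 ≤ 2 * a ^ 2 := by rw [ha2, hb2]; linarith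
  have h3 : a * b ≤ b ^ 2 := by nlinarith
  have h4 : a * b * (a + b) = a * (a * b) + a * b ^ 2 := by ring
  nlinarith [mul_le_mul_of_nonneg_left h3 ha0.le, mul_le_mul_of_nonneg_left h2 ha0.le]

theorem tsum_le (N H : ℕ) : ∀ j, H ≤ j → j < N →
    ∑ i ∈ Finset.Ioc H j, 1 / (((N - i : ℕ) : ℝ) * Real.sqrt ((N - i : ℕ) : ℝ)) ≤
      4 * (1 / Real.sqrt ((N - j : ℕ) : ℝ) - 1 / Real.sqrt ((N - H : ℕ) : ℝ)) := by
  intro j hj
  induction j, hj using Nat.le_induction with
  | base => intro _; simp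
  | succ j hj ih =>
    intro hN
    rw [Finset.sum_Ioc_succ_top (by omega)]
    have h1 := ih (by omega)
    have h2 := tele ((N - (j + 1) : ℕ) : ℝ) (by exact_mod_cast (by omega : 1 ≤ N - (j + 1)))
    have h3 : ((N - (j + 1) : ℕ) : ℝ) + 1 = ((N - j : ℕ) : ℝ) := by
      have : N - (j + 1) + 1 = N - j := by omega
      exact_mod_cast this
    rw [h3] at h2
    linarith

/-- the case `2 J ≤ N` -/
theorem low (R : ℕ → ℕ → ℝ) (Q : ℕ → ℕ → ℕ → ℝ) (q : ℕ → ℕ → ℝ) (C : ℝ) (h : Cnt R Q q C)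
    (N J : ℕ) (hN : 2 ≤ N) (h2 : 2 * J ≤ N) : R N J ≤ 12 * C / Real.sqrt N := by
  have hC := h.C0
  have h1 := step R Q q C h N J hN h2 1 zero_le_one (fun i _ _ => h.R1 _ _ (by omega))
  have hN' : (2 : ℝ) ≤ N := by exact_mod_cast hN
  have hR := h.R0 N J
  have hs : 0 < Real.sqrt (N : ℝ) := by positivity
  have hss : Real.sqrt (N : ℝ) ^ 2 = N := Real.sq_sqrt (by positivity)
  have hJ : Real.sqrt (J : ℝ) ≤ Real.sqrt (N : ℝ) :=
    Real.sqrt_le_sqrt (by exact_mod_cast (by omega : J ≤ N))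
  rw [le_div_iff₀ hs]
  have h3 : (N : ℝ) / 2 * R N J ≤ 6 * C * Real.sqrt N := by
    calc (N : ℝ) / 2 * R N J ≤ ((N : ℝ) - 1) * R N J := by
          apply mul_le_mul_of_nonneg_right _ hR
          linarith
      _ ≤ 6 * C * Real.sqrt J * 1 := h1
      _ ≤ 6 * C * Real.sqrt N := by
          rw [mul_one]; gcongr
  have h4 : Real.sqrt N * (R N J * Real.sqrt N) ≤ Real.sqrt N * (12 * C) := by
    have : Real.sqrt N * (R N J * Real.sqrt N) = R N J * Real.sqrt N ^ 2 := by ring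
    rw [this, hss]
    linarith
  exact le_of_mul_le_mul_left h4 hs

/-- the claim for `R N j` -/
theorem claim (R : ℕ → ℕ → ℝ) (Q : ℕ → ℕ → ℕ → ℝ) (q : ℕ → ℕ → ℝ) (C : ℝ) (h : Cnt R Q q C)
    (N j : ℕ) (hj : 1 ≤ j) (hN : j < N) : R N j ≤ 24 * C / Real.sqrt ((N - j : ℕ) : ℝ) := by
  have hC := h.C0
  have hs0 : (1 : ℝ) ≤ ((N - j : ℕ) : ℝ) := by exact_mod_cast (by omega : 1 ≤ N - j)
  have hs : 0 < Real.sqrt ((N - j : ℕ) : ℝ) := by positivity
  have hsN : Real.sqrt ((N - j : ℕ) : ℝ) ≤ Real.sqrt (N : ℝ) :=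
    Real.sqrt_le_sqrt (by exact_mod_cast Nat.sub_le N j)
  have hlow : 12 * C / Real.sqrt N ≤ 12 * C / Real.sqrt ((N - j : ℕ) : ℝ) := by gcongr
  have h24 : 24 * C / Real.sqrt ((N - j : ℕ) : ℝ) =
      12 * C / Real.sqrt ((N - j : ℕ) : ℝ) + 12 * C / Real.sqrt ((N - j : ℕ) : ℝ) := by ring
  have hpos : 0 ≤ 12 * C / Real.sqrt ((N - j : ℕ) : ℝ) := by positivity
  rcases le_or_gt (2 * j) N with h2 | h2
  · have := low R Q q C h N j (by omega) h2
    linarith
  · have hH := low R Q q C h N (N / 2) (by omega) (by omega)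
    have hl := h.large N (N / 2) j (by omega) (by omega)
    have hsum : ∑ i ∈ Finset.Ioc (N / 2) j, Q N i j ≤
        ∑ i ∈ Finset.Ioc (N / 2) j,
          (3 * C) * (1 / (((N - i : ℕ) : ℝ) * Real.sqrt ((N - i : ℕ) : ℝ))) := by
      apply Finset.sum_le_sum
      intro i hi
      rw [Finset.mem_Ioc] at hi
      have hi1 : 1 ≤ i := by omega
      have hiN : i < N := by omega
      have hq := h.q0 N i
      have hR1 := h.R1 (N - i) j (by omega)
      have ht := term N (N - i) (by omega) (by omega)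
      have hNi : N - (N - i) = i := by omega
      rw [hNi] at ht
      have hr0 : (0 : ℝ) < ((N - i : ℕ) : ℝ) := by exact_mod_cast (by omega : 0 < N - i)
      have hrs : 0 < Real.sqrt ((N - i : ℕ) : ℝ) := by positivity
      have ht2 : ((N : ℝ) / ((i : ℝ) * ((N - i : ℕ) : ℝ))) ^ ((3 : ℝ) / 2) ≤
          3 / (((N - i : ℕ) : ℝ) * Real.sqrt ((N - i : ℕ) : ℝ)) := by
        rw [mul_comm (i : ℝ)]
        rw [le_div_iff₀ hrs] at ht
        rw [le_div_iff₀ (by positivity)]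
        linarith
      calc Q N i j ≤ q N i * R (N - i) j := h.split N i j hi1 hiN
        _ ≤ q N i * 1 := by gcongr
        _ = q N i := mul_one _
        _ ≤ C * ((N : ℝ) / ((i : ℝ) * ((N - i : ℕ) : ℝ))) ^ ((3 : ℝ) / 2) := h.st N i hi1 hiN
        _ ≤ C * (3 / (((N - i : ℕ) : ℝ) * Real.sqrt ((N - i : ℕ) : ℝ))) := by gcongr
        _ = (3 * C) * (1 / (((N - i : ℕ) : ℝ) * Real.sqrt ((N - i : ℕ) : ℝ))) := by ring
    rw [← Finset.mul_sum] at hsum
    have htel := tsum_le N (N / 2) j (by omega) hN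
    have hnn : 0 ≤ 1 / Real.sqrt ((N - N / 2 : ℕ) : ℝ) := by positivity
    have h5 : (3 * C) * ∑ i ∈ Finset.Ioc (N / 2) j,
        (1 / (((N - i : ℕ) : ℝ) * Real.sqrt ((N - i : ℕ) : ℝ))) ≤
        (3 * C) * (4 * (1 / Real.sqrt ((N - j : ℕ) : ℝ))) := by
      gcongr
      linarith
    have h6 : (3 * C) * (4 * (1 / Real.sqrt ((N - j : ℕ) : ℝ))) =
        12 * C / Real.sqrt ((N - j : ℕ) : ℝ) := by ring
    linarith

theorem main : S_A2 := by
  intro R Q q C h
  have hC := h.C0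
  refine ⟨192 * C + 192 * C * (24 * C), by positivity, ?_⟩
  intro k j hkj hj
  -- the bound on `q`
  have hq : 2 * j ≤ k → (k : ℝ) * q k j ≤ 192 * C / Real.sqrt k := by
    intro h2
    have hk0 : (0 : ℝ) < k := by exact_mod_cast (by omega : 0 < k)
    have hj0 : (0 : ℝ) < j := by exact_mod_cast hj
    have hsub : ((k - j : ℕ) : ℝ) = k - j := by rw [Nat.cast_sub (by omega)]
    have h2' : 2 * (j : ℝ) ≤ k := by exact_mod_cast h2
    have h16 : (k : ℝ) ≤ 16 * j := by exact_mod_cast (by omega : k ≤ 16 * j)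
    have hst := h.st k j hj (by omega)
    rw [hsub] at hst
    have hkj0 : (0 : ℝ) < (k : ℝ) - j := by linarith
    have h3 : (k : ℝ) / ((j : ℝ) * (k - j)) ≤ 32 / k := by
      rw [div_le_div_iff₀ (by positivity) hk0]
      nlinarith [mul_nonneg (sub_nonneg.2 h16) (sub_nonneg.2 h2')]
    have h4 : ((k : ℝ) / ((j : ℝ) * (k - j))) ^ ((3 : ℝ) / 2) ≤ (32 / (k : ℝ)) ^ ((3 : ℝ) / 2) :=
      Real.rpow_le_rpow (by positivity) h3 (by norm_num)
    have h5 : (32 / (k : ℝ)) ^ ((3 : ℝ) / 2) = 32 / k * (Real.sqrt 32 / Real.sqrt k) := by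
      rw [rpow_three_half _ (by positivity), Real.sqrt_div (by norm_num)]
    have h6 : Real.sqrt 32 ≤ 6 := by
      rw [show (6 : ℝ) = Real.sqrt (6 ^ 2) from (Real.sqrt_sq (by norm_num)).symm]
      exact Real.sqrt_le_sqrt (by norm_num)
    calc (k : ℝ) * q k j ≤ k * (C * ((k : ℝ) / ((j : ℝ) * (k - j))) ^ ((3 : ℝ) / 2)) := by gcongr
      _ ≤ k * (C * (32 / k * (Real.sqrt 32 / Real.sqrt k))) := by rw [← h5]; gcongr
      _ = 32 * C * Real.sqrt 32 / Real.sqrt k := by field_simp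
      _ ≤ 32 * C * 6 / Real.sqrt k := by gcongr
      _ = 192 * C / Real.sqrt k := by ring
  constructor
  · intro h2
    have hk0 : (0 : ℝ) < k := by exact_mod_cast (by omega : 0 < k)
    have hq' := hq (by omega)
    have hsp := h.split k j j hj (by omega)
    have hcl := claim R Q q C h (k - j) j hj (by omega)
    have hsub : ((k - j - j : ℕ) : ℝ) = (k : ℝ) - 2 * j := by
      rw [Nat.sub_sub, Nat.cast_sub (by omega)]; push_cast; ring
    rw [hsub] at hcl
    have hs : 0 < (k : ℝ) - 2 * j := by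
      have : 2 * (j : ℝ) < k := by exact_mod_cast h2
      linarith
    have hss : 0 < Real.sqrt ((k : ℝ) - 2 * j) := by positivity
    have hsk : 0 < Real.sqrt (k : ℝ) := by positivity
    have hR := h.R0 (k - j) j
    have hq0 := h.q0 k j
    calc (k : ℝ) * Q k j j ≤ k * (q k j * R (k - j) j) := by gcongr
      _ = (k * q k j) * R (k - j) j := by ring
      _ ≤ (192 * C / Real.sqrt k) * (24 * C / Real.sqrt ((k : ℝ) - 2 * j)) := by gcongr
      _ = (192 * C * (24 * C)) / (Real.sqrt k * Real.sqrt ((k : ℝ) - 2 * j)) := by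
          rw [div_mul_div_comm]
      _ ≤ (192 * C + 192 * C * (24 * C)) / (Real.sqrt k * Real.sqrt ((k : ℝ) - 2 * j)) := by
          gcongr
          linarith [hC]
  · intro h2
    have hk0 : (0 : ℝ) < k := by exact_mod_cast (by omega : 0 < k)
    have hq' := hq (by omega)
    have hsp := h.split k j j hj (by omega)
    have hR := h.R1 (k - j) j (by omega)
    have hR0 := h.R0 (k - j) j
    have hq0 := h.q0 k j
    have hsk : 0 < Real.sqrt (k : ℝ) := by positivity
    calc (k : ℝ) * Q k j j ≤ k * (q k j * R (k - j) j) := by gcongr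
      _ ≤ k * (q k j * 1) := by gcongr
      _ = k * q k j := by ring
      _ ≤ 192 * C / Real.sqrt k := hq'
      _ ≤ (192 * C + 192 * C * (24 * C)) / Real.sqrt k := by
          gcongr
          nlinarith [hC, mul_pos hC hC]

end Pool.Agent.R944.SD.A2
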