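import Pool.Agent.R944.SD.Stm

open scoped BigOperators Topology Classical
open Filter

/-!
# Project SD, piece AC : anti-concentration of the centroid statistic
-/

namespace Pool.Agent.R944.SD.AC

theorem sqrt_sub_le (a b : ℝ) (h : b ≤ a) : Real.sqrt a - Real.sqrt b ≤ Real.sqrt (a - b) := by
  rcases le_or_gt 0 b with hb | hb
  · have h1 := Real.sq_sqrt hb
    have h2 := Real.sq_sqrt (sub_nonneg.2 h)
    have h3 := Real.sqrt_nonneg b
    have h4 := Real.sqrt_nonneg (a - b)
    have : Real.sqrt a ≤ Real.sqrt b + Real.sqrt (a - b) := by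
      rw [Real.sqrt_le_left (by positivity)]
      nlinarith [mul_nonneg h3 h4]
    linarith
  · rw [Real.sqrt_eq_zero_of_nonpos hb.le, sub_zero]
    exact Real.sqrt_le_sqrt (by linarith)

/-- `1 / √s ≤ √s - √(s - 2)` for natural numbers `s ≥ 1` -/
theorem inv_sqrt_le (s : ℝ) (hs : 1 ≤ s) : 1 / Real.sqrt s ≤ Real.sqrt s - Real.sqrt (s - 2) := by
  have h0 : 0 < Real.sqrt s := Real.sqrt_pos.2 (by linarith)
  have h1 : Real.sqrt s ^ 2 = s := Real.sq_sqrt (by linarith)
  rw [div_le_iff₀ h0]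
  rcases le_or_gt s 2 with h2 | h2
  · have e : Real.sqrt (s - 2) = 0 := Real.sqrt_eq_zero_of_nonpos (by linarith)
    rw [e]
    nlinarith
  · have h3 : Real.sqrt (s - 2) ^ 2 = s - 2 := Real.sq_sqrt (by linarith)
    have h4 := Real.sqrt_nonneg (s - 2)
    nlinarith [sq_nonneg (Real.sqrt s - Real.sqrt (s - 2))]

theorem tele (f : ℕ → ℝ) (u n : ℕ) :
    ∑ j ∈ Finset.Ico u (u + n), (f j - f (j + 1)) = f u - f (u + n) := by
  induction n with
  | zero => simp
  | succ n ih =>
    rw [← add_assoc, Finset.sum_Ico_succ_top (by omega), ih]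
    ring

/-- the sum over a window -/
theorem window (k : ℕ) (hk : 1 ≤ k) (ε x : ℝ) (hε : 0 < ε) (W : Finset ℕ)
    (hW : ∀ j ∈ W, |(j : ℝ) / k - x| ≤ ε) :
    ∑ j ∈ W, (Real.sqrt ((k : ℝ) - 2 * j) - Real.sqrt ((k : ℝ) - 2 * (j + 1 : ℕ)) +
      if 2 * j = k then (1 : ℝ) else 0) ≤ Real.sqrt (4 * ε * k + 2) + 1 := by
  have hk0 : (0 : ℝ) < k := by exact_mod_cast hk
  rcases W.eq_empty_or_nonempty with rfl | ⟨j0, hj0⟩
  · simp only [Finset.sum_empty]
    positivity
  rw [Finset.sum_add_distrib]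
  apply add_le_add
  · set f : ℕ → ℝ := fun j => Real.sqrt ((k : ℝ) - 2 * j) with hf
    set u := ⌈(k : ℝ) * (x - ε)⌉₊ with hu
    set v := ⌊(k : ℝ) * (x + ε)⌋₊ with hv
    have hb : ∀ j ∈ W, (k : ℝ) * (x - ε) ≤ j ∧ (j : ℝ) ≤ k * (x + ε) := by
      intro j hj
      have h := abs_le.1 (hW j hj)
      have e : (j : ℝ) = k * ((j : ℝ) / k) := by field_simp
      constructor
      · rw [e]
        exact mul_le_mul_of_nonneg_left (by linarith) hk0.le
      · rw [e]
        exact mul_le_mul_of_nonneg_left (by linarith) hk0.le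
    have hsub : W ⊆ Finset.Ico u (v + 1) := by
      intro j hj
      obtain ⟨h1, h2⟩ := hb j hj
      rw [Finset.mem_Ico]
      exact ⟨Nat.ceil_le.2 h1, Nat.lt_succ_of_le (Nat.le_floor h2)⟩
    have huv : u ≤ v := by
      have := Finset.mem_Ico.1 (hsub hj0)
      omega
    have hnn : ∀ j, 0 ≤ f j - f (j + 1) := by
      intro j
      rw [sub_nonneg]
      apply Real.sqrt_le_sqrt
      push_cast
      linarith
    have hle : ∑ j ∈ W, (f j - f (j + 1)) ≤ ∑ j ∈ Finset.Ico u (v + 1), (f j - f (j + 1)) :=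
      Finset.sum_le_sum_of_subset_of_nonneg hsub (fun j _ _ => hnn j)
    obtain ⟨n, hn⟩ : ∃ n, v + 1 = u + n := ⟨v + 1 - u, by omega⟩
    rw [hn, tele, ← hn] at hle
    refine hle.trans ((sqrt_sub_le _ _ ?_).trans ?_)
    · have : (u : ℝ) ≤ (v + 1 : ℕ) := by exact_mod_cast (by omega : u ≤ v + 1)
      linarith
    · apply Real.sqrt_le_sqrt
      have h1 : (v : ℝ) ≤ k * (x + ε) := by
        apply Nat.floor_le
        exact le_trans (Nat.cast_nonneg j0) (hb j0 hj0).2
      have h2 : (k : ℝ) * (x - ε) ≤ u := Nat.le_ceil _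
      push_cast
      nlinarith
  · rw [← Finset.sum_filter, Finset.sum_const, nsmul_eq_mul, mul_one]
    have : (W.filter (fun j => 2 * j = k)).card ≤ 1 := by
      rw [Finset.card_le_one]
      intro a ha b hb
      rw [Finset.mem_filter] at ha hb
      omega
    exact_mod_cast this

theorem main : S_G1 → S_T2 → S_T3 → S_K4 → S_CN → S_A1 → S_A2 → S_AC := by
  intro hG1 hT2 hT3 hK4 hCN hA1 hA2
  obtain ⟨C, hC⟩ := hCN
  obtain ⟨C1, hC1, h1⟩ := hA1 _ _ _ C hC
  obtain ⟨C2, hC2, h2⟩ := hA2 _ _ _ C hC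
  intro η hη
  have hεpos : 0 < (η / (4 * C2)) ^ 2 := by positivity
  refine ⟨(η / (4 * C2)) ^ 2, hεpos, max 2 ⌈(2 * (C1 + 3 * C2) / η) ^ 2⌉₊, ?_⟩
  intro k hk x
  set ε := (η / (4 * C2)) ^ 2 with hε
  have hk2 : 2 ≤ k := le_trans (le_max_left _ _) hk
  have hkbig : (2 * (C1 + 3 * C2) / η) ^ 2 ≤ (k : ℝ) :=
    le_trans (Nat.le_ceil _) (by exact_mod_cast le_trans (le_max_right _ _) hk)
  have hk0 : (0 : ℝ) < k := by
    have : 0 < k := by omega
    exact_mod_cast this
  have hsk : 0 < Real.sqrt k := Real.sqrt_pos.2 hk0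
  set t : ℝ := ((trees k).card : ℝ) with ht
  have ht0 : 0 ≤ t := Nat.cast_nonneg _
  -- number of trees
  have hkt : (k : ℝ) ^ (k - 1) ≤ k * t := by
    have h := hT3 k hk2
    rw [hK4 k (by omega)] at h
    rw [ht]
    exact_mod_cast h
  have key : ∀ (N : ℕ) (B : ℝ), (k : ℝ) * ((N : ℝ) / (k : ℝ) ^ (k - 1)) ≤ B → (N : ℝ) ≤ B * t := by
    intro N B h
    have hp : (0 : ℝ) < (k : ℝ) ^ (k - 1) := by positivity
    calc (N : ℝ) = ((N : ℝ) / (k : ℝ) ^ (k - 1)) * (k : ℝ) ^ (k - 1) := by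
          field_simp
      _ ≤ ((N : ℝ) / (k : ℝ) ^ (k - 1)) * (k * t) :=
          mul_le_mul_of_nonneg_left hkt (by positivity)
      _ = ((k : ℝ) * ((N : ℝ) / (k : ℝ) ^ (k - 1))) * t := by ring
      _ ≤ B * t := mul_le_mul_of_nonneg_right h ht0
  -- small centroid branch
  have hsmall : (((trees k).filter (fun G => cen G ≤ k / 8)).card : ℝ) ≤ C1 / Real.sqrt k * t := by
    have a := key (RJ k (k / 8)) _ (h1 k (k / 8) hk2 (by omega))
    exact le_trans (by exact_mod_cast (hT2 k hk2).1 (k / 8)) a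
  -- fixed size of the centroid branch
  have hfix : ∀ j, k / 8 < j → 2 * j ≤ k →
      (((trees k).filter (fun G => cen G = j)).card : ℝ) ≤
        C2 / Real.sqrt k * (Real.sqrt ((k : ℝ) - 2 * j) - Real.sqrt ((k : ℝ) - 2 * (j + 1 : ℕ)) +
          if 2 * j = k then (1 : ℝ) else 0) * t := by
    intro j hj hjk
    have hc : (((trees k).filter (fun G => cen G = j)).card : ℝ) ≤ (RC k j j : ℕ) := by
      exact_mod_cast (hT2 k hk2).2 j
    have hj8 : k < 8 * (j + 1) := by omega
    have hj1 : 1 ≤ j := by omega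
    refine hc.trans (key (RC k j j) _ ?_)
    rcases Nat.lt_or_ge (2 * j) k with hlt | hge
    · refine ((h2 k j hj8 hj1).1 hlt).trans ?_
      rw [if_neg (by omega), add_zero]
      have hs : (1 : ℝ) ≤ (k : ℝ) - 2 * j := by
        have : (2 * j : ℕ) + 1 ≤ k := hlt
        have : ((2 * j : ℕ) : ℝ) + 1 ≤ k := by exact_mod_cast this
        push_cast at this
        linarith
      have hi := inv_sqrt_le _ hs
      have e : C2 / (Real.sqrt k * Real.sqrt ((k : ℝ) - 2 * j)) =
          C2 / Real.sqrt k * (1 / Real.sqrt ((k : ℝ) - 2 * j)) := by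
        rw [div_mul_div_comm, mul_one]
      rw [e]
      apply mul_le_mul_of_nonneg_left _ (by positivity)
      refine hi.trans (le_of_eq ?_)
      congr 2
      push_cast
      ring
    · have he : 2 * j = k := le_antisymm hjk hge
      refine ((h2 k j hj8 hj1).2 he).trans ?_
      rw [if_pos he]
      have h0 : Real.sqrt ((k : ℝ) - 2 * (j + 1 : ℕ)) ≤ Real.sqrt ((k : ℝ) - 2 * j) := by
        apply Real.sqrt_le_sqrt
        push_cast
        linarith
      have h3 : 0 ≤ C2 / Real.sqrt k := by positivity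
      nlinarith
  -- the window
  set W : Finset ℕ := (Finset.Ioc (k / 8) (k / 2)).filter (fun j : ℕ => |(j : ℝ) / k - x| ≤ ε) with hW
  have hcover : (trees k).filter (fun G => |(cen G : ℝ) / k - x| ≤ ε) ⊆
      (trees k).filter (fun G => cen G ≤ k / 8) ∪
        W.biUnion (fun j => (trees k).filter (fun G => cen G = j)) := by
    intro G hG
    rw [Finset.mem_filter] at hG
    rw [Finset.mem_union, Finset.mem_biUnion]
    by_cases hc : cen G ≤ k / 8
    · exact Or.inl (Finset.mem_filter.2 ⟨hG.1, hc⟩)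
    · right
      refine ⟨cen G, ?_, Finset.mem_filter.2 ⟨hG.1, rfl⟩⟩
      have hT : G.IsTree := (Finset.mem_filter.1 hG.1).2
      have := hG1 k hk2 G hT
      rw [hW, Finset.mem_filter, Finset.mem_Ioc]
      exact ⟨⟨by omega, by omega⟩, hG.2⟩
  have hcard := (Finset.card_le_card hcover).trans (Finset.card_union_le _ _)
  have hbi : (W.biUnion (fun j => (trees k).filter (fun G => cen G = j))).card ≤
      ∑ j ∈ W, ((trees k).filter (fun G => cen G = j)).card := Finset.card_biUnion_le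
  have hcardR : (((trees k).filter (fun G => |(cen G : ℝ) / k - x| ≤ ε)).card : ℝ) ≤
      (((trees k).filter (fun G => cen G ≤ k / 8)).card : ℝ) +
        ∑ j ∈ W, (((trees k).filter (fun G => cen G = j)).card : ℝ) := by
    have := hcard.trans (Nat.add_le_add_left hbi _)
    exact_mod_cast this
  have hsum : ∑ j ∈ W, (((trees k).filter (fun G => cen G = j)).card : ℝ) ≤
      C2 / Real.sqrt k * (Real.sqrt (4 * ε * k + 2) + 1) * t := by
    have hs1 : ∑ j ∈ W, (((trees k).filter (fun G => cen G = j)).card : ℝ) ≤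
        ∑ j ∈ W, C2 / Real.sqrt k * (Real.sqrt ((k : ℝ) - 2 * j) -
          Real.sqrt ((k : ℝ) - 2 * (j + 1 : ℕ)) + if 2 * j = k then (1 : ℝ) else 0) * t := by
      apply Finset.sum_le_sum
      intro j hj
      rw [hW, Finset.mem_filter, Finset.mem_Ioc] at hj
      exact hfix j hj.1.1 (by omega)
    rw [← Finset.sum_mul, ← Finset.mul_sum] at hs1
    refine hs1.trans (mul_le_mul_of_nonneg_right (mul_le_mul_of_nonneg_left ?_ (by positivity)) ht0)
    apply window k (by omega) ε x hεpos W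
    intro j hj
    rw [hW, Finset.mem_filter] at hj
    exact hj.2
  -- numerics
  have hq : Real.sqrt ε = η / (4 * C2) := by
    rw [hε, Real.sqrt_sq (by positivity)]
  have hw : Real.sqrt (4 * ε * k + 2) ≤ 2 * (η / (4 * C2)) * Real.sqrt k + 2 := by
    rw [Real.sqrt_le_left (by positivity)]
    have e1 : Real.sqrt k ^ 2 = k := Real.sq_sqrt hk0.le
    have e2 : (2 * (η / (4 * C2)) * Real.sqrt k + 2) ^ 2 =
        4 * (η / (4 * C2)) ^ 2 * Real.sqrt k ^ 2 + 8 * (η / (4 * C2) * Real.sqrt k) + 4 := by ring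
    rw [e2, e1, ← hε]
    have : 0 ≤ η / (4 * C2) * Real.sqrt k := by positivity
    nlinarith
  have hbig : 2 * (C1 + 3 * C2) / η ≤ Real.sqrt k := Real.le_sqrt_of_sq_le hkbig
  have hbig' : (C1 + 3 * C2) / Real.sqrt k ≤ η / 2 := by
    rw [div_le_iff₀ hsk]
    rw [div_le_iff₀ hη] at hbig
    nlinarith
  have hfin : C1 / Real.sqrt k + C2 / Real.sqrt k * (Real.sqrt (4 * ε * k + 2) + 1) ≤ η := by
    have a1 : C2 / Real.sqrt k * (Real.sqrt (4 * ε * k + 2) + 1) ≤
        C2 / Real.sqrt k * (2 * (η / (4 * C2)) * Real.sqrt k + 3) :=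
      mul_le_mul_of_nonneg_left (by linarith) (by positivity)
    have a2 : C2 / Real.sqrt k * (2 * (η / (4 * C2)) * Real.sqrt k + 3) =
        η / 2 + 3 * C2 / Real.sqrt k := by
      field_simp
      ring
    have a3 : C1 / Real.sqrt k + 3 * C2 / Real.sqrt k = (C1 + 3 * C2) / Real.sqrt k := by
      rw [← add_div]
    linarith
  calc (((trees k).filter (fun G => |(cen G : ℝ) / k - x| ≤ ε)).card : ℝ)
      ≤ C1 / Real.sqrt k * t + C2 / Real.sqrt k * (Real.sqrt (4 * ε * k + 2) + 1) * t := by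
        linarith
    _ = (C1 / Real.sqrt k + C2 / Real.sqrt k * (Real.sqrt (4 * ε * k + 2) + 1)) * t := by ring
    _ ≤ η * t := mul_le_mul_of_nonneg_right hfin ht0

end Pool.Agent.R944.SD.AC
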