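import Pool.Agent.R944.SD.Stm

/-! SD-CN (MP_b12932_pr): the counting numbers satisfy `Cnt`. -/

set_option autoImplicit false

namespace Pool.Agent.R944.SD.CN

open Pool.Agent.R944.SD

theorem dsz_le (n : ℕ) (p : Fin n → Fin n) (b : Fin n) : dsz p b ≤ n := by
  unfold dsz
  have h := Set.ncard_le_ncard (Set.subset_univ {v | ∃ j : ℕ, p^[j] v = b}) (Set.toFinite _)
  rwa [Set.ncard_univ, Nat.card_eq_fintype_card, Fintype.card_fin] at h

theorem RJ_le (n J : ℕ) : RJ n J ≤ RJ n n := by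
  unfold RJ
  refine Nat.card_le_card_of_injective
    (fun p => ⟨p.1, by
      obtain ⟨c, h1, -⟩ := p.2
      exact ⟨c, h1, fun b _ _ => dsz_le n p.1 b⟩⟩) ?_
  intro p q h
  have h2 := congrArg Subtype.val h
  exact Subtype.ext h2

theorem main : S_K1 → S_K4 → S_K5 → S_K6 → S_ST → S_CN := by
  intro hK1 hK4 hK5 hK6 hST
  obtain ⟨C, hC0, hC⟩ := hST
  refine ⟨C, ?_⟩
  constructor
  · intro n J
    positivity
  · intro n J hn
    have hn0 : (0 : ℝ) < (n : ℝ) ^ (n - 1) := by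
      have : (0 : ℝ) < n := by exact_mod_cast hn
      positivity
    rw [div_le_one hn0]
    have h := RJ_le n J
    rw [hK4 n hn] at h
    exact_mod_cast h
  · intro n i J
    positivity
  · intro n i
    positivity
  · exact hC0
  · intro n i J hi hin
    have hn0 : (0 : ℝ) < (n : ℝ) ^ (n - 1) := by
      have : (0 : ℝ) < n := by exact_mod_cast (by omega : 0 < n)
      positivity
    have hni : (0 : ℝ) < ((n - i : ℕ) : ℝ) ^ (n - i - 1) := by
      have : (0 : ℝ) < ((n - i : ℕ) : ℝ) := by exact_mod_cast (by omega : 0 < n - i)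
      positivity
    have h := hK1 n i J hi hin
    rw [hK4 i hi] at h
    have h' : (RC n i J : ℝ) ≤ (n.choose i : ℝ) * (i : ℝ) ^ (i - 1) * (RJ (n - i) J : ℝ) := by
      exact_mod_cast h
    have e : (n.choose i : ℝ) * (i : ℝ) ^ (i - 1) * ((n - i : ℕ) : ℝ) ^ (n - i - 1) /
        (n : ℝ) ^ (n - 1) * ((RJ (n - i) J : ℝ) / ((n - i : ℕ) : ℝ) ^ (n - i - 1)) =
        ((n.choose i : ℝ) * (i : ℝ) ^ (i - 1) * (RJ (n - i) J : ℝ)) / (n : ℝ) ^ (n - 1) := by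
      field_simp
    show (RC n i J : ℝ) / (n : ℝ) ^ (n - 1) ≤
      (n.choose i : ℝ) * (i : ℝ) ^ (i - 1) * ((n - i : ℕ) : ℝ) ^ (n - i - 1) /
        (n : ℝ) ^ (n - 1) * ((RJ (n - i) J : ℝ) / ((n - i : ℕ) : ℝ) ^ (n - i - 1))
    rw [e]
    exact div_le_div_of_nonneg_right h' hn0.le
  · intro n J hn
    have hn0 : (0 : ℝ) < (n : ℝ) ^ (n - 1) := by
      have : (0 : ℝ) < n := by exact_mod_cast hn
      positivity
    have h := hK5 n J hn
    have h' : ((n : ℝ) - 1) * (RJ n J : ℝ) ≤ ∑ i ∈ Finset.Icc 1 J, (i : ℝ) * (RC n i J : ℝ) := by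
      have h1 : (((n - 1) * RJ n J : ℕ) : ℝ) ≤ ((∑ i ∈ Finset.Icc 1 J, i * RC n i J : ℕ) : ℝ) := by
        exact_mod_cast h
      push_cast [Nat.cast_sub hn] at h1
      exact h1
    have e : ∑ i ∈ Finset.Icc 1 J, (i : ℝ) * ((RC n i J : ℝ) / (n : ℝ) ^ (n - 1)) =
        (∑ i ∈ Finset.Icc 1 J, (i : ℝ) * (RC n i J : ℝ)) / (n : ℝ) ^ (n - 1) := by
      rw [Finset.sum_div]
      exact Finset.sum_congr rfl fun i _ => by ring
    show ((n : ℝ) - 1) * ((RJ n J : ℝ) / (n : ℝ) ^ (n - 1)) ≤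
      ∑ i ∈ Finset.Icc 1 J, (i : ℝ) * ((RC n i J : ℝ) / (n : ℝ) ^ (n - 1))
    rw [e, ← mul_div_assoc]
    exact div_le_div_of_nonneg_right h' hn0.le
  · intro n H J hn hHJ
    have hn0 : (0 : ℝ) < (n : ℝ) ^ (n - 1) := by
      have : (0 : ℝ) < n := by exact_mod_cast hn
      positivity
    have h := hK6 n H J hHJ
    have h' : (RJ n J : ℝ) ≤ (RJ n H : ℝ) + ∑ i ∈ Finset.Ioc H J, (RC n i J : ℝ) := by
      exact_mod_cast h
    show (RJ n J : ℝ) / (n : ℝ) ^ (n - 1) ≤ (RJ n H : ℝ) / (n : ℝ) ^ (n - 1) +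
      ∑ i ∈ Finset.Ioc H J, (RC n i J : ℝ) / (n : ℝ) ^ (n - 1)
    rw [← Finset.sum_div, ← add_div]
    exact div_le_div_of_nonneg_right h' hn0.le
  · exact hC

end Pool.Agent.R944.SD.CN
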