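import Pool.Agent.R944.SD.Stm

open scoped BigOperators Topology Classical
open Filter

namespace Pool.Agent.R944.SD.G0

open Pool.Agent.R944.SD

variable {V : Type}

theorem mem_self {G : SimpleGraph V} {c b : V} (h : c ≠ b) : b ∈ br G c b := by
  refine ⟨SimpleGraph.Walk.nil, ?_⟩
  simpa using h

/-- a vertex of a tree lies on one of the two sides -/
theorem cover {G : SimpleGraph V} (hG : G.IsTree) {c b : V} (hcb : G.Adj c b) (w : V) :
    w ∈ br G c b ∨ w ∈ br G b c := by
  classical
  obtain ⟨P, hP⟩ := (hG.connected.preconnected c w).exists_isPath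
  by_cases hb : b ∈ P.support
  · left
    refine ⟨P.dropUntil b hb, ?_⟩
    intro hc
    -- c would be visited twice
    have hnd := hP.support_nodup
    rw [← P.take_spec hb, SimpleGraph.Walk.support_append] at hnd
    rw [List.nodup_append] at hnd
    have hc' : c ∈ (P.dropUntil b hb).support.tail := by
      rw [← SimpleGraph.Walk.cons_tail_support] at hc
      rcases List.mem_cons.1 hc with h | h
      · exact absurd h hcb.ne
      · exact h
    exact hnd.2.2 c (SimpleGraph.Walk.start_mem_support _) c hc' rfl
  · right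
    exact ⟨P, hb⟩

/-- two paths with the same ends in a tree agree -/
theorem path_uniq {G : SimpleGraph V} (hG : G.IsTree) {u v : V} {p q : G.Walk u v}
    (hp : p.IsPath) (hq : q.IsPath) : p = q := by
  have h3 := (hG.isAcyclic.subsingleton_path u v).elim ⟨p, hp⟩ ⟨q, hq⟩
  exact congrArg Subtype.val h3

theorem not_both {G : SimpleGraph V} (hG : G.IsTree) {c b : V} (hcb : G.Adj c b) (w : V) :
    w ∈ br G c b → w ∉ br G b c := by
  classical
  rintro ⟨p, hp⟩ ⟨q, hq⟩
  have hp' : c ∉ p.bypass.support := fun h => hp (p.support_bypass_subset_support h)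
  have hq' : b ∉ q.bypass.support := fun h => hq (q.support_bypass_subset_support h)
  have h1 : (SimpleGraph.Walk.cons hcb p.bypass).IsPath :=
    (SimpleGraph.Walk.cons_isPath_iff _ _).2 ⟨p.bypass_isPath, hp'⟩
  have h4 := path_uniq hG h1 q.bypass_isPath
  apply hq'
  rw [← h4]
  simp

theorem main : S_G0 := by
  intro n G hG c b hcb
  have h1 : ∀ w, w ∈ br G c b ↔ w ∉ br G b c := by
    intro w
    constructor
    · exact not_both hG hcb w
    · intro h
      rcases cover hG hcb w with h' | h'
      · exact h'
      · exact absurd h' h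
  refine ⟨h1, ?_, ?_⟩
  · have h2 : br G b c = (br G c b)ᶜ := by
      ext w
      rw [Set.mem_compl_iff, h1 w, not_not]
    unfold bsz
    rw [h2, Set.ncard_add_ncard_compl]
    simp
  · unfold bsz
    rw [Nat.one_le_iff_ne_zero, Ne, Set.ncard_eq_zero]
    intro h
    have : b ∈ br G c b := mem_self hcb.ne
    rw [h] at this
    exact this

end Pool.Agent.R944.SD.G0
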