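import Pool.Agent.R944.SD.G0

open scoped BigOperators Topology Classical
open Filter

namespace Pool.Agent.R944.SD.G1

open Pool.Agent.R944.SD Pool.Agent.R944.SD.G0

variable {V : Type}

theorem sub {G : SimpleGraph V} (hG : G.IsTree) {c b b' : V} (hcb : G.Adj c b)
    (hbb : G.Adj b b') (hne : b' ≠ c) {w : V} (hw : w ∈ br G b b') : w ∈ br G c b ∧ w ≠ b := by
  classical
  obtain ⟨p, hp⟩ := hw
  have hwb : w ≠ b := by
    rintro rfl
    exact hp p.end_mem_support
  refine ⟨?_, hwb⟩
  rcases cover hG hcb w with h | ⟨q, hq⟩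
  · exact h
  · exfalso
    have h1 : b ∉ (q.append p.reverse).support := by
      rw [SimpleGraph.Walk.mem_support_append_iff]
      rintro (h | h)
      · exact hq h
      · rw [SimpleGraph.Walk.support_reverse, List.mem_reverse] at h
        exact hp h
    have h2 : b ∉ (q.append p.reverse).bypass.support :=
      fun h => h1 (SimpleGraph.Walk.support_bypass_subset_support _ h)
    have h3 : (SimpleGraph.Walk.cons hcb (SimpleGraph.Walk.cons hbb
        SimpleGraph.Walk.nil)).IsPath := by
      rw [SimpleGraph.Walk.cons_isPath_iff, SimpleGraph.Walk.cons_isPath_iff]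
      refine ⟨⟨SimpleGraph.Walk.IsPath.nil, ?_⟩, ?_⟩
      · simpa using hbb.ne
      · simp only [SimpleGraph.Walk.support_cons, SimpleGraph.Walk.support_nil,
          List.mem_cons, List.not_mem_nil, or_false, not_or]
        exact ⟨hcb.ne, fun h => hne h.symm⟩
    have h4 := path_uniq hG h3 (q.append p.reverse).bypass_isPath
    apply h2
    rw [← h4]
    simp

theorem le_mx {n : ℕ} (G : SimpleGraph (Fin n)) {c b : Fin n} (h : G.Adj c b) :
    bsz G c b ≤ mx G c := by
  have := Finset.le_sup (s := Finset.univ)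
    (f := fun b => if G.Adj c b then bsz G c b else 0) (Finset.mem_univ b)
  simp only [h, if_true] at this
  exact this

theorem exists_cen {n : ℕ} (hn : 0 < n) (G : SimpleGraph (Fin n)) : ∃ c, mx G c = cen G := by
  have : (Set.range (mx G)).Nonempty := ⟨_, ⟨⟨0, hn⟩, rfl⟩⟩
  obtain ⟨c, hc⟩ := Nat.sInf_mem this
  exact ⟨c, hc⟩

theorem cen_le {n : ℕ} (G : SimpleGraph (Fin n)) (c : Fin n) : cen G ≤ mx G c :=
  Nat.sInf_le ⟨c, rfl⟩

theorem exists_mx {n : ℕ} (G : SimpleGraph (Fin n)) (c : Fin n) (h : 0 < mx G c) :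
    ∃ b, G.Adj c b ∧ bsz G c b = mx G c := by
  obtain ⟨b, -, hb⟩ := Finset.exists_mem_eq_sup (Finset.univ : Finset (Fin n)) ⟨c, Finset.mem_univ c⟩
    (fun b => if G.Adj c b then bsz G c b else 0)
  change mx G c = _ at hb
  by_cases hcb : G.Adj c b
  · simp only [hcb, if_true] at hb
    exact ⟨b, hcb, hb.symm⟩
  · simp only [hcb, if_false] at hb
    omega

theorem main : S_G0 → S_G1 := by
  intro h0 n hn G hG
  by_contra hlt
  obtain ⟨c, hc⟩ := exists_cen (by omega) G
  obtain ⟨b, hcb, hb⟩ := exists_mx G c (by omega)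
  have key : mx G b < mx G c := by
    rw [mx, Finset.sup_lt_iff (show (⊥ : ℕ) < _ by simp only [bot_eq_zero]; omega)]
    intro b' _
    by_cases hbb : G.Adj b b'
    · simp only [hbb, if_true]
      by_cases hne : b' = c
      · subst hne
        have := (h0 n G hG _ _ hcb).2.1
        omega
      · rw [← hb]
        unfold bsz
        apply Set.ncard_lt_ncard _ (Set.toFinite _)
        refine ⟨fun w hw => (sub hG hcb hbb hne hw).1, ?_⟩
        intro hh
        have : b ∈ br G b b' := hh (mem_self hcb.ne)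
        exact (sub hG hcb hbb hne this).2 rfl
    · simp only [hbb, if_false]
      omega
  have := cen_le G b
  omega

end Pool.Agent.R944.SD.G1
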