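import Pool.Agent.R944.SD.G1

open scoped BigOperators Topology Classical
open Filter

namespace Pool.Agent.R944.SD.G2

open Pool.Agent.R944.SD Pool.Agent.R944.SD.G0 Pool.Agent.R944.SD.G1

theorem side {n : ℕ} {G : SimpleGraph (Fin n)} (hG : G.IsTree) {c b c' : Fin n}
    (hcb : G.Adj c b) (hc : c' ∈ br G c b) (hne : c' ≠ b) : bsz G b c ≤ mx G c' := by
  classical
  obtain ⟨P, hP⟩ := (hG.connected.preconnected c' b).exists_isPath
  cases P with
  | nil => exact absurd rfl hne
  | @cons _ b'' _ h P' =>
    rw [SimpleGraph.Walk.cons_isPath_iff] at hP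
    refine le_trans ?_ (le_mx G h)
    unfold bsz
    apply Set.ncard_le_ncard _ (Set.toFinite _)
    rintro w ⟨q, hq⟩
    refine ⟨P'.append (SimpleGraph.Walk.cons hcb.symm q), ?_⟩
    rw [SimpleGraph.Walk.mem_support_append_iff]
    rintro (h1 | h1)
    · exact hP.2 h1
    · rw [SimpleGraph.Walk.support_cons, List.mem_cons] at h1
      rcases h1 with h1 | h1
      · exact hne h1
      · apply not_both hG hcb c' hc
        refine ⟨q.takeUntil c' h1, ?_⟩
        intro h2
        exact hq (q.support_takeUntil_subset_support h1 h2)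

theorem main : S_G0 → S_G2 := by
  intro h0 n G hG c b hcb
  have hn : 0 < n := c.pos
  obtain ⟨c', hc'⟩ := exists_cen hn G
  rw [← hc']
  by_cases h1 : c' = b
  · subst h1
    exact le_trans (min_le_right _ _) (le_mx G hcb.symm)
  by_cases h2 : c' = c
  · subst h2
    exact le_trans (min_le_left _ _) (le_mx G hcb)
  rcases cover hG hcb c' with h | h
  · exact le_trans (min_le_right _ _) (side hG hcb h h1)
  · exact le_trans (min_le_left _ _) (side hG hcb.symm h h2)

end Pool.Agent.R944.SD.G2
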