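import Pool.Agent.R944.SD.Stm

open scoped Classical BigOperators

namespace Pool.Agent.R944.SD.G3

variable {n : ℕ}

lemma fixed (p : Fin n → Fin n) (c : Fin n) (h : Rt p c) (v : Fin n) (hv : p v = v) :
    v = c := by
  obtain ⟨j, hj⟩ := h.2 v
  rwa [Function.iterate_fixed hv] at hj

lemma two (p : Fin n → Fin n) (c : Fin n) (h : Rt p c) (v : Fin n) (hv : p (p v) = v) :
    v = c := by
  have h5 : ∀ i : ℕ, p^[i] v = v ∨ p^[i] v = p v := by
    intro i
    induction i with
    | zero => left; rfl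
    | succ i ihi =>
      rw [Function.iterate_succ_apply']
      rcases ihi with h6 | h6
      · right; rw [h6]
      · left; rw [h6, hv]
  obtain ⟨i, hi⟩ := h.2 v
  rcases h5 i with h6 | h6
  · rw [hi] at h6
    exact h6.symm
  · rw [hi] at h6
    have h7 := h.1
    rw [h6] at h7
    rw [hv] at h7
    rw [h6]
    exact h7

/-- descendants -/
noncomputable def D (p : Fin n → Fin n) (b : Fin n) : Finset (Fin n) :=
  Finset.univ.filter (fun v => ∃ j : ℕ, p^[j] v = b)

lemma memD (p : Fin n → Fin n) (b v : Fin n) : v ∈ D p b ↔ ∃ j : ℕ, p^[j] v = b := by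
  simp [D]

lemma dsz_eq (p : Fin n → Fin n) (b : Fin n) : dsz p b = (D p b).card := by
  unfold dsz
  rw [← Set.ncard_coe_finset]
  congr 1
  ext v
  rw [Finset.mem_coe, memD]
  rfl

lemma cnot (p : Fin n → Fin n) (c : Fin n) (h : Rt p c) (b : Fin n) (hb : b ≠ c) :
    c ∉ D p b := by
  rw [memD]
  rintro ⟨j, hj⟩
  rw [Function.iterate_fixed h.1] at hj
  exact hb hj.symm

lemma walk_sub (G : SimpleGraph (Fin n)) (p : Fin n → Fin n) (c : Fin n)
    (hG : ∀ u v, G.Adj u v ↔ u ≠ v ∧ (p u = v ∨ p v = u)) (b : Fin n) (hb : p b = c)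
    {u w : Fin n} (q : G.Walk u w) (hq : c ∉ q.support) (hu : u ∈ D p b) : w ∈ D p b := by
  induction q with
  | nil => exact hu
  | @cons u v w ha q ih =>
    rw [SimpleGraph.Walk.support_cons, List.mem_cons, not_or] at hq
    apply ih hq.2
    rw [memD] at hu ⊢
    obtain ⟨j, hj⟩ := hu
    have hv : v ≠ c := by
      intro hvc
      apply hq.2
      rw [← hvc]
      exact q.start_mem_support
    rcases ((hG u v).mp ha).2 with h1 | h1
    · cases j with
      | zero =>
        exfalso
        have hj' : u = b := hj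
        rw [hj', hb] at h1
        exact hv h1.symm
      | succ j =>
        rw [Function.iterate_succ_apply, h1] at hj
        exact ⟨j, hj⟩
    · refine ⟨j + 1, ?_⟩
      rw [Function.iterate_succ_apply, h1, hj]

lemma sub_walk (G : SimpleGraph (Fin n)) (p : Fin n → Fin n) (c : Fin n) (h : Rt p c)
    (hG : ∀ u v, G.Adj u v ↔ u ≠ v ∧ (p u = v ∨ p v = u)) (b : Fin n) (hbc : b ≠ c) (j : ℕ) :
    ∀ w, p^[j] w = b → ∃ q : G.Walk b w, c ∉ q.support := by
  induction j with
  | zero =>
    intro w hw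
    have hw' : w = b := hw
    subst hw'
    refine ⟨SimpleGraph.Walk.nil, ?_⟩
    simp only [SimpleGraph.Walk.support_nil, List.mem_singleton]
    exact hbc.symm
  | succ j ih =>
    intro w hw
    rw [Function.iterate_succ_apply] at hw
    have hih := ih (p w) hw
    by_cases h1 : p w = w
    · rw [h1] at hih
      exact hih
    · obtain ⟨q, hq⟩ := hih
      have ha : G.Adj (p w) w := (hG _ _).mpr ⟨h1, Or.inr rfl⟩
      refine ⟨q.concat ha, ?_⟩
      rw [SimpleGraph.Walk.support_concat, List.mem_append, not_or]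
      refine ⟨hq, ?_⟩
      rw [List.mem_singleton]
      intro hc
      apply h1
      rw [← hc, h.1]

lemma br_iff (G : SimpleGraph (Fin n)) (p : Fin n → Fin n) (c : Fin n) (h : Rt p c)
    (hG : ∀ u v, G.Adj u v ↔ u ≠ v ∧ (p u = v ∨ p v = u)) (b : Fin n) (hbc : b ≠ c)
    (hb : p b = c) (w : Fin n) : w ∈ br G c b ↔ w ∈ D p b := by
  constructor
  · intro hw
    have hw' : ∃ q : G.Walk b w, c ∉ q.support := hw
    obtain ⟨q, hq⟩ := hw'
    exact walk_sub G p c hG b hb q hq ((memD p b b).mpr ⟨0, rfl⟩)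
  · intro hw
    obtain ⟨j, hj⟩ := (memD p b w).mp hw
    exact sub_walk G p c h hG b hbc j w hj

lemma deg_eq (G : SimpleGraph (Fin n)) (p : Fin n → Fin n) (c : Fin n) (h : Rt p c)
    (hG : ∀ u v, G.Adj u v ↔ u ≠ v ∧ (p u = v ∨ p v = u)) (w : Fin n) (hw : w ≠ c) :
    deg G w = 1 + (Finset.univ.filter (fun v => v ≠ w ∧ p v = w)).card := by
  unfold deg
  have h1 : G.neighborSet w = (insert (p w) (Finset.univ.filter (fun v => v ≠ w ∧ p v = w)) :
      Finset (Fin n)) := by
    ext v
    rw [SimpleGraph.mem_neighborSet, hG, Finset.mem_coe, Finset.mem_insert, Finset.mem_filter]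
    constructor
    · rintro ⟨h2, h3 | h3⟩
      · left; exact h3.symm
      · right; exact ⟨Finset.mem_univ _, h2.symm, h3⟩
    · rintro (h2 | h2)
      · refine ⟨?_, Or.inl h2.symm⟩
        rw [h2]
        intro h3
        exact hw (fixed p c h w h3.symm)
      · exact ⟨h2.2.1.symm, Or.inr h2.2.2⟩
  rw [h1, Set.ncard_coe_finset, Finset.card_insert_of_notMem, add_comm]
  rw [Finset.mem_filter]
  rintro ⟨_, _, h3⟩
  exact hw (two p c h w h3)

lemma sumD (G : SimpleGraph (Fin n)) (p : Fin n → Fin n) (c : Fin n) (h : Rt p c)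
    (hG : ∀ u v, G.Adj u v ↔ u ≠ v ∧ (p u = v ∨ p v = u)) (b : Fin n) (hbc : b ≠ c)
    (hb : p b = c) : (∑ w ∈ D p b, deg G w) + 1 = 2 * (D p b).card := by
  have hcD := cnot p c h b hbc
  have hbD : b ∈ D p b := (memD p b b).mpr ⟨0, rfl⟩
  have h1 : ∑ w ∈ D p b, deg G w
      = ∑ w ∈ D p b, (1 + (Finset.univ.filter (fun v => v ≠ w ∧ p v = w)).card) := by
    apply Finset.sum_congr rfl
    intro w hw
    apply deg_eq G p c h hG w
    intro hwc
    rw [hwc] at hw
    exact hcD hw
  have h2 : ((D p b).erase b).card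
      = ∑ w ∈ D p b, (((D p b).erase b).filter (fun v => p v = w)).card := by
    apply Finset.card_eq_sum_card_fiberwise
    intro v hv
    have hv' : v ∈ (D p b).erase b := hv
    rw [Finset.mem_erase, memD] at hv'
    obtain ⟨hvb, j, hj⟩ := hv'
    cases j with
    | zero => exact absurd hj hvb
    | succ j =>
      rw [Function.iterate_succ_apply] at hj
      exact (memD p b (p v)).mpr ⟨j, hj⟩
  have h3 : ∀ w ∈ D p b, ((D p b).erase b).filter (fun v => p v = w)
      = Finset.univ.filter (fun v => v ≠ w ∧ p v = w) := by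
    intro w hw
    ext v
    simp only [Finset.mem_filter, Finset.mem_erase, Finset.mem_univ, true_and]
    constructor
    · rintro ⟨⟨h4, h5⟩, h6⟩
      refine ⟨?_, h6⟩
      intro h7
      rw [h7] at h6
      have := fixed p c h w h6
      rw [this] at hw
      exact hcD hw
    · rintro ⟨h4, h5⟩
      refine ⟨⟨?_, ?_⟩, h5⟩
      · intro h6
        rw [h6, hb] at h5
        rw [← h5] at hw
        exact hcD hw
      · obtain ⟨j, hj⟩ := (memD p b w).mp hw
        refine (memD p b v).mpr ⟨j + 1, ?_⟩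
        rw [Function.iterate_succ_apply, h5, hj]
  have h4 : ∑ w ∈ D p b, (((D p b).erase b).filter (fun v => p v = w)).card
      = ∑ w ∈ D p b, (Finset.univ.filter (fun v => v ≠ w ∧ p v = w)).card := by
    apply Finset.sum_congr rfl
    intro w hw
    rw [h3 w hw]
  have h5 := Finset.card_erase_of_mem hbD
  have h6 : 1 ≤ (D p b).card := Finset.card_pos.mpr ⟨b, hbD⟩
  rw [h1, Finset.sum_add_distrib, ← h4, ← h2, h5]
  simp only [Finset.sum_const, smul_eq_mul, mul_one]
  omega

lemma cover (G : SimpleGraph (Fin n)) (p : Fin n → Fin n) (c : Fin n)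
    (hG : ∀ u v, G.Adj u v ↔ u ≠ v ∧ (p u = v ∨ p v = u)) (j : ℕ) :
    ∀ w, w ≠ c → p^[j] w = c → ∃ b, G.Adj c b ∧ w ∈ D p b := by
  induction j with
  | zero =>
    intro w hw hj
    exact absurd hj hw
  | succ j ih =>
    intro w hw hj
    rw [Function.iterate_succ_apply] at hj
    by_cases h1 : p w = c
    · exact ⟨w, (hG c w).mpr ⟨hw.symm, Or.inr h1⟩, (memD p w w).mpr ⟨0, rfl⟩⟩
    · obtain ⟨b, hb, hb'⟩ := ih (p w) h1 hj
      obtain ⟨i, hi⟩ := (memD p b (p w)).mp hb'
      refine ⟨b, hb, (memD p b w).mpr ⟨i + 1, ?_⟩⟩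
      rw [Function.iterate_succ_apply, hi]

lemma disj_aux (p : Fin n → Fin n) (c : Fin n) (h : Rt p c) (b b' w : Fin n) (hb : p b = c)
    (hb'c : b' ≠ c) (i j : ℕ) (hi : p^[i] w = b) (hj : p^[j] w = b') (hij : i < j) : False := by
  obtain ⟨k, rfl⟩ := Nat.exists_eq_add_of_lt hij
  have h1 : i + k + 1 = k + (1 + i) := by ring
  rw [h1, Function.iterate_add_apply, Function.iterate_add_apply, hi] at hj
  rw [Function.iterate_one, hb, Function.iterate_fixed h.1] at hj
  exact hb'c hj.symm

lemma disj (p : Fin n → Fin n) (c : Fin n) (h : Rt p c) (b b' : Fin n) (hb : p b = c)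
    (hb' : p b' = c) (hbc : b ≠ c) (hb'c : b' ≠ c) (hne : b ≠ b') :
    Disjoint (D p b) (D p b') := by
  rw [Finset.disjoint_left]
  intro w h1 h2
  obtain ⟨i, hi⟩ := (memD p b w).mp h1
  obtain ⟨j, hj⟩ := (memD p b' w).mp h2
  rcases lt_trichotomy i j with h3 | h3 | h3
  · exact disj_aux p c h b b' w hb hb'c i j hi hj h3
  · subst h3
    exact hne (hi.symm.trans hj)
  · exact disj_aux p c h b' b w hb' hbc j i hj hi h3

theorem main : S_T1 → S_G3 := by
  intro hT1 n G hGt
  constructor
  · have h1 := G.sum_degrees_eq_twice_card_edges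
    have h2 := hGt.card_edgeFinset
    have h3 : ∀ v, deg G v = G.degree v := by
      intro v
      unfold deg
      rw [← SimpleGraph.card_neighborFinset_eq_degree, ← Set.ncard_coe_finset,
        SimpleGraph.coe_neighborFinset]
    rw [Finset.sum_congr rfl (fun v _ => h3 v), h1]
    rw [Fintype.card_fin] at h2
    omega
  · intro c
    obtain ⟨p, hp, hG, hsz⟩ := hT1 n G hGt c
    have hadj : ∀ b, G.Adj c b ↔ b ≠ c ∧ p b = c := by
      intro b
      rw [hG]
      constructor
      · rintro ⟨h1, h2 | h2⟩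
        · rw [hp.1] at h2
          exact absurd h2 h1
        · exact ⟨h1.symm, h2⟩
      · rintro ⟨h1, h2⟩
        exact ⟨h1.symm, Or.inr h2⟩
    have hbr : ∀ b, G.Adj c b → ∀ w, w ∈ br G c b ↔ w ∈ D p b := by
      intro b hb w
      exact br_iff G p c hp hG b ((hadj b).mp hb).1 ((hadj b).mp hb).2 w
    have hbr' : ∀ b, G.Adj c b → br G c b = (D p b : Set (Fin n)) := by
      intro b hb
      ext w
      rw [hbr b hb w, Finset.mem_coe]
    refine ⟨?_, ?_, ?_, ?_, ?_⟩
    · intro b hb
      have h1 : Finset.univ.filter (fun w => w ∈ br G c b) = D p b := by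
        ext w
        rw [Finset.mem_filter, hbr b hb w]
        simp
      rw [h1, hsz b hb, dsz_eq]
      exact sumD G p c hp hG b ((hadj b).mp hb).1 ((hadj b).mp hb).2
    · intro w hw
      obtain ⟨j, hj⟩ := hp.2 w
      obtain ⟨b, hb, hb'⟩ := cover G p c hG j w hw hj
      exact ⟨b, hb, (hbr b hb w).mpr hb'⟩
    · intro b b' hb hb' hne
      rw [hbr' b hb, hbr' b' hb', Finset.disjoint_coe]
      exact disj p c hp b b' ((hadj b).mp hb).2 ((hadj b').mp hb').2 ((hadj b).mp hb).1
        ((hadj b').mp hb').1 hne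
    · intro b hb
      rw [hbr b hb c]
      exact cnot p c hp b ((hadj b).mp hb).1
    · have h1 : ∑ b ∈ Finset.univ.filter (fun b => G.Adj c b), bsz G c b
          = ∑ b ∈ Finset.univ.filter (fun b => G.Adj c b), (D p b).card := by
        apply Finset.sum_congr rfl
        intro b hb
        rw [Finset.mem_filter] at hb
        rw [hsz b hb.2, dsz_eq]
      rw [h1, ← Finset.card_biUnion]
      · have h2 : (Finset.univ.filter (fun b => G.Adj c b)).biUnion (fun b => D p b)
            = Finset.univ.erase c := by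
          ext w
          rw [Finset.mem_biUnion, Finset.mem_erase]
          constructor
          · rintro ⟨b, hb, hw⟩
            rw [Finset.mem_filter] at hb
            refine ⟨?_, Finset.mem_univ _⟩
            intro hwc
            rw [hwc] at hw
            exact cnot p c hp b ((hadj b).mp hb.2).1 hw
          · rintro ⟨hw, _⟩
            obtain ⟨j, hj⟩ := hp.2 w
            obtain ⟨b, hb, hb'⟩ := cover G p c hG j w hw hj
            exact ⟨b, Finset.mem_filter.mpr ⟨Finset.mem_univ _, hb⟩, hb'⟩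
        rw [h2, Finset.card_erase_of_mem (Finset.mem_univ c), Finset.card_univ, Fintype.card_fin]
        have : 0 < n := Fin.pos c
        omega
      · intro b hb b' hb' hne
        have hb1 : G.Adj c b := (Finset.mem_filter.mp hb).2
        have hb2 : G.Adj c b' := (Finset.mem_filter.mp hb').2
        exact disj p c hp b b' ((hadj b).mp hb1).2 ((hadj b').mp hb2).2 ((hadj b).mp hb1).1
          ((hadj b').mp hb2).1 hne

end Pool.Agent.R944.SD.G3
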