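import Pool.Agent.R944.SD.Stm

open scoped BigOperators Topology Classical
open Filter

namespace Pool.Agent.R944.SD.G4

variable {n : ℕ} (G : SimpleGraph (Fin n)) (v : Fin n)

lemma adj_cc (a b : Fin n) :
    (attach G v).Adj (Fin.castSucc a) (Fin.castSucc b) ↔ G.Adj a b := by
  unfold attach
  rw [SimpleGraph.sup_adj, SimpleGraph.map_adj, SimpleGraph.edge_adj]
  simp [(Fin.castSucc_lt_last _).ne]

lemma adj_cl (a : Fin n) :
    (attach G v).Adj (Fin.castSucc a) (Fin.last n) ↔ a = v := by
  unfold attach
  rw [SimpleGraph.sup_adj, SimpleGraph.map_adj, SimpleGraph.edge_adj]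
  simp [(Fin.castSucc_lt_last _).ne]

lemma adj_lc (a : Fin n) :
    (attach G v).Adj (Fin.last n) (Fin.castSucc a) ↔ a = v := by
  rw [SimpleGraph.adj_comm, adj_cl]

/-- the inclusion -/
def inc : G →g attach G v where
  toFun := Fin.castSucc
  map_rel' := fun {a b} h => (adj_cc G v a b).2 h

lemma edges : (attach G v).edgeSet =
    (Fin.castSuccEmb.sym2Map '' G.edgeSet) ∪ {s(Fin.castSucc v, Fin.last n)} := by
  unfold attach
  rw [SimpleGraph.edgeSet_sup, SimpleGraph.edgeSet_map,
    SimpleGraph.edgeSet_edge_of_ne (Fin.castSucc_lt_last _).ne]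

lemma tree (h : G.IsTree) : (attach G v).IsTree := by
  rw [SimpleGraph.isTree_iff_connected_and_card]
  have h2 := (SimpleGraph.isTree_iff_connected_and_card.1 h).2
  refine ⟨?_, ?_⟩
  · have key : ∀ x, (attach G v).Reachable (Fin.castSucc v) x := by
      intro x
      induction x using Fin.lastCases with
      | last => exact ((adj_cl G v v).2 rfl).reachable
      | cast a =>
        obtain ⟨p⟩ := h.1.preconnected v a
        exact ⟨p.map (inc G v)⟩
    have : Nonempty (Fin (n + 1)) := ⟨0⟩
    exact SimpleGraph.Connected.mk (fun x y => (key x).symm.trans (key y))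
  · have e1 : Nat.card (attach G v).edgeSet = Nat.card G.edgeSet + 1 := by
      rw [edges]
      rw [Nat.card_coe_set_eq, Set.ncard_union_eq, Set.ncard_singleton,
        Set.ncard_image_of_injective _ (Function.Embedding.injective _), ← Nat.card_coe_set_eq]
      rw [Set.disjoint_singleton_right]
      rintro ⟨e, -, he⟩
      induction e using Sym2.ind with
      | _ a b =>
        have : Fin.last n ∈ (s(Fin.castSucc v, Fin.last n) : Sym2 (Fin (n + 1))) := by simp
        rw [← he] at this
        simp [Function.Embedding.sym2Map, (Fin.castSucc_lt_last _).ne'] at this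
    rw [e1, h2]
    simp

/-- the projection -/
def pr : Fin (n + 1) → Fin n := Fin.lastCases v (fun a => a)

@[simp] lemma pr_last : pr v (Fin.last n) = v := by simp [pr]
@[simp] lemma pr_cast (a : Fin n) : pr v (Fin.castSucc a) = a := by simp [pr]

lemma br_self {V : Type} (G : SimpleGraph V) {c b : V} (h : c ≠ b) : b ∈ br G c b :=
  ⟨SimpleGraph.Walk.nil, by simpa using h⟩

lemma br_cons {V : Type} (G : SimpleGraph V) {c a b w : V} (hab : G.Adj a b) (h : c ≠ a)
    (hw : w ∈ br G c b) : w ∈ br G c a := by
  obtain ⟨p, hp⟩ := hw
  exact ⟨SimpleGraph.Walk.cons hab p, by simp [hp, h]⟩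

lemma proj (c : Fin n) : ∀ {x y : Fin (n + 1)} (q : (attach G v).Walk x y),
    Fin.castSucc c ∉ q.support → (x ≠ Fin.last n ∨ c ≠ v) →
    (y ≠ Fin.last n ∨ c ≠ v) ∧ pr v y ∈ br G c (pr v x) := by
  intro x y q
  induction q with
  | nil =>
    rename_i u
    intro h1 h2
    refine ⟨h2, br_self G ?_⟩
    simp only [SimpleGraph.Walk.support_nil, List.mem_singleton] at h1
    induction u using Fin.lastCases with
    | last => simpa using h2
    | cast a => intro h; apply h1; rw [h]; simp
  | cons h q ih =>
    rename_i x z y
    intro h1 h2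
    simp only [SimpleGraph.Walk.support_cons, List.mem_cons, not_or] at h1
    obtain ⟨h1a, h1b⟩ := h1
    induction x using Fin.lastCases with
    | last =>
      induction z using Fin.lastCases with
      | last => exact absurd h ((attach G v).loopless.irrefl _)
      | cast b =>
        have hb : b = v := (adj_lc G v b).1 h
        have h3 := ih h1b (Or.inl (Fin.castSucc_lt_last _).ne)
        rw [pr_cast, hb] at h3
        rw [pr_last]
        exact h3
    | cast a =>
      have hac : c ≠ a := fun h => h1a (by rw [h])
      induction z using Fin.lastCases with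
      | last =>
        have ha : a = v := (adj_cl G v a).1 h
        have h3 := ih h1b (Or.inr (ha ▸ hac))
        rw [pr_last] at h3
        rw [pr_cast, ha]
        exact h3
      | cast b =>
        have hab : G.Adj a b := (adj_cc G v a b).1 h
        obtain ⟨h4, h5⟩ := ih h1b (Or.inl (Fin.castSucc_lt_last _).ne)
        refine ⟨h4, ?_⟩
        rw [pr_cast] at h5 ⊢
        exact br_cons G hab hac h5

lemma lift {c b w : Fin n} (h : w ∈ br G c b) :
    ∃ p : (attach G v).Walk (Fin.castSucc b) (Fin.castSucc w), Fin.castSucc c ∉ p.support := by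
  obtain ⟨p, hp⟩ := h
  refine ⟨p.map (inc G v), ?_⟩
  intro h
  have h' : Fin.castSucc c ∈ p.support.map (inc G v) := by
    rw [← SimpleGraph.Walk.support_map]; exact h
  rw [List.mem_map] at h'
  obtain ⟨a, ha, hac⟩ := h'
  have : a = c := Fin.castSucc_injective n hac
  exact hp (this ▸ ha)

lemma br_attach (c b : Fin n) : br (attach G v) (Fin.castSucc c) (Fin.castSucc b) =
    (Fin.castSucc '' (br G c b)) ∪ (if v ∈ br G c b then {Fin.last n} else ∅) := by
  ext x
  constructor
  · rintro ⟨q, hq⟩
    obtain ⟨h1, h2⟩ := proj G v c q hq (Or.inl (Fin.castSucc_lt_last _).ne)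
    rw [pr_cast] at h2
    induction x using Fin.lastCases with
    | last =>
      rw [pr_last] at h2
      right
      rw [if_pos h2]
      rfl
    | cast a =>
      rw [pr_cast] at h2
      left
      exact ⟨a, h2, rfl⟩
  · rintro (⟨a, ha, rfl⟩ | h)
    · exact lift G v ha
    · split_ifs at h with hv
      · obtain ⟨p, hp⟩ := lift G v hv
        rw [Set.mem_singleton_iff] at h
        subst h
        refine ⟨p.concat ((adj_cl G v v).2 rfl), ?_⟩
        rw [SimpleGraph.Walk.support_concat]
        simp [hp, (Fin.castSucc_lt_last _).ne]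
      · exact absurd h (Set.notMem_empty _)

theorem main : S_G4 := by
  intro n G v hG
  refine ⟨tree G v hG, adj_cc G v, adj_cl G v, ?_, ?_⟩
  · intro c b _
    unfold bsz
    rw [br_attach, Set.ncard_union_eq, Set.ncard_image_of_injective _ (Fin.castSucc_injective n)]
    · split_ifs <;> simp
    · split_ifs
      · rw [Set.disjoint_singleton_right]
        rintro ⟨a, -, ha⟩
        exact (Fin.castSucc_lt_last a).ne ha
      · exact Set.disjoint_empty _
  · unfold bsz
    rw [Set.ncard_eq_one]
    refine ⟨Fin.last n, ?_⟩
    ext w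
    rw [Set.mem_singleton_iff]
    constructor
    · rintro ⟨q, hq⟩
      cases q with
      | nil => rfl
      | cons h q =>
        exfalso
        rename_i z
        induction z using Fin.lastCases with
        | last => exact (attach G v).loopless.irrefl _ h
        | cast b =>
          have hb : b = v := (adj_lc G v b).1 h
          apply hq
          rw [SimpleGraph.Walk.support_cons]
          subst hb
          exact List.mem_cons_of_mem _ q.start_mem_support
    · rintro rfl
      exact br_self _ (Fin.castSucc_lt_last _).ne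

end Pool.Agent.R944.SD.G4
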