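import Pool.Agent.R944.SD.Stm

open scoped BigOperators Topology Classical
open Filter

namespace Pool.Agent.R944.SD.G5

variable {V W : Type} {G : SimpleGraph V} {H : SimpleGraph W}

lemma br_le (e : G ≃g H) (c b w : V) (h : w ∈ br G c b) : e w ∈ br H (e c) (e b) := by
  obtain ⟨p, hp⟩ := h
  refine ⟨p.map e.toHom, ?_⟩
  intro h
  have h' : e c ∈ p.support.map e.toHom := by
    rw [← SimpleGraph.Walk.support_map]; exact h
  rw [List.mem_map] at h'
  obtain ⟨a, ha, hac⟩ := h'
  have : a = c := e.injective hac
  exact hp (this ▸ ha)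

lemma br_eq (e : G ≃g H) (c b : V) : br H (e c) (e b) = e '' br G c b := by
  ext w
  constructor
  · intro h
    refine ⟨e.symm w, ?_, by simp⟩
    have := br_le e.symm (e c) (e b) w h
    simpa using this
  · rintro ⟨a, ha, rfl⟩
    exact br_le e c b a ha

lemma bsz_eq (e : G ≃g H) (c b : V) : bsz H (e c) (e b) = bsz G c b := by
  unfold bsz
  rw [br_eq, Set.ncard_image_of_injective _ e.injective]

lemma mx_eq [Fintype V] [Fintype W] (e : G ≃g H) (c : V) : mx H (e c) = mx G c := by
  unfold mx
  apply le_antisymm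
  · apply Finset.sup_le
    intro b _
    have h1 := Finset.le_sup (f := fun b => if G.Adj c b then bsz G c b else 0)
      (Finset.mem_univ (e.symm b))
    refine le_trans (le_of_eq ?_) h1
    have h2 : e (e.symm b) = b := by simp
    have h3 : H.Adj (e c) b ↔ G.Adj c (e.symm b) := by
      rw [← e.map_adj_iff, h2]
    have h4 : bsz H (e c) b = bsz G c (e.symm b) := by
      rw [← bsz_eq e, h2]
    simp only [h3, h4]
  · apply Finset.sup_le
    intro b _
    have h1 := Finset.le_sup (f := fun b => if H.Adj (e c) b then bsz H (e c) b else 0)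
      (Finset.mem_univ (e b))
    refine le_trans (le_of_eq ?_) h1
    simp only [e.map_adj_iff, bsz_eq]

theorem main : S_G5 := by
  rintro s t ⟨e⟩
  refine ⟨?_, ?_⟩
  · unfold cen
    congr 1
    ext k
    constructor
    · rintro ⟨c, rfl⟩
      exact ⟨e c, mx_eq e c⟩
    · rintro ⟨c, rfl⟩
      refine ⟨e.symm c, ?_⟩
      rw [← mx_eq e]
      simp
  · have := Fintype.card_congr e.toEquiv
    simpa using this

end Pool.Agent.R944.SD.G5
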