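import Pool.Agent.R944.SD.Stm

/-! (K1): splitting off a branch. -/

set_option autoImplicit false

open scoped BigOperators Classical
open Finset

namespace Pool.Agent.R944.SD.K1

lemma rt_unique {V : Type} {p : V → V} {c c' : V} (h : Rt p c) (h' : Rt p c') : c = c' := by
  obtain ⟨j, hj⟩ := h.2 c'
  have : p^[j] c' = c' := Function.iterate_fixed h'.1 j
  rw [← hj, this]

/-- rooted trees on `V` with branches of size at most `J` -/
abbrev PT (V : Type) (J : ℕ) : Type := {p : V → V // ∃ c, Rt p c ∧ AllLe p c J}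

/-- transport of rooted trees -/
lemma card_PT_le (V : Type) [Fintype V] (m J : ℕ) (h : Fintype.card V = m) :
    Nat.card (PT V J) ≤ RJ m J := by
  let e : V ≃ Fin m := Fintype.equivFinOfCardEq h
  have key : ∀ p : V → V, ∀ j v, (fun x => e (p (e.symm x)))^[j] (e v) = e (p^[j] v) := by
    intro p j
    induction j with
    | zero => intro v; rfl
    | succ j ih =>
      intro v
      rw [Function.iterate_succ_apply, Function.iterate_succ_apply, Equiv.symm_apply_apply, ih]
  have hdsz : ∀ (p : V → V) (b : V), dsz (fun x => e (p (e.symm x))) (e b) = dsz p b := by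
    intro p b
    unfold dsz
    have : {v | ∃ j : ℕ, (fun x => e (p (e.symm x)))^[j] v = e b} =
        e '' {v | ∃ j : ℕ, p^[j] v = b} := by
      ext w
      obtain ⟨v, rfl⟩ := e.surjective w
      simp only [Set.mem_ofPred_eq, Set.mem_image, EmbeddingLike.apply_eq_iff_eq,
        exists_eq_right, key]
    rw [this, Set.ncard_image_of_injective _ e.injective]
  unfold RJ
  refine Nat.card_le_card_of_injective
    (fun x : PT V J => (⟨fun y => e (x.1 (e.symm y)), ?_⟩ :
      {p : Fin m → Fin m // ∃ c, Rt p c ∧ AllLe p c J})) ?_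
  · obtain ⟨p, c, hc, hJ⟩ := x
    refine ⟨e c, ⟨?_, ?_⟩, ?_⟩
    · simp only [Equiv.symm_apply_apply, hc.1]
    · intro w
      obtain ⟨v, rfl⟩ := e.surjective w
      obtain ⟨j, hj⟩ := hc.2 v
      exact ⟨j, by rw [key, hj]⟩
    · intro w hw1 hw2
      obtain ⟨b, rfl⟩ := e.surjective w
      rw [hdsz]
      refine hJ b (fun h => hw1 (by rw [h])) ?_
      simp only [Equiv.symm_apply_apply, EmbeddingLike.apply_eq_iff_eq] at hw2
      exact hw2
  · intro x y hxy
    apply Subtype.ext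
    funext v
    have h1 := congrFun (congrArg Subtype.val hxy) (e v)
    simp only [Equiv.symm_apply_apply, EmbeddingLike.apply_eq_iff_eq] at h1
    exact h1

/-- The relation between a tree with a marked branch and its two parts. -/
def Rel {n i J : ℕ} (A : Finset (Fin n)) (q : (Fin n → Fin n) × Fin n)
    (x : PT {v // v ∈ A} i × PT {v // v ∉ A} J) : Prop :=
  ∃ (hb : q.2 ∈ A) (hc : q.1 q.2 ∉ A), Rt x.1.1 ⟨q.2, hb⟩ ∧ Rt x.2.1 ⟨q.1 q.2, hc⟩ ∧
    (∀ v : {v // v ∈ A}, (v : Fin n) ≠ q.2 → (x.1.1 v : Fin n) = q.1 v) ∧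
    (∀ v : {v // v ∉ A}, (x.2.1 v : Fin n) = q.1 v)

lemma rel_inj {n i J : ℕ} (A : Finset (Fin n)) (q q' : (Fin n → Fin n) × Fin n)
    (x : PT {v // v ∈ A} i × PT {v // v ∉ A} J) (h : Rel A q x) (h' : Rel A q' x) : q = q' := by
  obtain ⟨p, b⟩ := q
  obtain ⟨p', b'⟩ := q'
  obtain ⟨hb, hc, h1, h2, h3, h4⟩ := h
  obtain ⟨hb', hc', h1', h2', h3', h4'⟩ := h'
  have hbb : b = b' := congrArg Subtype.val (rt_unique h1 h1')
  have hcc : p b = p' b' := congrArg Subtype.val (rt_unique h2 h2')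
  subst hbb
  refine Prod.ext ?_ rfl
  funext v
  by_cases hv : v ∈ A
  · by_cases hvb : v = b
    · rw [hvb]
      exact hcc
    · have e1 := h3 ⟨v, hv⟩ hvb
      have e2 := h3' ⟨v, hv⟩ hvb
      exact e1.symm.trans e2
  · have e1 := h4 ⟨v, hv⟩
    have e2 := h4' ⟨v, hv⟩
    exact e1.symm.trans e2

lemma exists_rel {n i J : ℕ} (A : Finset (Fin n)) (hA : A.card = i)
    (q : (Fin n → Fin n) × Fin n) (c : Fin n) (hc : Rt q.1 c) (hJ : AllLe q.1 c J)
    (hbc : q.2 ≠ c) (hpb : q.1 q.2 = c) (hD : ∀ v, v ∈ A ↔ ∃ j : ℕ, q.1^[j] v = q.2) :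
    ∃ x : PT {v // v ∈ A} i × PT {v // v ∉ A} J, Rel A q x := by
  obtain ⟨p, b⟩ := q
  simp only at hc hJ hbc hpb hD
  have hbA : b ∈ A := (hD b).2 ⟨0, rfl⟩
  have hcA : c ∉ A := by
    intro h
    obtain ⟨j, hj⟩ := (hD c).1 h
    rw [Function.iterate_fixed hc.1 j] at hj
    exact hbc hj.symm
  have hcl : ∀ v, v ∉ A → p v ∉ A := by
    intro v hv h
    obtain ⟨j, hj⟩ := (hD _).1 h
    exact hv ((hD v).2 ⟨j + 1, by rw [Function.iterate_succ_apply]; exact hj⟩)
  have hin : ∀ v, v ∈ A → v ≠ b → p v ∈ A := by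
    intro v hv hvb
    obtain ⟨j, hj⟩ := (hD v).1 hv
    cases j with
    | zero => exact absurd hj hvb
    | succ j => exact (hD _).2 ⟨j, by rw [Function.iterate_succ_apply] at hj; exact hj⟩
  -- the first part
  let f : {v // v ∈ A} → {v // v ∈ A} := fun v =>
    if h : (v : Fin n) = b then ⟨b, hbA⟩ else ⟨p v, hin v v.2 h⟩
  have hfb : f ⟨b, hbA⟩ = ⟨b, hbA⟩ := dif_pos rfl
  have hf : ∀ v : {v // v ∈ A}, (v : Fin n) ≠ b → (f v : Fin n) = p v := by
    intro v hv
    have : f v = ⟨p v, hin v v.2 hv⟩ := dif_neg hv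
    rw [this]
  have hRf : Rt f ⟨b, hbA⟩ := by
    refine ⟨hfb, ?_⟩
    have : ∀ (j : ℕ) (v : {v // v ∈ A}), p^[j] (v : Fin n) = b →
        ∃ j' : ℕ, f^[j'] v = ⟨b, hbA⟩ := by
      intro j
      induction j with
      | zero =>
        intro v hv
        exact ⟨0, Subtype.ext hv⟩
      | succ j ih =>
        intro v hv
        by_cases hvb : (v : Fin n) = b
        · exact ⟨0, Subtype.ext hvb⟩
        · rw [Function.iterate_succ_apply] at hv
          obtain ⟨j', hj'⟩ := ih (f v) (by rw [hf v hvb]; exact hv)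
          exact ⟨j' + 1, by rw [Function.iterate_succ_apply]; exact hj'⟩
    intro v
    obtain ⟨j, hj⟩ := (hD v).1 v.2
    exact this j v hj
  have hfJ : AllLe f ⟨b, hbA⟩ i := by
    intro v _ _
    unfold dsz
    calc _ ≤ Nat.card {v // v ∈ A} := Set.ncard_le_card _
      _ = i := by rw [Nat.card_eq_fintype_card, Fintype.card_coe, hA]
  -- the second part
  let g : {v // v ∉ A} → {v // v ∉ A} := fun v => ⟨p v, hcl v v.2⟩
  have hg : ∀ (j : ℕ) (v : {v // v ∉ A}), ((g^[j] v : {v // v ∉ A}) : Fin n) = p^[j] v := by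
    intro j
    induction j with
    | zero => intro v; rfl
    | succ j ih =>
      intro v
      rw [Function.iterate_succ_apply, Function.iterate_succ_apply, ih]
  have hRg : Rt g ⟨c, hcA⟩ := by
    refine ⟨Subtype.ext hc.1, fun v => ?_⟩
    obtain ⟨j, hj⟩ := hc.2 v
    exact ⟨j, Subtype.ext (by rw [hg, hj])⟩
  have hgJ : AllLe g ⟨c, hcA⟩ J := by
    intro w hw1 hw2
    have h1 := hJ w (fun h => hw1 (Subtype.ext h)) (congrArg Subtype.val hw2)
    refine le_trans ?_ h1
    unfold dsz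
    refine Set.ncard_le_ncard_of_injOn (fun v => (v : Fin n)) ?_ ?_ (Set.toFinite _)
    · rintro v ⟨j, hj⟩
      exact ⟨j, by rw [← hg, hj]⟩
    · intro v _ v' _ h
      exact Subtype.ext h
  refine ⟨(⟨f, _, hRf, hfJ⟩, ⟨g, _, hRg, hgJ⟩), hbA, (show p b ∉ A by rw [hpb]; exact hcA), hRf, ?_, hf,
    fun v => rfl⟩
  simp only [hpb]
  exact hRg

theorem main : S_K1 := by
  intro n i J hi hin
  have hRC : RC n i J = ((univ : Finset ((Fin n → Fin n) × Fin n)).filter (fun q =>
      ∃ c, Rt q.1 c ∧ AllLe q.1 c J ∧ q.2 ≠ c ∧ q.1 q.2 = c ∧ dsz q.1 q.2 = i)).card := by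
    unfold RC
    rw [Nat.card_eq_fintype_card, Fintype.card_subtype]
  rw [hRC, card_eq_sum_card_fiberwise (t := powersetCard i univ)
    (f := fun q => univ.filter (fun v => ∃ j : ℕ, q.1^[j] v = q.2))]
  · have hcard : (powersetCard i (univ : Finset (Fin n))).card = n.choose i := by
      rw [card_powersetCard, card_univ, Fintype.card_fin]
    rw [mul_assoc, ← hcard, ← smul_eq_mul, ← sum_const]
    refine sum_le_sum fun A hA => ?_
    have hAi : A.card = i := (mem_powersetCard.1 hA).2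
    have hex : ∀ q : {q // q ∈ filter (fun q : (Fin n → Fin n) × Fin n =>
        univ.filter (fun v => ∃ j : ℕ, q.1^[j] v = q.2) = A) (univ.filter (fun q =>
        ∃ c, Rt q.1 c ∧ AllLe q.1 c J ∧ q.2 ≠ c ∧ q.1 q.2 = c ∧ dsz q.1 q.2 = i))},
        ∃ x : PT {v // v ∈ A} i × PT {v // v ∉ A} J, Rel A q.1 x := by
      rintro ⟨q, hq⟩
      rw [mem_filter, mem_filter] at hq
      obtain ⟨⟨_, c, h1, h2, h3, h4, h5⟩, h6⟩ := hq
      refine exists_rel A hAi q c h1 h2 h3 h4 fun v => ?_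
      rw [← h6, mem_filter]
      simp
    choose F hF using hex
    have hinj : Function.Injective F := by
      intro q q' h
      have h1 := hF q
      have h2 := hF q'
      rw [← h] at h2
      exact Subtype.ext (rel_inj A q.1 q'.1 (F q) h1 h2)
    calc _ = Nat.card {q // q ∈ filter (fun q : (Fin n → Fin n) × Fin n =>
          univ.filter (fun v => ∃ j : ℕ, q.1^[j] v = q.2) = A) (univ.filter (fun q =>
          ∃ c, Rt q.1 c ∧ AllLe q.1 c J ∧ q.2 ≠ c ∧ q.1 q.2 = c ∧ dsz q.1 q.2 = i))} := by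
          rw [Nat.card_eq_fintype_card, Fintype.card_coe]
      _ ≤ Nat.card (PT {v // v ∈ A} i × PT {v // v ∉ A} J) :=
          Nat.card_le_card_of_injective F hinj
      _ = Nat.card (PT {v // v ∈ A} i) * Nat.card (PT {v // v ∉ A} J) := Nat.card_prod _ _
      _ ≤ RJ i i * RJ (n - i) J := by
          refine Nat.mul_le_mul (card_PT_le _ _ _ ?_) (card_PT_le _ _ _ ?_)
          · rw [Fintype.card_coe, hAi]
          · rw [Fintype.card_subtype_compl, Fintype.card_fin, Fintype.card_coe, hAi]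
  · intro q hq
    rw [mem_coe, mem_filter] at hq
    obtain ⟨_, c, h1, h2, h3, h4, h5⟩ := hq
    rw [mem_coe, mem_powersetCard]
    refine ⟨subset_univ _, ?_⟩
    rw [← h5]
    unfold dsz
    rw [← Set.ncard_coe_finset]
    congr 1
    ext v
    simp

end Pool.Agent.R944.SD.K1
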