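import Pool.Agent.R944.SD.Stm
import Pool.Agent.W957.Forest

set_option autoImplicit false

open scoped BigOperators Classical

namespace Pool.Agent.R944.SD.K4

lemma rt_iff {n : ℕ} (p : Fin n → Fin n) (c : Fin n) :
    Rt p c ↔ p ∈ Pool.Agent.W957.FF ({c} : Finset (Fin n)) := by
  rw [Pool.Agent.W957.mem_FF]
  unfold Rt Pool.Agent.W957.IsF
  constructor
  · rintro ⟨h1, h2⟩
    refine ⟨?_, ?_⟩
    · intro r hr
      rw [Finset.mem_singleton] at hr
      rw [hr, h1]
    · intro x
      obtain ⟨j, hj⟩ := h2 x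
      exact ⟨j, by rw [Finset.mem_singleton]; exact hj⟩
  · rintro ⟨h1, h2⟩
    refine ⟨h1 c (Finset.mem_singleton_self c), ?_⟩
    intro x
    obtain ⟨j, hj⟩ := h2 x
    exact ⟨j, by rw [Finset.mem_singleton] at hj; exact hj⟩

lemma fix_iter {V : Type} {p : V → V} {c : V} (h : p c = c) (j : ℕ) : p^[j] c = c := by
  induction j with
  | zero => rfl
  | succ j ih => rw [Function.iterate_succ_apply, h, ih]

lemma rt_unique {V : Type} {p : V → V} {c d : V} (h1 : Rt p c) (h2 : Rt p d) : c = d := by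
  obtain ⟨j, hj⟩ := h1.2 d
  rw [fix_iter h2.1] at hj
  exact hj.symm

lemma allLe (n : ℕ) (p : Fin n → Fin n) (c : Fin n) : AllLe p c n := by
  intro b _ _
  unfold dsz
  calc ({v | ∃ j : ℕ, p^[j] v = b} : Set (Fin n)).ncard ≤ (Set.univ : Set (Fin n)).ncard :=
        Set.ncard_le_ncard (Set.subset_univ _) (Set.toFinite _)
    _ = n := by rw [Set.ncard_univ, Nat.card_eq_fintype_card, Fintype.card_fin]

theorem main : S_K4 := by
  intro n hn
  unfold RJ
  rw [Nat.subtype_card (Finset.univ.biUnion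
    (fun c : Fin n => Pool.Agent.W957.FF ({c} : Finset (Fin n)))) (by
      intro p
      simp only [Finset.mem_biUnion, Finset.mem_univ, true_and]
      constructor
      · rintro ⟨c, hc⟩
        exact ⟨c, (rt_iff p c).2 hc, allLe n p c⟩
      · rintro ⟨c, hc, _⟩
        exact ⟨c, (rt_iff p c).1 hc⟩)]
  rw [Finset.card_biUnion (by
    intro c _ d _ hcd
    rw [Function.onFun, Finset.disjoint_left]
    intro p hp hq
    exact hcd (rt_unique ((rt_iff p c).2 hp) ((rt_iff p d).2 hq)))]
  have h1 : ∀ c : Fin n, n * (Pool.Agent.W957.FF ({c} : Finset (Fin n))).card = n ^ (n - 1) := by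
    intro c
    have := Pool.Agent.W957.card_FF ({c} : Finset (Fin n))
    rw [Fintype.card_fin, Finset.card_singleton, one_mul] at this
    exact this
  have h2 : n * ∑ c : Fin n, (Pool.Agent.W957.FF ({c} : Finset (Fin n))).card
      = n * n ^ (n - 1) := by
    rw [Finset.mul_sum, Finset.sum_congr rfl (fun c _ => h1 c), Finset.sum_const, Finset.card_univ,
      Fintype.card_fin, smul_eq_mul]
  exact Nat.eq_of_mul_eq_mul_left (by omega) h2

end Pool.Agent.R944.SD.K4
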