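import Pool.Agent.R944.SD.Stm

/-! (K5), (K6): sizes of the branches. -/

set_option autoImplicit false

open scoped BigOperators Classical
open Finset

namespace Pool.Agent.R944.SD.K5

/-- `b` is a child of the root, all branches at the root have size at most `J` -/
def Ch {n : ℕ} (J : ℕ) (p : Fin n → Fin n) (b : Fin n) : Prop :=
  ∃ c, Rt p c ∧ AllLe p c J ∧ b ≠ c ∧ p b = c

lemma exists_child {V : Type} {p : V → V} {c : V} (h : Rt p c) (v : V) (hv : v ≠ c) :
    ∃ b, b ≠ c ∧ p b = c ∧ ∃ j : ℕ, p^[j] v = b := by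
  have hex := h.2 v
  have h1 : p^[Nat.find hex] v = c := Nat.find_spec hex
  have h0 : Nat.find hex ≠ 0 := by
    intro h0
    rw [h0] at h1
    exact hv h1
  obtain ⟨k, hk⟩ := Nat.exists_eq_succ_of_ne_zero h0
  refine ⟨p^[k] v, fun h2 => ?_, ?_, k, rfl⟩
  · exact Nat.find_min hex (m := k) (by omega) h2
  · rw [hk, Function.iterate_succ_apply'] at h1
    exact h1

lemma RJ_eq (n J : ℕ) : RJ n J =
    ((univ : Finset (Fin n → Fin n)).filter (fun p => ∃ c, Rt p c ∧ AllLe p c J)).card := by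
  unfold RJ
  rw [Nat.card_eq_fintype_card, Fintype.card_subtype]

lemma RC_eq (n i J : ℕ) : RC n i J =
    (((univ : Finset ((Fin n → Fin n) × Fin n)).filter (fun q => Ch J q.1 q.2)).filter
      (fun q => dsz q.1 q.2 = i)).card := by
  unfold RC
  rw [Nat.card_eq_fintype_card, Fintype.card_subtype, filter_filter]
  congr 1
  refine filter_congr fun q _ => ?_
  unfold Ch
  constructor
  · rintro ⟨c, h1, h2, h3, h4, h5⟩
    exact ⟨⟨c, h1, h2, h3, h4⟩, h5⟩
  · rintro ⟨⟨c, h1, h2, h3, h4⟩, h5⟩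
    exact ⟨c, h1, h2, h3, h4, h5⟩

lemma dsz_pos {n : ℕ} (p : Fin n → Fin n) (b : Fin n) : 1 ≤ dsz p b := by
  unfold dsz
  have h : b ∈ {v | ∃ j : ℕ, p^[j] v = b} := ⟨0, rfl⟩
  exact Nat.one_le_iff_ne_zero.2 (Set.ncard_ne_zero_of_mem h)

lemma dsz_eq {n : ℕ} (p : Fin n → Fin n) (b : Fin n) :
    dsz p b = (univ.filter (fun v => ∃ j : ℕ, p^[j] v = b)).card := by
  unfold dsz
  rw [← Set.ncard_coe_finset]
  congr 1
  ext v
  simp

theorem k5 : S_K5 := by
  intro n J hn
  -- the right side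
  have hR : ∑ i ∈ Icc 1 J, i * RC n i J =
      ∑ q ∈ (univ : Finset ((Fin n → Fin n) × Fin n)).filter (fun q => Ch J q.1 q.2),
        dsz q.1 q.2 := by
    have hmap : ∀ q ∈ (univ : Finset ((Fin n → Fin n) × Fin n)).filter
        (fun q => Ch J q.1 q.2), dsz q.1 q.2 ∈ Icc 1 J := by
      intro q hq
      obtain ⟨c, h1, h2, h3, h4⟩ := (mem_filter.1 hq).2
      exact mem_Icc.2 ⟨dsz_pos _ _, h2 _ h3 h4⟩
    have h0 := sum_fiberwise_of_maps_to (s := (univ : Finset ((Fin n → Fin n) × Fin n)).filter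
      (fun q => Ch J q.1 q.2)) (t := Icc 1 J) (g := fun q => dsz q.1 q.2) hmap
      (fun q => dsz q.1 q.2)
    rw [← h0]
    refine sum_congr rfl fun i _ => ?_
    rw [RC_eq, mul_comm, ← smul_eq_mul, ← sum_const]
    refine sum_congr rfl fun q hq => ?_
    exact (mem_filter.1 hq).2.symm
  rw [hR, sum_filter, Fintype.sum_prod_type]
  rw [RJ_eq, mul_comm, ← smul_eq_mul, ← sum_const, sum_filter]
  refine sum_le_sum fun p _ => ?_
  split_ifs with hp
  · obtain ⟨c, hc, hJ⟩ := hp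
    rw [← sum_filter]
    have h1 : n - 1 = ((univ : Finset (Fin n)).erase c).card := by
      rw [card_erase_of_mem (mem_univ c), card_univ, Fintype.card_fin]
    rw [h1]
    have h2 : ((univ : Finset (Fin n)).erase c) ⊆
        ((univ : Finset (Fin n)).filter (fun b => Ch J p b)).biUnion
          (fun b => univ.filter (fun v => ∃ j : ℕ, p^[j] v = b)) := by
      intro v hv
      obtain ⟨b, hb1, hb2, hb3⟩ := exists_child hc v (ne_of_mem_erase hv)
      rw [mem_biUnion]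
      exact ⟨b, mem_filter.2 ⟨mem_univ _, c, hc, hJ, hb1, hb2⟩, mem_filter.2 ⟨mem_univ _, hb3⟩⟩
    calc ((univ : Finset (Fin n)).erase c).card ≤ _ := card_le_card h2
      _ ≤ _ := card_biUnion_le
      _ = _ := sum_congr rfl fun b _ => (dsz_eq p b).symm
  · exact Nat.zero_le _

theorem k6 : S_K6 := by
  intro n H J hHJ
  have hS : ∑ i ∈ Ioc H J, RC n i J =
      (((univ : Finset ((Fin n → Fin n) × Fin n)).filter (fun q => Ch J q.1 q.2)).filter
        (fun q => dsz q.1 q.2 ∈ Ioc H J)).card := by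
    rw [card_eq_sum_card_fiberwise (t := Ioc H J) (f := fun q => dsz q.1 q.2)]
    · refine sum_congr rfl fun i hi => ?_
      rw [RC_eq]
      congr 1
      ext q
      simp only [mem_filter]
      constructor
      · rintro ⟨h1, h2⟩
        exact ⟨⟨h1, by rw [h2]; exact hi⟩, h2⟩
      · rintro ⟨⟨h1, _⟩, h2⟩
        exact ⟨h1, h2⟩
    · intro q hq
      exact (mem_filter.1 hq).2
  rw [hS, RJ_eq, RJ_eq]
  rw [← card_filter_add_card_filter_not (s := univ.filter
    (fun p : Fin n → Fin n => ∃ c, Rt p c ∧ AllLe p c J)) (fun p => ∃ c, Rt p c ∧ AllLe p c H)]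
  refine add_le_add (card_le_card ?_) ?_
  · intro p hp
    exact mem_filter.2 ⟨mem_univ _, (mem_filter.1 hp).2⟩
  · refine card_le_card_of_surjOn (fun q => q.1) ?_
    intro p hp
    rw [mem_coe, mem_filter, mem_filter] at hp
    obtain ⟨⟨_, c, hc, hJ⟩, hH⟩ := hp
    have h1 : ¬ AllLe p c H := fun h => hH ⟨c, hc, h⟩
    unfold AllLe at h1
    push Not at h1
    obtain ⟨b, hb1, hb2, hb3⟩ := h1
    refine ⟨(p, b), ?_, rfl⟩
    rw [mem_coe, mem_filter, mem_filter]
    exact ⟨⟨mem_univ _, c, hc, hJ, hb1, hb2⟩, mem_Ioc.2 ⟨hb3, hJ b hb1 hb2⟩⟩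

theorem main : S_K5 ∧ S_K6 := ⟨k5, k6⟩

end Pool.Agent.R944.SD.K5
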