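import Pool.Agent.R944.SD.Stm

open scoped BigOperators Topology Classical
open Filter

set_option autoImplicit false

namespace Pool.Agent.R944.SD.LIM

open Pool.Agent.R944.SD

/-! ### The structure of `attach` -/

theorem attach_cc {n : ℕ} (G : SimpleGraph (Fin n)) (v a b : Fin n) :
    (attach G v).Adj (Fin.castSucc a) (Fin.castSucc b) ↔ G.Adj a b := by
  unfold attach
  rw [SimpleGraph.sup_adj, SimpleGraph.edge_adj, SimpleGraph.map_adj]
  constructor
  · rintro (⟨x, y, hxy, hx, hy⟩ | ⟨⟨h1, h2⟩ | ⟨h1, h2⟩, h3⟩)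
    · have hx' : x = a := Fin.castSucc_injective _ hx
      have hy' : y = b := Fin.castSucc_injective _ hy
      rw [← hx', ← hy']; exact hxy
    · exact absurd h2 (Fin.castSucc_lt_last b).ne
    · exact absurd h1 (Fin.castSucc_lt_last a).ne
  · intro h
    exact Or.inl ⟨a, b, h, rfl, rfl⟩

theorem attach_cl {n : ℕ} (G : SimpleGraph (Fin n)) (v a : Fin n) :
    (attach G v).Adj (Fin.castSucc a) (Fin.last n) ↔ a = v := by
  unfold attach
  rw [SimpleGraph.sup_adj, SimpleGraph.edge_adj, SimpleGraph.map_adj]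
  constructor
  · rintro (⟨x, y, hxy, hx, hy⟩ | ⟨⟨h1, h2⟩ | ⟨h1, h2⟩, h3⟩)
    · exact absurd hy (Fin.castSucc_lt_last y).ne
    · exact Fin.castSucc_injective _ h1
    · exact absurd h1 (Fin.castSucc_lt_last a).ne
  · intro h
    subst h
    exact Or.inr ⟨Or.inl ⟨rfl, rfl⟩, (Fin.castSucc_lt_last a).ne⟩

theorem attach_lc {n : ℕ} (G : SimpleGraph (Fin n)) (v a : Fin n) :
    (attach G v).Adj (Fin.last n) (Fin.castSucc a) ↔ a = v := by
  rw [SimpleGraph.adj_comm, attach_cl]

/-- the extension of an equivalence by the new vertex -/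
def ext {n : ℕ} (e : Fin n ≃ Fin n) : Fin (n + 1) ≃ Fin (n + 1) :=
  finSuccEquivLast.trans ((Equiv.optionCongr e).trans finSuccEquivLast.symm)

theorem ext_cast {n : ℕ} (e : Fin n ≃ Fin n) (a : Fin n) :
    ext e (Fin.castSucc a) = Fin.castSucc (e a) := by
  simp [ext]

theorem ext_last {n : ℕ} (e : Fin n ≃ Fin n) :
    ext e (Fin.last n) = Fin.last n := by
  simp [ext]

theorem attach_iso {n : ℕ} (G G' : SimpleGraph (Fin n)) (e : G ≃g G') (v : Fin n) :
    Nonempty (attach G v ≃g attach G' (e v)) := by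
  refine ⟨⟨ext e.toEquiv, ?_⟩⟩
  intro a b
  induction a using Fin.lastCases with
  | last =>
    induction b using Fin.lastCases with
    | last => simp
    | cast b =>
      rw [ext_last, ext_cast, attach_lc, attach_lc]
      exact e.toEquiv.injective.eq_iff
  | cast a =>
    induction b using Fin.lastCases with
    | last =>
      rw [ext_last, ext_cast, attach_cl, attach_cl]
      exact e.toEquiv.injective.eq_iff
    | cast b =>
      rw [ext_cast, ext_cast, attach_cc, attach_cc]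
      exact e.map_adj_iff

theorem deg_iso {n : ℕ} (G G' : SimpleGraph (Fin n)) (e : G ≃g G') (v : Fin n) :
    deg G' (e v) = deg G v := by
  unfold deg
  have : G'.neighborSet (e v) = e '' (G.neighborSet v) := by
    ext w
    simp only [SimpleGraph.mem_neighborSet, Set.mem_image]
    constructor
    · intro h
      refine ⟨e.symm w, ?_, by simp⟩
      rw [← e.map_adj_iff]
      simpa using h
    · rintro ⟨x, hx, rfl⟩
      exact e.map_adj_iff.2 hx
  rw [this, Set.ncard_image_of_injective _ e.injective]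

/-! ### The count -/

/-- the total degree of the vertices whose attachment leads into `A` -/
noncomputable def jj (A : Set FG) (u : FG) : ℕ :=
  ∑ v : Fin u.1, if (⟨u.1 + 1, attach u.2 v⟩ : FG) ∈ A then deg u.2 v else 0

theorem jj_inv (A : Set FG) (hA : Inv A) (s t : FG) (h : Nonempty (s.2 ≃g t.2)) :
    jj A s = jj A t := by
  obtain ⟨n, G⟩ := s
  obtain ⟨n', G'⟩ := t
  obtain ⟨e⟩ := h
  have hn : n = n' := by
    have := Fintype.card_congr e.toEquiv
    simpa using this
  subst hn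
  simp only [jj]
  change (∑ v : Fin n, if (⟨n + 1, attach G v⟩ : FG) ∈ A then deg G v else 0) =
    ∑ v : Fin n, if (⟨n + 1, attach G' v⟩ : FG) ∈ A then deg G' v else 0
  rw [← Equiv.sum_comp e.toEquiv
    (fun v => if (⟨n + 1, attach G' v⟩ : FG) ∈ A then deg G' v else 0)]
  refine Finset.sum_congr rfl fun v _ => ?_
  have h1 : ((⟨n + 1, attach G v⟩ : FG) ∈ A) ↔ ((⟨n + 1, attach G' (e v)⟩ : FG) ∈ A) :=
    hA _ _ (attach_iso G G' e v)
  have h2 := deg_iso G G' e v
  change _ = if (⟨n + 1, attach G' (e v)⟩ : FG) ∈ A then deg G' (e v) else 0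
  rw [h2]
  by_cases h : (⟨n + 1, attach G v⟩ : FG) ∈ A
  · rw [if_pos h, if_pos (h1.1 h)]
  · rw [if_neg h, if_neg (fun h' => h (h1.2 h'))]

/-- the level sets of `jj A` -/
def lev (A : Set FG) (i : ℕ) : Set FG := {u | i < jj A u}

theorem mem_lev (A : Set FG) (i : ℕ) (u : FG) : u ∈ lev A i ↔ i < jj A u := Iff.rfl

theorem inv_lt (A : Set FG) (hA : Inv A) (i : ℕ) : Inv (lev A i) := by
  intro s t h
  rw [mem_lev, mem_lev, jj_inv A hA s t h]

/-! ### The recursion -/

theorem paE_succ (F : FG → ℝ) (m : ℕ) : ∀ s : FG,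
    paE F (m + 1) s = paE (fun t => paE F 1 t) m s := by
  induction m with
  | zero => intro s; rfl
  | succ m ih =>
    intro s
    rw [paE]
    conv_rhs => rw [paE]
    refine Finset.sum_congr rfl fun v _ => ?_
    rw [ih]

theorem paE_one (A : Set FG) (u : FG) :
    paE (fun t => if t ∈ A then 1 else 0) 1 u = (jj A u : ℝ) / (2 * ((u.1 : ℝ) - 1)) := by
  simp only [paE, jj, Nat.cast_sum, Finset.sum_div]
  refine Finset.sum_congr rfl fun v _ => ?_
  split_ifs <;> simp

theorem paE_sum (h0 : S_P0) (m : ℕ) (s : FG) (F : ℕ → FG → ℝ) (a : ℝ) (D : ℕ) :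
    paE (fun u => ∑ i ∈ Finset.range D, a * F i u) m s
      = ∑ i ∈ Finset.range D, a * paE (F i) m s := by
  induction D with
  | zero =>
    simp only [Finset.range_zero, Finset.sum_empty]
    have := h0.2.2 (fun _ => 0) (fun _ => 0) 1 m s
    simp only [mul_zero, add_zero, one_mul] at this
    linarith
  | succ D ih =>
    rw [Finset.sum_range_succ, ← ih]
    have := h0.2.2 (F D) (fun u => ∑ i ∈ Finset.range D, a * F i u) a m s
    rw [show (fun u => ∑ i ∈ Finset.range (D + 1), a * F i u) =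
      (fun u => a * F D u + ∑ i ∈ Finset.range D, a * F i u) from by
        funext u; rw [Finset.sum_range_succ]; ring]
    rw [this]; ring

theorem sum_ind (D j : ℕ) (h : j ≤ D) :
    (∑ i ∈ Finset.range D, if i < j then (1 : ℝ) else 0) = j := by
  rw [← Finset.sum_filter, Finset.sum_const, nsmul_eq_mul, mul_one]
  congr 1
  rw [show (Finset.range D).filter (fun i => i < j) = Finset.range j from by
    ext i; simp only [Finset.mem_filter, Finset.mem_range]; omega]
  exact Finset.card_range j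

theorem prob_nonneg (h0 : S_P0) (m : ℕ) (s : FG) (hs : s.2.IsTree) (h2 : 2 ≤ s.1) (A : Set FG) :
    0 ≤ prob m s A ∧ prob m s A ≤ 1 := by
  constructor
  · have h := h0.1 (fun _ => 0) (fun t => if t ∈ A then 1 else 0) m s hs h2
      (fun t _ _ => by split_ifs <;> norm_num)
    rw [h0.2.1 0 m s hs h2] at h
    exact h
  · have h := h0.1 (fun t => if t ∈ A then 1 else 0) (fun _ => 1) m s hs h2
      (fun t _ _ => by split_ifs <;> norm_num)
    rw [h0.2.1 1 m s hs h2] at h
    exact h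

theorem jj_le (h0 : S_P0) (u : FG) (hu : u.2.IsTree) (h2 : 2 ≤ u.1) (A : Set FG) :
    jj A u ≤ 2 * (u.1 - 1) := by
  have h := (prob_nonneg h0 1 u hu h2 A).2
  rw [prob, paE_one] at h
  have h3 : (2 : ℝ) ≤ u.1 := by exact_mod_cast h2
  have hpos : (0 : ℝ) < 2 * ((u.1 : ℝ) - 1) := by linarith
  rw [div_le_one hpos] at h
  have : ((jj A u : ℕ) : ℝ) ≤ ((2 * (u.1 - 1) : ℕ) : ℝ) := by
    rw [Nat.cast_mul, Nat.cast_sub (by omega)]
    push_cast
    exact h
  exact_mod_cast this

/-- one more step is an average of events one step earlier -/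
theorem prob_succ (h0 : S_P0) (m : ℕ) (s : FG) (hs : s.2.IsTree) (h2 : 2 ≤ s.1) (A : Set FG) :
    prob (m + 1) s A = ∑ i ∈ Finset.range (2 * (s.1 + m - 1)),
      (1 / (2 * ((s.1 : ℝ) + m - 1))) * prob m s (lev A i) := by
  have key : paE (fun t => paE (fun t => if t ∈ A then 1 else 0) 1 t) m s =
      paE (fun u => ∑ i ∈ Finset.range (2 * (s.1 + m - 1)),
        (1 / (2 * ((s.1 : ℝ) + m - 1))) * (if u ∈ lev A i then 1 else 0)) m s := by
    have heq : ∀ t : FG, t.2.IsTree → t.1 = s.1 + m →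
        paE (fun t => if t ∈ A then 1 else 0) 1 t =
        ∑ i ∈ Finset.range (2 * (s.1 + m - 1)),
        (1 / (2 * ((s.1 : ℝ) + m - 1))) * (if t ∈ lev A i then 1 else 0) := by
      intro t ht htn
      rw [paE_one, ← Finset.mul_sum]
      have hle := jj_le h0 t ht (by omega) A
      rw [htn] at hle
      have := sum_ind (2 * (s.1 + m - 1)) (jj A t) hle
      simp only [mem_lev]
      rw [this, htn]
      push_cast
      ring
    refine le_antisymm ?_ ?_
    · exact h0.1 _ _ m s hs h2 (fun t ht htn => (heq t ht htn).le)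
    · exact h0.1 _ _ m s hs h2 (fun t ht htn => (heq t ht htn).ge)
  rw [prob, paE_succ, key, paE_sum h0]
  rfl

theorem bdd (h0 : S_P0) (m : ℕ) (s t : FG) (hs : s.2.IsTree) (hs2 : 2 ≤ s.1)
    (ht : t.2.IsTree) (ht2 : 2 ≤ t.1) :
    BddAbove {x : ℝ | ∃ A, Inv A ∧ x = |prob m s A - prob m t A|} := by
  refine ⟨1, ?_⟩
  rintro x ⟨A, _, rfl⟩
  have h1 := prob_nonneg h0 m s hs hs2 A
  have h2 := prob_nonneg h0 m t ht ht2 A
  rw [abs_le]
  constructor <;> linarith

theorem main : S_P0 → S_G4 → S_LIM := by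
  intro h0 _ k hk S T hS hT m
  refine csSup_le ?_ ?_
  · exact ⟨_, (∅ : Set FG), fun s t _ => by simp, rfl⟩
  · rintro x ⟨A, hA, rfl⟩
    rw [prob_succ h0 m ⟨k, S⟩ hS hk A, prob_succ h0 m ⟨k, T⟩ hT hk A, ← Finset.sum_sub_distrib]
    have hk' : (2 : ℝ) ≤ k := by exact_mod_cast hk
    have hpos : (0 : ℝ) < 2 * ((k : ℝ) + m - 1) := by
      have : (0 : ℝ) ≤ m := Nat.cast_nonneg m
      linarith
    calc |∑ i ∈ Finset.range (2 * (k + m - 1)),
          ((1 / (2 * ((k : ℝ) + m - 1))) * prob m ⟨k, S⟩ (lev A i) -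
          (1 / (2 * ((k : ℝ) + m - 1))) * prob m ⟨k, T⟩ (lev A i))|
        ≤ ∑ i ∈ Finset.range (2 * (k + m - 1)),
          |(1 / (2 * ((k : ℝ) + m - 1))) * prob m ⟨k, S⟩ (lev A i) -
          (1 / (2 * ((k : ℝ) + m - 1))) * prob m ⟨k, T⟩ (lev A i)| :=
          Finset.abs_sum_le_sum_abs _ _
      _ ≤ ∑ i ∈ Finset.range (2 * (k + m - 1)),
          (1 / (2 * ((k : ℝ) + m - 1))) * tv m ⟨k, S⟩ ⟨k, T⟩ := by
          refine Finset.sum_le_sum fun i _ => ?_
          rw [← mul_sub, abs_mul, abs_of_pos (by positivity : (0 : ℝ) < 1 / (2 * ((k : ℝ) + m - 1)))]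
          refine mul_le_mul_of_nonneg_left ?_ (by positivity)
          exact le_csSup (bdd h0 m ⟨k, S⟩ ⟨k, T⟩ hS hk hT hk) ⟨_, inv_lt A hA i, rfl⟩
      _ = tv m ⟨k, S⟩ ⟨k, T⟩ := by
          rw [Finset.sum_const, Finset.card_range, nsmul_eq_mul, Nat.cast_mul,
            Nat.cast_sub (by omega)]
          push_cast
          have hne : (k : ℝ) + m - 1 ≠ 0 := by
            have : (0 : ℝ) ≤ m := Nat.cast_nonneg m
            have : (0 : ℝ) < (k : ℝ) + m - 1 := by linarith
            exact this.ne'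
          field_simp

end Pool.Agent.R944.SD.LIM
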