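import Pool.Agent.R944.SD.Stm

open scoped BigOperators Topology Classical
open Filter

namespace Pool.Agent.R944.SD

section
variable (hG5 : S_G5) (hP0 : S_P0) (hP3 : S_P3) (hAC : S_AC) (hT3 : S_T3) (hK4 : S_K4)
include hP0

lemma prob_nonneg (m : ℕ) (s : FG) (hs : s.2.IsTree) (h2 : 2 ≤ s.1) (A : Set FG) :
    0 ≤ prob m s A := by
  have h1 := hP0.1 (fun _ => 0) (fun t => if t ∈ A then 1 else 0) m s hs h2
    (fun t _ _ => by show (0 : ℝ) ≤ if t ∈ A then 1 else 0; split_ifs <;> norm_num)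
  rw [hP0.2.1 0 m s hs h2] at h1
  exact h1

lemma prob_le_one (m : ℕ) (s : FG) (hs : s.2.IsTree) (h2 : 2 ≤ s.1) (A : Set FG) :
    prob m s A ≤ 1 := by
  have h1 := hP0.1 (fun t => if t ∈ A then 1 else 0) (fun _ => 1) m s hs h2
    (fun t _ _ => by show (if t ∈ A then (1 : ℝ) else 0) ≤ 1; split_ifs <;> norm_num)
  rw [hP0.2.1 1 m s hs h2] at h1
  exact h1

lemma prob_compl (m : ℕ) (s : FG) (hs : s.2.IsTree) (h2 : 2 ≤ s.1) (A : Set FG) :
    prob m s A + prob m s Aᶜ = 1 := by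
  have h1 := hP0.2.2 (fun t => if t ∈ A then 1 else 0) (fun t => if t ∈ Aᶜ then 1 else 0) 1 m s
  have h3 : (fun t : FG => (1 : ℝ) * (if t ∈ A then 1 else 0) + (if t ∈ Aᶜ then 1 else 0))
      = fun _ => 1 := by
    funext t
    by_cases h : t ∈ A <;> simp [h]
  rw [h3, hP0.2.1 1 m s hs h2, one_mul] at h1
  unfold prob
  convert h1.symm

lemma prob_mono (m : ℕ) (s : FG) (hs : s.2.IsTree) (h2 : 2 ≤ s.1) (A B : Set FG)
    (hAB : A ⊆ B) : prob m s A ≤ prob m s B := by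
  refine hP0.1 _ _ m s hs h2 (fun t _ _ => ?_)
  by_cases h : t ∈ A
  · simp [h, hAB h]
  · simp only [h, if_false]
    split_ifs <;> norm_num

lemma tv_bdd (m : ℕ) (s t : FG) (hs : s.2.IsTree) (h2 : 2 ≤ s.1) (ht : t.2.IsTree)
    (h2' : 2 ≤ t.1) : ∀ x ∈ {x : ℝ | ∃ A, Inv A ∧ x = |prob m s A - prob m t A|}, x ≤ 1 := by
  rintro x ⟨A, _, rfl⟩
  have h1 := prob_nonneg hP0 m s hs h2 A
  have h3 := prob_le_one hP0 m s hs h2 A
  have h4 := prob_nonneg hP0 m t ht h2' A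
  have h5 := prob_le_one hP0 m t ht h2' A
  rw [abs_le]; constructor <;> linarith

lemma le_tv (m : ℕ) (s t : FG) (hs : s.2.IsTree) (h2 : 2 ≤ s.1) (ht : t.2.IsTree)
    (h2' : 2 ≤ t.1) (A : Set FG) (hA : Inv A) : |prob m s A - prob m t A| ≤ tv m s t :=
  le_csSup ⟨1, tv_bdd hP0 m s t hs h2 ht h2'⟩ ⟨A, hA, rfl⟩

lemma tv_nonneg (m : ℕ) (s t : FG) (hs : s.2.IsTree) (h2 : 2 ≤ s.1) (ht : t.2.IsTree)
    (h2' : 2 ≤ t.1) : 0 ≤ tv m s t :=
  le_trans (abs_nonneg _) (le_tv hP0 m s t hs h2 ht h2' ∅ (fun _ _ _ => Iff.rfl))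

lemma tv_le_one (m : ℕ) (s t : FG) (hs : s.2.IsTree) (h2 : 2 ≤ s.1) (ht : t.2.IsTree)
    (h2' : 2 ≤ t.1) : tv m s t ≤ 1 :=
  csSup_le ⟨_, ∅, (fun _ _ _ => Iff.rfl), rfl⟩ (tv_bdd hP0 m s t hs h2 ht h2')

lemma delta_nonneg (s t : FG) (hs : s.2.IsTree) (h2 : 2 ≤ s.1) (ht : t.2.IsTree)
    (h2' : 2 ≤ t.1) : 0 ≤ delta s t :=
  le_ciInf (fun m => tv_nonneg hP0 m s t hs h2 ht h2')

lemma delta_le_one (s t : FG) (hs : s.2.IsTree) (h2 : 2 ≤ s.1) (ht : t.2.IsTree)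
    (h2' : 2 ≤ t.1) : delta s t ≤ 1 := by
  have hb : BddBelow (Set.range fun m => tv m s t) := ⟨0, by
    rintro x ⟨m, rfl⟩
    exact tv_nonneg hP0 m s t hs h2 ht h2'⟩
  exact le_trans (ciInf_le hb 0) (tv_le_one hP0 0 s t hs h2 ht h2')

include hG5 hP3

lemma delta_lower (k : ℕ) (hk : 2 ≤ k) (S T : SimpleGraph (Fin k)) (hS : S.IsTree)
    (hT : T.IsTree) (ε : ℝ) (hε : 0 < ε)
    (hfar : 2 * (ε + 2 / ((k : ℝ) - 1)) < |bet ⟨k, T⟩ - bet ⟨k, S⟩|) :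
    1 - 5 / (2 * ((k : ℝ) - 1) * ε ^ 2) ≤ delta ⟨k, S⟩ ⟨k, T⟩ := by
  refine le_ciInf (fun m => ?_)
  set r : ℝ := ε + 2 / ((k : ℝ) - 1) with hr
  set A : Set FG := {s | |bet s - bet ⟨k, S⟩| ≤ r} with hA
  have hk1 : (0 : ℝ) < (k : ℝ) - 1 := by
    have : (2 : ℝ) ≤ k := by exact_mod_cast hk
    linarith
  have hInv : Inv A := by
    intro s t hst
    have h := hG5 s t hst
    have : bet s = bet t := by unfold bet; rw [h.1, h.2]
    simp only [hA, Set.mem_setOf_eq, this]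
  have h1 : prob m ⟨k, S⟩ Aᶜ ≤ 5 / (4 * ((k : ℝ) - 1) * ε ^ 2) := by
    refine le_trans (prob_mono hP0 m ⟨k, S⟩ hS hk _ _ ?_) (hP3 k hk S hS m ε hε)
    intro s hs
    simp only [hA, Set.mem_compl_iff, Set.mem_setOf_eq, not_le] at hs
    exact hs
  have h2 : prob m ⟨k, T⟩ A ≤ 5 / (4 * ((k : ℝ) - 1) * ε ^ 2) := by
    refine le_trans (prob_mono hP0 m ⟨k, T⟩ hT hk _ _ ?_) (hP3 k hk T hT m ε hε)
    intro s hs
    simp only [hA, Set.mem_setOf_eq] at hs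
    show r < |bet s - bet ⟨k, T⟩|
    have h3 : |bet ⟨k, T⟩ - bet ⟨k, S⟩| ≤ |bet s - bet ⟨k, T⟩| + |bet s - bet ⟨k, S⟩| := by
      have := abs_sub_le (bet ⟨k, T⟩) (bet s) (bet ⟨k, S⟩)
      rwa [abs_sub_comm (bet ⟨k, T⟩) (bet s)] at this
    linarith
  have h4 := prob_compl hP0 m ⟨k, S⟩ hS hk A
  have h5 := le_tv hP0 m ⟨k, S⟩ ⟨k, T⟩ hS hk hT hk A hInv
  have h6 := le_abs_self (prob m ⟨k, S⟩ A - prob m ⟨k, T⟩ A)
  have h7 : 5 / (2 * ((k : ℝ) - 1) * ε ^ 2) = 5 / (4 * ((k : ℝ) - 1) * ε ^ 2)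
      + 5 / (4 * ((k : ℝ) - 1) * ε ^ 2) := by
    field_simp; ring
  linarith

include hAC hT3 hK4

theorem assembly : Tendsto avg atTop (𝓝 1) := by
  have hpos : ∀ k : ℕ, 2 ≤ k → (0 : ℝ) < (trees k).card := by
    intro k hk
    have h1 := hT3 k hk
    rw [hK4 k (by omega)] at h1
    have h2 : 0 < k ^ (k - 1) := pow_pos (by omega) _
    have h3 : 0 < k * (trees k).card := lt_of_lt_of_le h2 h1
    have h4 : 0 < (trees k).card := Nat.pos_of_ne_zero (by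
      intro h
      rw [h] at h3
      simp at h3)
    exact_mod_cast h4
  rw [Metric.tendsto_atTop]
  intro δ hδ
  obtain ⟨ε0, hε0, K, hK⟩ := hAC (min (δ / 4) 1) (by positivity)
  set η : ℝ := min (δ / 4) 1 with hη
  have hη0 : 0 < η := by positivity
  have hη1 : η ≤ 1 := min_le_right _ _
  have hηδ : η ≤ δ / 4 := min_le_left _ _
  set ε : ℝ := ε0 / 4 with hε
  have hεpos : 0 < ε := by positivity
  obtain ⟨N1, hN1⟩ := exists_nat_gt (8 / ε0 + 1)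
  obtain ⟨N2, hN2⟩ := exists_nat_gt (5 / (2 * ε ^ 2 * η) + 1)
  refine ⟨max (max K N1) (max N2 2), fun k hk => ?_⟩
  have hkK : K ≤ k := by omega
  have hkN1 : N1 ≤ k := by omega
  have hkN2 : N2 ≤ k := by omega
  have hk2 : 2 ≤ k := by omega
  have hkR : (2 : ℝ) ≤ k := by exact_mod_cast hk2
  have hk1 : (0 : ℝ) < (k : ℝ) - 1 := by linarith
  set t : ℝ := ((trees k).card : ℝ) with ht
  have ht0 : 0 < t := hpos k hk2
  have hTree : ∀ G ∈ trees k, G.IsTree := fun G hG => (Finset.mem_filter.1 hG).2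
  have hrad : 2 * (ε + 2 / ((k : ℝ) - 1)) ≤ ε0 := by
    have h1 : (N1 : ℝ) ≤ k := by exact_mod_cast hkN1
    have h2 : 8 / ε0 < (k : ℝ) - 1 := by linarith
    have h3 : 8 < ((k : ℝ) - 1) * ε0 := by rwa [div_lt_iff₀ hε0] at h2
    have h4 : 2 / ((k : ℝ) - 1) ≤ ε0 / 4 := by
      rw [div_le_iff₀ hk1]; linarith
    rw [hε]; linarith
  have hc : 5 / (2 * ((k : ℝ) - 1) * ε ^ 2) ≤ η := by
    have h1 : (N2 : ℝ) ≤ k := by exact_mod_cast hkN2
    have h2 : 5 / (2 * ε ^ 2 * η) < (k : ℝ) - 1 := by linarith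
    rw [div_lt_iff₀ (by positivity)] at h2
    rw [div_le_iff₀ (by positivity)]
    nlinarith
  set c : ℝ := 5 / (2 * ((k : ℝ) - 1) * ε ^ 2) with hcdef
  have hc0 : 0 ≤ c := by positivity
  -- upper bound
  have hup : (∑ S ∈ trees k, ∑ T ∈ trees k, delta ⟨k, S⟩ ⟨k, T⟩) ≤ t ^ 2 := by
    calc (∑ S ∈ trees k, ∑ T ∈ trees k, delta ⟨k, S⟩ ⟨k, T⟩)
        ≤ ∑ S ∈ trees k, ∑ T ∈ trees k, (1 : ℝ) := by
          refine Finset.sum_le_sum (fun S hS => Finset.sum_le_sum (fun T hT => ?_))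
          exact delta_le_one hP0 ⟨k, S⟩ ⟨k, T⟩ (hTree S hS) hk2 (hTree T hT) hk2
      _ = t ^ 2 := by simp [ht, sq]
  -- lower bound
  have hlow : (1 - η) * (1 - c) * t ^ 2 ≤ ∑ S ∈ trees k, ∑ T ∈ trees k,
      delta ⟨k, S⟩ ⟨k, T⟩ := by
    have hin : ∀ S ∈ trees k, (1 - η) * (1 - c) * t ≤ ∑ T ∈ trees k, delta ⟨k, S⟩ ⟨k, T⟩ := by
      intro S hS
      have hcl := hK k hkK (bet ⟨k, S⟩)
      set near := (trees k).filter (fun G => |(cen G : ℝ) / k - bet ⟨k, S⟩| ≤ ε0) with hnear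
      have h1 : ∀ T ∈ trees k \ near, 1 - c ≤ delta ⟨k, S⟩ ⟨k, T⟩ := by
        intro T hT
        rw [Finset.mem_sdiff] at hT
        have hT1 : T.IsTree := hTree T hT.1
        have hT2 : ε0 < |bet ⟨k, T⟩ - bet ⟨k, S⟩| := by
          by_contra hcon
          push_neg at hcon
          exact hT.2 (Finset.mem_filter.2 ⟨hT.1, hcon⟩)
        exact delta_lower hG5 hP0 hP3 k hk2 S T (hTree S hS) hT1 ε hεpos
          (lt_of_le_of_lt hrad hT2)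
      have h2 : ((trees k \ near).card : ℝ) * (1 - c) ≤ ∑ T ∈ trees k, delta ⟨k, S⟩ ⟨k, T⟩ := by
        calc ((trees k \ near).card : ℝ) * (1 - c) = ∑ T ∈ trees k \ near, (1 - c) := by
              rw [Finset.sum_const, nsmul_eq_mul]
          _ ≤ ∑ T ∈ trees k \ near, delta ⟨k, S⟩ ⟨k, T⟩ := Finset.sum_le_sum h1
          _ ≤ ∑ T ∈ trees k, delta ⟨k, S⟩ ⟨k, T⟩ := by
            refine Finset.sum_le_sum_of_subset_of_nonneg Finset.sdiff_subset ?_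
            intro T hT _
            exact delta_nonneg hP0 ⟨k, S⟩ ⟨k, T⟩ (hTree S hS) hk2 (hTree T hT) hk2
      have hsub : near ⊆ trees k := Finset.filter_subset _ _
      have h3 : ((trees k \ near).card : ℝ) = t - near.card := by
        rw [Finset.card_sdiff_of_subset hsub, Nat.cast_sub (Finset.card_le_card hsub)]
      have h4 : (near.card : ℝ) ≤ η * t := hcl
      have h5 : 0 ≤ 1 - c := by linarith
      refine le_trans ?_ h2
      rw [h3]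
      nlinarith
    calc (1 - η) * (1 - c) * t ^ 2 = ∑ S ∈ trees k, (1 - η) * (1 - c) * t := by
          rw [Finset.sum_const, nsmul_eq_mul, ← ht]; ring
      _ ≤ _ := Finset.sum_le_sum hin
  have havg : avg k = (∑ S ∈ trees k, ∑ T ∈ trees k, delta ⟨k, S⟩ ⟨k, T⟩) / t ^ 2 := rfl
  have h1 : avg k ≤ 1 := by
    rw [havg, div_le_one (by positivity)]; exact hup
  have h2 : (1 - η) * (1 - c) ≤ avg k := by
    rw [havg, le_div_iff₀ (by positivity)]; exact hlow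
  have h3 : 1 - 2 * η ≤ (1 - η) * (1 - c) := by nlinarith
  rw [Real.dist_eq, abs_lt]
  constructor <;> linarith

end

end Pool.Agent.R944.SD
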