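import Pool.Agent.R944.SD.Stm

/-! MP_b12932_pr, piece P0: general facts on `paE`. -/

open scoped BigOperators Topology Classical
open Filter

namespace Pool.Agent.R944.SD.P0

open Pool.Agent.R944.SD

theorem wt_nonneg {n : ℕ} (hn : 2 ≤ n) (G : SimpleGraph (Fin n)) (v : Fin n) :
    0 ≤ (deg G v : ℝ) / (2 * ((n : ℝ) - 1)) := by
  have : (2 : ℝ) ≤ n := by exact_mod_cast hn
  apply div_nonneg (Nat.cast_nonneg _)
  linarith

theorem wt_sum (h3 : S_G3) {n : ℕ} (hn : 2 ≤ n) (G : SimpleGraph (Fin n)) (hG : G.IsTree) :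
    ∑ v : Fin n, (deg G v : ℝ) / (2 * ((n : ℝ) - 1)) = 1 := by
  have h2 : (2 : ℝ) ≤ n := by exact_mod_cast hn
  have h1 := (h3 n G hG).1
  have h1' : (∑ v, (deg G v : ℝ)) + 2 = 2 * n := by exact_mod_cast h1
  rw [← Finset.sum_div, div_eq_one_iff_eq (by linarith)]
  linarith

theorem main : S_G3 → S_G4 → S_P0 := by
  intro h3 h4
  refine ⟨?_, ?_, ?_⟩
  · intro F F' m
    induction m with
    | zero =>
      intro s hs hn h
      exact h s hs rfl
    | succ m ih =>
      intro s hs hn h
      simp only [paE]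
      apply Finset.sum_le_sum
      intro v _
      apply mul_le_mul_of_nonneg_left _ (wt_nonneg hn s.2 v)
      apply ih ⟨s.1 + 1, attach s.2 v⟩ (h4 _ _ v hs).1 (by simp only; omega)
      intro t ht htc
      apply h t ht
      simp only at htc
      omega
  · intro a m
    induction m with
    | zero => intro s _ _; rfl
    | succ m ih =>
      intro s hs hn
      simp only [paE]
      have : ∀ v : Fin s.1, ((deg s.2 v : ℝ) / (2 * ((s.1 : ℝ) - 1))) *
          paE (fun _ => a) m ⟨s.1 + 1, attach s.2 v⟩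
          = ((deg s.2 v : ℝ) / (2 * ((s.1 : ℝ) - 1))) * a := by
        intro v
        rw [ih ⟨s.1 + 1, attach s.2 v⟩ (h4 _ _ v hs).1 (by simp only; omega)]
      rw [Finset.sum_congr rfl (fun v _ => this v), ← Finset.sum_mul, wt_sum h3 hn s.2 hs, one_mul]
  · intro F F' a m
    induction m with
    | zero => intro s; rfl
    | succ m ih =>
      intro s
      simp only [paE]
      rw [Finset.mul_sum, ← Finset.sum_add_distrib]
      apply Finset.sum_congr rfl
      intro v _
      rw [ih]
      ring

end Pool.Agent.R944.SD.P0
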