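import Pool.Agent.R944.SD.Stm

/-! SD-P1: one step of the potential. -/

open scoped BigOperators Topology Classical
open Filter

namespace Pool.Agent.R944.SD.P1

theorem var_le {ι : Type} [Fintype ι] (w : ι → ℝ) (hs : ∑ v, w v = 1)
    (P : ι → Prop) (p N x : ℝ) (hN : 0 < N)
    (hp : ∑ v, w v * (if P v then (1 : ℝ) else 0) = p) :
    ∑ v, w v * (((N - 1) * p + (if P v then (1 : ℝ) else 0)) / N - x) ^ 2
      ≤ (p - x) ^ 2 + p / N ^ 2 := by
  have h1 : ∀ v, w v * (((N - 1) * p + (if P v then (1 : ℝ) else 0)) / N - x) ^ 2 =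
      ((p - x) ^ 2 - 2 * (p - x) * p / N + p ^ 2 / N ^ 2) * w v +
      (2 * (p - x) / N + (1 - 2 * p) / N ^ 2) * (w v * (if P v then (1 : ℝ) else 0)) := by
    intro v
    split_ifs
    · field_simp
      ring
    · field_simp
      ring
  rw [Finset.sum_congr rfl (fun v _ => h1 v), Finset.sum_add_distrib, ← Finset.mul_sum,
    ← Finset.mul_sum, hs, hp]
  have h2 : ((p - x) ^ 2 - 2 * (p - x) * p / N + p ^ 2 / N ^ 2) * 1 +
      (2 * (p - x) / N + (1 - 2 * p) / N ^ 2) * p = (p - x) ^ 2 + p / N ^ 2 - p ^ 2 / N ^ 2 := by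
    field_simp
    ring
  rw [h2]
  have : 0 ≤ p ^ 2 / N ^ 2 := by positivity
  linarith

theorem main : S_G3 → S_G4 → S_P1 := by
  intro hG3 hG4 s hT hn c hc x hx
  obtain ⟨n, G⟩ := s
  simp only at hT hn hc hx ⊢
  obtain ⟨hsum, hbr⟩ := hG3 n G hT
  obtain ⟨hb1, -, -, -, hb5⟩ := hbr ⟨c, hc⟩
  have hn1 : (0 : ℝ) < (n : ℝ) - 1 := by
    have : (2 : ℝ) ≤ n := by exact_mod_cast hn
    linarith
  have hn0 : (0 : ℝ) < (n : ℝ) := by linarith
  set w : Fin n → ℝ := fun v => (deg G v : ℝ) / (2 * ((n : ℝ) - 1)) with hw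
  have hw0 : ∀ v, 0 ≤ w v := fun v => by
    simp only [hw]
    positivity
  have hws : ∑ v, w v = 1 := by
    simp only [hw]
    rw [← Finset.sum_div, div_eq_one_iff_eq (by positivity)]
    have : ((∑ v, deg G v : ℕ) : ℝ) + 2 = 2 * n := by exact_mod_cast hsum
    push_cast at this
    linarith
  set c' : Fin n := ⟨c, hc⟩ with hc'
  -- the values of X
  have hX : ∀ b : Fin n, X c b ⟨n, G⟩ =
      if G.Adj c' b then (2 * (bsz G c' b : ℝ) - 1) / (2 * ((n : ℝ) - 1)) else 0 := by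
    intro b
    simp only [X]
    rw [dif_pos ⟨hc, b.2⟩]
  have hX' : ∀ (v b : Fin n), X c b ⟨n + 1, attach G v⟩ =
      if G.Adj c' b then (2 * ((bsz G c' b : ℝ) + if v ∈ br G c' b then 1 else 0) - 1) / (2 * (n : ℝ))
        else 0 := by
    intro v b
    obtain ⟨-, g2, g3, g4, g5⟩ := hG4 n G v hT
    simp only [X]
    rw [dif_pos ⟨by omega, by omega⟩]
    have e1 : (⟨c, by omega⟩ : Fin (n + 1)) = Fin.castSucc c' := rfl
    have e2 : (⟨(b : ℕ), by omega⟩ : Fin (n + 1)) = Fin.castSucc b := rfl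
    rw [e1, e2]
    by_cases h : G.Adj c' b
    · rw [if_pos ((g2 c' b).mpr h), if_pos h, g4 c' b h]
      push_cast
      congr 2
      ring
    · rw [if_neg (fun h' => h ((g2 c' b).mp h')), if_neg h]
  have hXn : ∀ v : Fin n, X c n ⟨n + 1, attach G v⟩ = if c' = v then 1 / (2 * (n : ℝ)) else 0 := by
    intro v
    obtain ⟨-, g2, g3, g4, g5⟩ := hG4 n G v hT
    simp only [X]
    rw [dif_pos ⟨by omega, by omega⟩]
    have e1 : (⟨c, by omega⟩ : Fin (n + 1)) = Fin.castSucc c' := rfl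
    have e2 : (⟨n, by omega⟩ : Fin (n + 1)) = Fin.last n := rfl
    rw [e1, e2]
    by_cases h : c' = v
    · rw [if_pos ((g3 c').mpr h), if_pos h, h, g5]
      push_cast
      congr 1
      · ring
      · ring
    · rw [if_neg (fun h' => h ((g3 c').mp h')), if_neg h]
  have hpa : paE (Phi c x) 1 ⟨n, G⟩ = ∑ v, w v * Phi c x ⟨n + 1, attach G v⟩ := by
    simp only [paE, hw]
  rw [hpa]
  have hPhi : Phi c x ⟨n, G⟩ = ∑ b : Fin n, (X c b ⟨n, G⟩ - x b) ^ 2 := by
    simp only [Phi]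
    rw [Finset.sum_range]
  have hPhi' : ∀ v : Fin n, Phi c x ⟨n + 1, attach G v⟩ =
      (∑ b : Fin n, (X c b ⟨n + 1, attach G v⟩ - x b) ^ 2) +
        (if c' = v then 1 / (2 * (n : ℝ)) else 0) ^ 2 := by
    intro v
    simp only [Phi]
    rw [Finset.sum_range_succ, Finset.sum_range, hXn, hx n le_rfl, sub_zero]
  simp only [hPhi', mul_add, Finset.sum_add_distrib, Finset.mul_sum]
  rw [Finset.sum_comm, hPhi]
  -- the new label
  have hnew : ∑ v, w v * (if c' = v then 1 / (2 * (n : ℝ)) else 0) ^ 2 ≤ 1 / (4 * (n : ℝ) ^ 2) := by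
    have e : ∀ v, w v * (if c' = v then 1 / (2 * (n : ℝ)) else 0) ^ 2 =
        if c' = v then w v * (1 / (4 * (n : ℝ) ^ 2)) else 0 := by
      intro v
      split_ifs
      · field_simp
        ring
      · ring
    rw [Finset.sum_congr rfl (fun v _ => e v), Finset.sum_ite_eq]
    simp only [Finset.mem_univ, if_true]
    have hwc : w c' ≤ 1 := by
      rw [← hws]
      exact Finset.single_le_sum (fun v _ => hw0 v) (Finset.mem_univ c')
    have : (0 : ℝ) ≤ 1 / (4 * (n : ℝ) ^ 2) := by positivity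
    nlinarith
  -- the old labels
  have hold : ∀ b : Fin n, ∑ v, w v * (X c b ⟨n + 1, attach G v⟩ - x b) ^ 2 ≤
      (X c b ⟨n, G⟩ - x b) ^ 2 + X c b ⟨n, G⟩ / (n : ℝ) ^ 2 := by
    intro b
    by_cases h : G.Adj c' b
    · have hp : ∑ v, w v * (if v ∈ br G c' b then (1 : ℝ) else 0) = X c b ⟨n, G⟩ := by
        rw [hX, if_pos h]
        have h1 := hb1 b h
        simp only [mul_ite, mul_one, mul_zero]
        rw [← Finset.sum_filter]
        simp only [hw]
        rw [← Finset.sum_div]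
        congr 1
        have h2 : ((∑ w ∈ Finset.univ.filter (fun w => w ∈ br G c' b), deg G w : ℕ) : ℝ) + 1 =
          2 * (bsz G c' b : ℝ) := by exact_mod_cast h1
        push_cast at h2
        linarith
      have hv := var_le w hws (fun v => v ∈ br G c' b) _ (n : ℝ) (x b) hn0 hp
      refine le_trans (le_of_eq ?_) hv
      refine Finset.sum_congr rfl (fun v _ => ?_)
      congr 3
      rw [hX', if_pos h, hX, if_pos h]
      split_ifs
      · field_simp
        ring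
      · field_simp
        ring
    · have e1 : ∀ v, X c b ⟨n + 1, attach G v⟩ = 0 := fun v => by rw [hX', if_neg h]
      have e2 : X c b ⟨n, G⟩ = 0 := by rw [hX, if_neg h]
      simp only [e1, e2]
      rw [← Finset.sum_mul, hws]
      simp
  have hXs : ∑ b : Fin n, X c b ⟨n, G⟩ ≤ 1 := by
    simp only [hX]
    rw [← Finset.sum_filter, ← Finset.sum_div, div_le_one (by positivity)]
    have h5 : ((∑ b ∈ Finset.univ.filter (fun b => G.Adj c' b), bsz G c' b : ℕ) : ℝ) + 1 = n := by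
      exact_mod_cast hb5
    push_cast at h5
    calc ∑ b ∈ Finset.univ.filter (fun b => G.Adj c' b), (2 * (bsz G c' b : ℝ) - 1)
        ≤ ∑ b ∈ Finset.univ.filter (fun b => G.Adj c' b), (2 * (bsz G c' b : ℝ)) :=
          Finset.sum_le_sum (fun b _ => by linarith)
      _ = 2 * ∑ b ∈ Finset.univ.filter (fun b => G.Adj c' b), (bsz G c' b : ℝ) := by
          rw [Finset.mul_sum]
      _ = 2 * ((n : ℝ) - 1) := by linarith
  have hfin : ∑ b : Fin n, ∑ v, w v * (X c b ⟨n + 1, attach G v⟩ - x b) ^ 2 ≤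
      (∑ b : Fin n, (X c b ⟨n, G⟩ - x b) ^ 2) + 1 / (n : ℝ) ^ 2 := by
    refine le_trans (Finset.sum_le_sum (fun b _ => hold b)) ?_
    rw [Finset.sum_add_distrib, ← Finset.sum_div]
    have : (∑ b : Fin n, X c b ⟨n, G⟩) / (n : ℝ) ^ 2 ≤ 1 / (n : ℝ) ^ 2 := by
      apply div_le_div_of_nonneg_right hXs (by positivity)
    linarith
  have hc5 : (5 : ℝ) / (4 * (n : ℝ) ^ 2) = 1 / (n : ℝ) ^ 2 + 1 / (4 * (n : ℝ) ^ 2) := by
    field_simp
    ring
  rw [hc5]
  linarith

end Pool.Agent.R944.SD.P1
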