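import Pool.Agent.R944.SD.Stm

/-! MP_b12932_pr, piece P2: many steps of the potential. -/

open scoped BigOperators Topology Classical
open Filter

namespace Pool.Agent.R944.SD.P2

open Pool.Agent.R944.SD

theorem main : S_P0 → S_G4 → S_P1 → S_P2 := by
  intro h0 h4 h1
  suffices H : ∀ (m : ℕ) (s : FG), s.2.IsTree → 2 ≤ s.1 → ∀ (c : ℕ), c < s.1 → ∀ (x : ℕ → ℝ),
      (∀ b, s.1 ≤ b → x b = 0) → paE (Phi c x) m s ≤ Phi c x s + 5 / (4 * ((s.1 : ℝ) - 1)) by
    intro s hs hn c hc x hx m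
    exact H m s hs hn c hc x hx
  intro m
  induction m with
  | zero =>
    intro s hs hn c hc x hx
    simp only [paE]
    have h2 : (2 : ℝ) ≤ s.1 := by exact_mod_cast hn
    have : 0 ≤ 5 / (4 * ((s.1 : ℝ) - 1)) := by
      apply div_nonneg (by norm_num); linarith
    linarith
  | succ m ih =>
    intro s hs hn c hc x hx
    have h2 : (2 : ℝ) ≤ s.1 := by exact_mod_cast hn
    have hw : ∀ v : Fin s.1, 0 ≤ (deg s.2 v : ℝ) / (2 * ((s.1 : ℝ) - 1)) := by
      intro v
      apply div_nonneg (Nat.cast_nonneg _)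
      linarith
    have hws : ∑ v : Fin s.1, (deg s.2 v : ℝ) / (2 * ((s.1 : ℝ) - 1)) = 1 := by
      have := h0.2.1 1 1 s hs hn
      simpa [paE] using this
    have hP1 := h1 s hs hn c hc x hx
    have e1 : paE (Phi c x) 1 s = ∑ v : Fin s.1, ((deg s.2 v : ℝ) / (2 * ((s.1 : ℝ) - 1))) *
        Phi c x ⟨s.1 + 1, attach s.2 v⟩ := by simp only [paE]
    have hstep : paE (Phi c x) (m + 1) s ≤ paE (Phi c x) 1 s + 5 / (4 * (s.1 : ℝ)) := by
      rw [e1]
      have e2 : 5 / (4 * (s.1 : ℝ)) = ∑ v : Fin s.1, ((deg s.2 v : ℝ) / (2 * ((s.1 : ℝ) - 1))) *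
          (5 / (4 * (s.1 : ℝ))) := by
        rw [← Finset.sum_mul, hws, one_mul]
      rw [e2, ← Finset.sum_add_distrib]
      simp only [paE]
      apply Finset.sum_le_sum
      intro v _
      rw [← mul_add]
      apply mul_le_mul_of_nonneg_left _ (hw v)
      have h5 := ih ⟨s.1 + 1, attach s.2 v⟩ (h4 _ _ v hs).1 (by simp only; omega) c
        (by simp only; omega) x (by intro b hb; apply hx; simp only at hb; omega)
      refine h5.trans (le_of_eq ?_)
      simp only
      push_cast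
      rw [add_sub_cancel_right]
    have hfin : 5 / (4 * (s.1 : ℝ) ^ 2) + 5 / (4 * (s.1 : ℝ)) ≤ 5 / (4 * ((s.1 : ℝ) - 1)) := by
      have hn0 : (0 : ℝ) < s.1 := by linarith
      have hn1 : (0 : ℝ) < (s.1 : ℝ) - 1 := by linarith
      rw [div_add_div _ _ (by positivity) (by positivity), div_le_div_iff₀ (by positivity)
        (by positivity)]
      nlinarith [mul_pos hn0 hn0, mul_pos hn0 hn1]
    linarith

end Pool.Agent.R944.SD.P2
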