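import Pool.Agent.R944.SD.Stm

/-! SD-P3: the statistic is robust. -/

open scoped BigOperators Topology Classical
open Filter

namespace Pool.Agent.R944.SD.P3

/-- `y / n` against `(2 y - 1) / (2 (n - 1))` -/
theorem close {y n : ℝ} (hn : 2 ≤ n) (h0 : 0 ≤ y) (h1 : y ≤ n) :
    |y / n - (2 * y - 1) / (2 * (n - 1))| ≤ 1 / (2 * (n - 1)) := by
  have h2 : 0 < n - 1 := by linarith
  have h3 : 0 < n := by linarith
  have e : y / n - (2 * y - 1) / (2 * (n - 1)) = ((n - 2 * y) / n) * (1 / (2 * (n - 1))) := by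
    field_simp
    ring
  rw [e, abs_mul, abs_of_pos (show (0 : ℝ) < 1 / (2 * (n - 1)) by positivity)]
  have h4 : |(n - 2 * y) / n| ≤ 1 := by
    rw [abs_div, abs_of_pos h3, div_le_one h3, abs_le]
    constructor <;> linarith
  have h5 : (0 : ℝ) ≤ 1 / (2 * (n - 1)) := by positivity
  nlinarith

theorem exists_mx {n : ℕ} (hn : 0 < n) (G : SimpleGraph (Fin n)) (c : Fin n) :
    ∃ b : Fin n, mx G c = if G.Adj c b then bsz G c b else 0 := by
  haveI : Nonempty (Fin n) := ⟨⟨0, hn⟩⟩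
  obtain ⟨b, -, hb⟩ := Finset.exists_mem_eq_sup (Finset.univ : Finset (Fin n))
    Finset.univ_nonempty (fun b => if G.Adj c b then bsz G c b else 0)
  exact ⟨b, hb⟩

theorem le_mx {n : ℕ} (G : SimpleGraph (Fin n)) (c b : Fin n) (h : G.Adj c b) :
    bsz G c b ≤ mx G c := by
  have := Finset.le_sup (f := fun b => if G.Adj c b then bsz G c b else 0) (Finset.mem_univ b)
  simp only [if_pos h] at this
  exact this

theorem cen_le {n : ℕ} (G : SimpleGraph (Fin n)) (c : Fin n) : cen G ≤ mx G c :=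
  Nat.sInf_le ⟨c, rfl⟩

theorem exists_cen {n : ℕ} (hn : 0 < n) (G : SimpleGraph (Fin n)) : ∃ c, mx G c = cen G := by
  haveI : Nonempty (Fin n) := ⟨⟨0, hn⟩⟩
  have : cen G ∈ Set.range (mx G) := Nat.sInf_mem (Set.range_nonempty _)
  exact this

/-- the deterministic part -/
theorem det (hG0 : S_G0) (hG1 : S_G1) (hG2 : S_G2) {k n : ℕ} (hk : 2 ≤ k) (hkn : k ≤ n)
    (T : SimpleGraph (Fin k)) (hT : T.IsTree) (G : SimpleGraph (Fin n)) (hG : G.IsTree)
    (c : Fin k) (hc : mx T c = cen T) (ε : ℝ) (hε : 0 < ε)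
    (hX : ∀ b, b < n → |X c b ⟨n, G⟩ - X c b ⟨k, T⟩| < ε) :
    |bet ⟨n, G⟩ - bet ⟨k, T⟩| ≤ ε + 2 / ((k : ℝ) - 1) := by
  have hk2 : (2 : ℝ) ≤ k := by exact_mod_cast hk
  have hkn' : (k : ℝ) ≤ n := by exact_mod_cast hkn
  have hn2 : (2 : ℝ) ≤ n := by linarith
  have hk1 : (0 : ℝ) < (k : ℝ) - 1 := by linarith
  have hn1 : (0 : ℝ) < (n : ℝ) - 1 := by linarith
  set δ : ℝ := 1 / (2 * ((k : ℝ) - 1)) with hδ
  have hδ0 : 0 < δ := by positivity
  have hδn : 1 / (2 * ((n : ℝ) - 1)) ≤ δ := by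
    apply one_div_le_one_div_of_le (by positivity)
    linarith
  have h2δ : 2 / ((k : ℝ) - 1) = 4 * δ := by
    rw [hδ]
    field_simp
    norm_num
  rw [h2δ]
  have hXT : ∀ b : Fin k, X c b ⟨k, T⟩ =
      if T.Adj c b then (2 * (bsz T c b : ℝ) - 1) / (2 * ((k : ℝ) - 1)) else 0 := by
    intro b
    simp only [X]
    rw [dif_pos ⟨c.2, b.2⟩]
  have hXT' : ∀ b : ℕ, k ≤ b → X c b ⟨k, T⟩ = 0 := by
    intro b hb
    simp only [X]
    rw [dif_neg]
    rintro ⟨-, h⟩
    exact absurd h (not_lt.mpr hb)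
  set c' : Fin n := ⟨c, by omega⟩ with hc'
  have hXG : ∀ b : Fin n, X c b ⟨n, G⟩ =
      if G.Adj c' b then (2 * (bsz G c' b : ℝ) - 1) / (2 * ((n : ℝ) - 1)) else 0 := by
    intro b
    simp only [X]
    rw [dif_pos ⟨by omega, b.2⟩]
  have hbG : bet ⟨n, G⟩ = (cen G : ℝ) / n := rfl
  have hbT : bet ⟨k, T⟩ = (cen T : ℝ) / k := rfl
  have hbG0 : 0 ≤ bet ⟨n, G⟩ := by rw [hbG]; positivity
  have hbT0 : 0 ≤ bet ⟨k, T⟩ := by rw [hbT]; positivity
  -- closeness for branches
  have clT : ∀ b : Fin k, T.Adj c b →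
      |(bsz T c b : ℝ) / k - (2 * (bsz T c b : ℝ) - 1) / (2 * ((k : ℝ) - 1))| ≤ δ := by
    intro b hb
    refine close hk2 (by positivity) ?_
    have := (hG0 k T hT c b hb).2.1
    have h2 : bsz T c b ≤ k := by omega
    exact_mod_cast h2
  have clG : ∀ b : Fin n, G.Adj c' b →
      |(bsz G c' b : ℝ) / n - (2 * (bsz G c' b : ℝ) - 1) / (2 * ((n : ℝ) - 1))| ≤ δ := by
    intro b hb
    refine le_trans (close hn2 (by positivity) ?_) hδn
    have := (hG0 n G hG c' b hb).2.1
    have h2 : bsz G c' b ≤ n := by omega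
    exact_mod_cast h2
  rw [abs_le]
  constructor
  · -- lower bound
    obtain ⟨b0, hb0⟩ := exists_mx (by omega) T c
    rw [hc] at hb0
    by_cases hadj : T.Adj c b0
    · rw [if_pos hadj] at hb0
      have h1 := clT b0 hadj
      rw [← hb0, ← hbT] at h1
      have h2 := hX b0 (by omega)
      rw [hXT, if_pos hadj] at h2
      have h3 := hXG ⟨b0, by omega⟩
      simp only at h3
      rw [h3] at h2
      rw [← hb0] at h2
      by_cases hadj' : G.Adj c' ⟨b0, by omega⟩
      · rw [if_pos hadj'] at h2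
        have h4 := clG _ hadj'
        have h5 := hG2 n G hG c' _ hadj'
        have h6 := (hG0 n G hG c' _ hadj').2.1
        have h7 := hG1 k hk T hT
        have h8 : bet ⟨k, T⟩ ≤ 1 / 2 := by
          rw [hbT, div_le_div_iff₀ (by linarith) (by norm_num)]
          have : ((2 * cen T : ℕ) : ℝ) ≤ k := by exact_mod_cast h7
          push_cast at this
          linarith
        set y := bsz G c' ⟨b0, by omega⟩ with hy
        set z := bsz G ⟨b0, by omega⟩ c' with hz
        rw [abs_le] at h1 h4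
        rw [abs_lt] at h2
        have h9 : (y : ℝ) / n + (z : ℝ) / n = 1 := by
          rw [← add_div, div_eq_one_iff_eq (by linarith)]
          exact_mod_cast h6
        rcases min_le_iff.mp h5 with h | h
        · have h10 : (y : ℝ) / n ≤ bet ⟨n, G⟩ := by
            rw [hbG]
            apply div_le_div_of_nonneg_right _ (by linarith)
            exact_mod_cast h
          linarith [h1.1, h1.2, h2.1, h2.2, h4.1, h4.2]
        · have h10 : (z : ℝ) / n ≤ bet ⟨n, G⟩ := by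
            rw [hbG]
            apply div_le_div_of_nonneg_right _ (by linarith)
            exact_mod_cast h
          linarith [h1.1, h1.2, h2.1, h2.2, h4.1, h4.2]
      · rw [if_neg hadj'] at h2
        rw [abs_le] at h1
        rw [abs_lt] at h2
        linarith [h1.1, h1.2, h2.1, h2.2]
    · rw [if_neg hadj] at hb0
      have : bet ⟨k, T⟩ = 0 := by rw [hbT, hb0]; simp
      linarith
  · -- upper bound
    obtain ⟨b, hb⟩ := exists_mx (by omega) G c'
    have hle := cen_le G c'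
    rw [hb] at hle
    by_cases hadj : G.Adj c' b
    · rw [if_pos hadj] at hle
      have h1 := clG b hadj
      have h2 := hX b b.2
      rw [hXG, if_pos hadj] at h2
      have h3 : X c b ⟨k, T⟩ ≤ bet ⟨k, T⟩ + δ := by
        by_cases hbk : (b : ℕ) < k
        · have h4 := hXT ⟨b, hbk⟩
          simp only at h4
          rw [h4]
          by_cases hadj' : T.Adj c ⟨b, hbk⟩
          · rw [if_pos hadj']
            have h5 := clT _ hadj'
            have h6 := le_mx T c _ hadj'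
            rw [hc] at h6
            have h7 : (bsz T c ⟨b, hbk⟩ : ℝ) / k ≤ bet ⟨k, T⟩ := by
              rw [hbT]
              apply div_le_div_of_nonneg_right _ (by linarith)
              exact_mod_cast h6
            rw [abs_le] at h5
            linarith [h5.1, h5.2]
          · rw [if_neg hadj']
            linarith
        · rw [hXT' b (not_lt.mp hbk)]
          linarith
      have h4 : bet ⟨n, G⟩ ≤ (bsz G c' b : ℝ) / n := by
        rw [hbG]
        apply div_le_div_of_nonneg_right _ (by linarith)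
        exact_mod_cast hle
      rw [abs_le] at h1
      rw [abs_lt] at h2
      linarith [h1.1, h1.2, h2.1, h2.2]
    · rw [if_neg hadj] at hle
      have : cen G = 0 := by omega
      have : bet ⟨n, G⟩ = 0 := by rw [hbG, this]; simp
      linarith

theorem main : S_G0 → S_G1 → S_G2 → S_G3 → S_P0 → S_P2 → S_P3 := by
  intro hG0 hG1 hG2 _ hP0 hP2 k hk T hT m ε hε
  obtain ⟨hmono, -, hlin⟩ := hP0
  have hk2 : (2 : ℝ) ≤ k := by exact_mod_cast hk
  have hk1 : (0 : ℝ) < (k : ℝ) - 1 := by linarith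
  obtain ⟨c, hc⟩ := exists_cen (by omega) T
  set x : ℕ → ℝ := fun b => X c b ⟨k, T⟩ with hx
  have hx0 : ∀ b, k ≤ b → x b = 0 := by
    intro b hb
    simp only [hx, X]
    rw [dif_neg]
    rintro ⟨-, h⟩
    exact absurd h (not_lt.mpr hb)
  have hPhi0 : Phi c x ⟨k, T⟩ = 0 := by
    simp only [Phi, hx, sub_self]
    simp
  have h1 := hP2 ⟨k, T⟩ hT hk c c.2 x hx0 m
  rw [hPhi0, zero_add] at h1
  have h2 := hmono
    (fun t => if t ∈ {s | ε + 2 / ((k : ℝ) - 1) < |bet s - bet ⟨k, T⟩|} then (1 : ℝ) else 0)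
    (fun t => (1 / ε ^ 2) * Phi c x t + (fun _ => (0 : ℝ)) t) m ⟨k, T⟩ hT hk ?_
  · have h3 := hlin (Phi c x) (fun _ => (0 : ℝ)) (1 / ε ^ 2) m ⟨k, T⟩
    have h4 := hlin (fun _ => (0 : ℝ)) (fun _ => (0 : ℝ)) 0 m ⟨k, T⟩
    have h5 : paE (fun _ => (0 : ℝ)) m ⟨k, T⟩ = 0 := by
      have h6 := hlin (fun _ => (0 : ℝ)) (fun _ => (0 : ℝ)) 1 m ⟨k, T⟩
      simp only [mul_zero, add_zero, one_mul] at h6
      linarith
    rw [h3, h5, add_zero] at h2
    have h7 : (1 / ε ^ 2) * paE (Phi c x) m ⟨k, T⟩ ≤ (1 / ε ^ 2) * (5 / (4 * ((k : ℝ) - 1))) :=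
      mul_le_mul_of_nonneg_left h1 (by positivity)
    have h8 : (1 / ε ^ 2) * (5 / (4 * ((k : ℝ) - 1))) = 5 / (4 * ((k : ℝ) - 1) * ε ^ 2) := by
      field_simp
    rw [h8] at h7
    exact le_trans h2 h7
  · intro t ht htk
    obtain ⟨n, G⟩ := t
    simp only at ht htk
    have hPhin : 0 ≤ Phi c x ⟨n, G⟩ := Finset.sum_nonneg (fun b _ => sq_nonneg _)
    by_cases hmem : (⟨n, G⟩ : FG) ∈ {s : FG | ε + 2 / ((k : ℝ) - 1) < |bet s - bet ⟨k, T⟩|}
    · simp only [if_pos hmem, add_zero]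
      by_contra hlt
      push_neg at hlt
      have hlt' : Phi c x ⟨n, G⟩ < ε ^ 2 := by
        have h9 : (1 / ε ^ 2) * Phi c x ⟨n, G⟩ = Phi c x ⟨n, G⟩ / ε ^ 2 := by ring
        rw [h9, div_lt_one (by positivity)] at hlt
        exact hlt
      have hXb : ∀ b, b < n → |X c b ⟨n, G⟩ - X c b ⟨k, T⟩| < ε := by
        intro b hb
        have h10 : (X c b ⟨n, G⟩ - x b) ^ 2 ≤ Phi c x ⟨n, G⟩ :=
          Finset.single_le_sum (f := fun b => (X c b ⟨n, G⟩ - x b) ^ 2)
            (fun b _ => sq_nonneg _) (Finset.mem_range.mpr hb)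
        exact abs_lt_of_sq_lt_sq (lt_of_le_of_lt h10 hlt') hε.le
      have hd := det hG0 hG1 hG2 hk (by omega : k ≤ n) T hT G ht c hc ε hε hXb
      simp only [Set.mem_setOf_eq] at hmem
      linarith
    · simp only [if_neg hmem, add_zero]
      positivity

end Pool.Agent.R944.SD.P3
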