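import Pool.Agent.R944.SD.Stm

set_option autoImplicit false

namespace Pool.Agent.R944.SD.ST

theorem fact_le (n : ℕ) (hn : 1 ≤ n) :
    (n.factorial : ℝ) ≤ Real.exp 1 * Real.sqrt n * (n / Real.exp 1) ^ n := by
  obtain ⟨m, rfl⟩ : ∃ m, n = m + 1 := ⟨n - 1, by omega⟩
  have h := Stirling.stirlingSeq'_antitone (Nat.zero_le m)
  simp only [Function.comp, Nat.succ_eq_add_one, zero_add, Stirling.stirlingSeq_one] at h
  rw [Stirling.stirlingSeq] at h
  have hpos : (0 : ℝ) < √(2 * ((m + 1 : ℕ) : ℝ)) * (((m + 1 : ℕ) : ℝ) / Real.exp 1) ^ (m + 1) := by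
    positivity
  rw [div_le_iff₀ hpos] at h
  refine h.trans (le_of_eq ?_)
  rw [Real.sqrt_mul (by norm_num)]
  have h2 : √(2 : ℝ) ≠ 0 := by positivity
  field_simp

theorem main : S_ST := by
  refine ⟨Real.exp 1 / (2 * Real.pi), by positivity, ?_⟩
  intro n i hi hin
  obtain ⟨b, rfl⟩ : ∃ b, n = i + b := ⟨n - i, by omega⟩
  have hb : 1 ≤ b := by omega
  have hsub : i + b - i = b := by omega
  rw [hsub]
  have h1 := fact_le (i + b) (by omega)
  have h2 := Stirling.le_factorial_stirling i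
  have h3 := Stirling.le_factorial_stirling b
  have h4 : (((i + b).choose i : ℕ) : ℝ) * (i.factorial : ℝ) * (b.factorial : ℝ) =
      ((i + b).factorial : ℝ) := by
    have := Nat.choose_mul_factorial_mul_factorial (Nat.le_add_right i b)
    rw [hsub] at this
    exact_mod_cast this
  have hi0 : (0 : ℝ) < i := by exact_mod_cast hi
  have hb0 : (0 : ℝ) < b := by exact_mod_cast hb
  have hn0 : (0 : ℝ) < ((i + b : ℕ) : ℝ) := by positivity
  set c : ℝ := (((i + b).choose i : ℕ) : ℝ) with hc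
  have hc0 : 0 ≤ c := Nat.cast_nonneg _
  set N : ℝ := ((i + b : ℕ) : ℝ) with hN
  set la : ℝ := √(2 * Real.pi * i) * (i / Real.exp 1) ^ i with hla
  set lb : ℝ := √(2 * Real.pi * b) * (b / Real.exp 1) ^ b with hlb
  have hla0 : 0 < la := by positivity
  have hlb0 : 0 < lb := by positivity
  have h5 : c * la * lb ≤ Real.exp 1 * √N * (N / Real.exp 1) ^ (i + b) := by
    rw [← h4] at h1
    refine le_trans ?_ h1
    gcongr
  have hrp : (N / ((i : ℝ) * b)) ^ ((3 : ℝ) / 2) = N / (i * b) * (√N / (√i * √b)) := by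
    rw [show (3 : ℝ) / 2 = 1 + 1 / 2 by norm_num, Real.rpow_add (by positivity), Real.rpow_one,
      ← Real.sqrt_eq_rpow, Real.sqrt_div hn0.le, Real.sqrt_mul hi0.le]
  rw [hrp]
  have hpi : √(2 * Real.pi) * √(2 * Real.pi) = 2 * Real.pi := Real.mul_self_sqrt (by positivity)
  have hsq : √(2 * Real.pi) ≠ 0 := by positivity
  have hsi : √(i : ℝ) ≠ 0 := by positivity
  have hsb : √(b : ℝ) ≠ 0 := by positivity
  have hpowi : (i : ℝ) ^ i = (i : ℝ) ^ (i - 1) * i := by
    rw [← pow_succ]; congr 1; omega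
  have hpowb : (b : ℝ) ^ b = (b : ℝ) ^ (b - 1) * b := by
    rw [← pow_succ]; congr 1; omega
  have hpown : N ^ (i + b) = N ^ (i + b - 1) * N := by
    rw [← pow_succ]; congr 1; omega
  have hkey : c ≤ Real.exp 1 * √N * (N / Real.exp 1) ^ (i + b) / (la * lb) := by
    rw [le_div_iff₀ (by positivity)]
    linarith [h5, mul_assoc c la lb]
  calc c * (i : ℝ) ^ (i - 1) * (b : ℝ) ^ (b - 1) / N ^ (i + b - 1)
      ≤ (Real.exp 1 * √N * (N / Real.exp 1) ^ (i + b) / (la * lb)) * (i : ℝ) ^ (i - 1) *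
        (b : ℝ) ^ (b - 1) / N ^ (i + b - 1) := by gcongr
    _ = Real.exp 1 / (2 * Real.pi) * (N / (i * b) * (√N / (√i * √b))) := by
        rw [hla, hlb, Real.sqrt_mul (by positivity) (i : ℝ), Real.sqrt_mul (by positivity) (b : ℝ)]
        generalize √(2 * Real.pi) = w at hpi hsq ⊢
        rw [div_pow, div_pow, div_pow, hpowi, hpowb, hpown, ← hpi, pow_add (Real.exp 1)]
        field_simp

end Pool.Agent.R944.SD.ST
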