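import Mathlib

open scoped BigOperators Topology Classical
open Filter

namespace Pool.Agent.R944.SD

/-- finite graphs with vertex set `Fin n` for some `n` -/
abbrev FG := Σ n : ℕ, SimpleGraph (Fin n)

/-- `G` together with one new vertex `Fin.last n`, joined exactly to `v` -/
def attach {n : ℕ} (G : SimpleGraph (Fin n)) (v : Fin n) : SimpleGraph (Fin (n + 1)) :=
  G.map Fin.castSuccEmb ⊔ SimpleGraph.edge (Fin.castSucc v) (Fin.last n)

/-- the degree of `v` -/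
noncomputable def deg {n : ℕ} (G : SimpleGraph (Fin n)) (v : Fin n) : ℕ := (G.neighborSet v).ncard

/-- `paE F m s` is the expectation of `F (PA(n + m, s))`, where `n` is the number of vertices of
the tree `s`: the new vertex is attached to `v` with probability `deg v / (2 (n - 1))`. -/
noncomputable def paE (F : FG → ℝ) : ℕ → FG → ℝ
  | 0, s => F s
  | m + 1, s => ∑ v : Fin s.1,
      ((deg s.2 v : ℝ) / (2 * ((s.1 : ℝ) - 1))) * paE F m ⟨s.1 + 1, attach s.2 v⟩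

/-- the probability that `PA(n + m, s)` lies in `A` -/
noncomputable def prob (m : ℕ) (s : FG) (A : Set FG) : ℝ :=
  paE (fun t => if t ∈ A then 1 else 0) m s

/-- `A` is a set of unlabelled graphs: closed under isomorphism -/
def Inv (A : Set FG) : Prop := ∀ s t : FG, Nonempty (s.2 ≃g t.2) → (s ∈ A ↔ t ∈ A)

/-- the total variation distance of `PA(n + m, s)` and `PA(n + m, t)` as unlabelled trees -/
noncomputable def tv (m : ℕ) (s t : FG) : ℝ :=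
  sSup {x : ℝ | ∃ A, Inv A ∧ x = |prob m s A - prob m t A|}

/-- the seed distance (the total variation distances are non-increasing in `m`) -/
noncomputable def delta (s t : FG) : ℝ := ⨅ m, tv m s t

/-- the labelled trees on `Fin k` -/
noncomputable def trees (k : ℕ) : Finset (SimpleGraph (Fin k)) :=
  Finset.univ.filter (fun G => G.IsTree)

/-- the expectation of the seed distance of two independent uniform labelled trees -/
noncomputable def avg (k : ℕ) : ℝ :=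
  (∑ S ∈ trees k, ∑ T ∈ trees k, delta ⟨k, S⟩ ⟨k, T⟩) / ((trees k).card : ℝ) ^ 2

/-! ### Branches -/

/-- the branch at `c` behind `b`: vertices reachable from `b` without passing `c` -/
def br {V : Type} (G : SimpleGraph V) (c b : V) : Set V := {w | ∃ p : G.Walk b w, c ∉ p.support}

/-- its size -/
noncomputable def bsz {V : Type} (G : SimpleGraph V) (c b : V) : ℕ := (br G c b).ncard

/-- size of the largest branch at `c` -/
noncomputable def mx {V : Type} [Fintype V] (G : SimpleGraph V) (c : V) : ℕ :=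
  Finset.univ.sup (fun b => if G.Adj c b then bsz G c b else 0)

/-- the least size of the largest branch -/
noncomputable def cen {V : Type} [Fintype V] (G : SimpleGraph V) : ℕ := sInf (Set.range (mx G))

/-- the statistic -/
noncomputable def bet (s : FG) : ℝ := (cen s.2 : ℝ) / s.1

/-- (G0) the two sides of an edge of a tree -/
def S_G0 : Prop := ∀ (n : ℕ) (G : SimpleGraph (Fin n)), G.IsTree → ∀ c b, G.Adj c b →
  (∀ w, w ∈ br G c b ↔ w ∉ br G b c) ∧ bsz G c b + bsz G b c = n ∧ 1 ≤ bsz G c b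

/-- (G1) the centroid -/
def S_G1 : Prop := ∀ (n : ℕ), 2 ≤ n → ∀ (G : SimpleGraph (Fin n)), G.IsTree → 2 * cen G ≤ n

/-- (G2) lower bound by an edge -/
def S_G2 : Prop := ∀ (n : ℕ) (G : SimpleGraph (Fin n)), G.IsTree → ∀ c b, G.Adj c b →
  min (bsz G c b) (bsz G b c) ≤ cen G

/-- (G3) degree sums -/
def S_G3 : Prop := ∀ (n : ℕ) (G : SimpleGraph (Fin n)), G.IsTree →
  (∑ v, deg G v) + 2 = 2 * n ∧
  ∀ c, (∀ b, G.Adj c b →
      (∑ w ∈ Finset.univ.filter (fun w => w ∈ br G c b), deg G w) + 1 = 2 * bsz G c b) ∧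
    (∀ w, w ≠ c → ∃ b, G.Adj c b ∧ w ∈ br G c b) ∧
    (∀ b b', G.Adj c b → G.Adj c b' → b ≠ b' → Disjoint (br G c b) (br G c b')) ∧
    (∀ b, G.Adj c b → c ∉ br G c b) ∧
    (∑ b ∈ Finset.univ.filter (fun b => G.Adj c b), bsz G c b) + 1 = n

/-- (G4) attaching a vertex -/
def S_G4 : Prop := ∀ (n : ℕ) (G : SimpleGraph (Fin n)) (v : Fin n), G.IsTree →
  (attach G v).IsTree ∧
  (∀ c b : Fin n, (attach G v).Adj (Fin.castSucc c) (Fin.castSucc b) ↔ G.Adj c b) ∧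
  (∀ c : Fin n, (attach G v).Adj (Fin.castSucc c) (Fin.last n) ↔ c = v) ∧
  (∀ c b : Fin n, G.Adj c b → bsz (attach G v) (Fin.castSucc c) (Fin.castSucc b)
    = bsz G c b + if v ∈ br G c b then 1 else 0) ∧
  (bsz (attach G v) (Fin.castSucc v) (Fin.last n) = 1)

/-- (G5) `cen` is an isomorphism invariant -/
def S_G5 : Prop := ∀ (s t : FG), Nonempty (s.2 ≃g t.2) → cen s.2 = cen t.2 ∧ s.1 = t.1

/-! ### The potential -/

/-- normalised weight of the branch at `c` behind `b` (labels are natural numbers) -/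
noncomputable def X (c b : ℕ) (s : FG) : ℝ :=
  if h : c < s.1 ∧ b < s.1 then
    (if s.2.Adj ⟨c, h.1⟩ ⟨b, h.2⟩ then
      (2 * (bsz s.2 ⟨c, h.1⟩ ⟨b, h.2⟩ : ℝ) - 1) / (2 * ((s.1 : ℝ) - 1)) else 0)
  else 0

/-- the potential -/
noncomputable def Phi (c : ℕ) (x : ℕ → ℝ) (s : FG) : ℝ := ∑ b ∈ Finset.range s.1, (X c b s - x b) ^ 2

/-- (P1) one step -/
def S_P1 : Prop := ∀ (s : FG), s.2.IsTree → 2 ≤ s.1 → ∀ (c : ℕ), c < s.1 → ∀ (x : ℕ → ℝ),
  (∀ b, s.1 ≤ b → x b = 0) → paE (Phi c x) 1 s ≤ Phi c x s + 5 / (4 * (s.1 : ℝ) ^ 2)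

/-- (P2) many steps -/
def S_P2 : Prop := ∀ (s : FG), s.2.IsTree → 2 ≤ s.1 → ∀ (c : ℕ), c < s.1 → ∀ (x : ℕ → ℝ),
  (∀ b, s.1 ≤ b → x b = 0) → ∀ m, paE (Phi c x) m s ≤ Phi c x s + 5 / (4 * ((s.1 : ℝ) - 1))

/-- (P0) general facts on `paE` -/
def S_P0 : Prop :=
  (∀ (F F' : FG → ℝ) (m : ℕ) (s : FG), s.2.IsTree → 2 ≤ s.1 →
    (∀ t : FG, t.2.IsTree → t.1 = s.1 + m → F t ≤ F' t) → paE F m s ≤ paE F' m s) ∧
  (∀ (a : ℝ) (m : ℕ) (s : FG), s.2.IsTree → 2 ≤ s.1 → paE (fun _ => a) m s = a) ∧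
  (∀ (F F' : FG → ℝ) (a : ℝ) (m : ℕ) (s : FG),
    paE (fun t => a * F t + F' t) m s = a * paE F m s + paE F' m s)

/-- (P3) the statistic is robust -/
def S_P3 : Prop := ∀ (k : ℕ), 2 ≤ k → ∀ (T : SimpleGraph (Fin k)), T.IsTree →
  ∀ (m : ℕ) (ε : ℝ), 0 < ε →
  prob m ⟨k, T⟩ {s | ε + 2 / ((k : ℝ) - 1) < |bet s - bet ⟨k, T⟩|}
    ≤ 5 / (4 * ((k : ℝ) - 1) * ε ^ 2)

/-! ### Parent functions and counting -/

/-- `p` is the parent function of a tree with root `c` (the root is fixed) -/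
def Rt {V : Type} (p : V → V) (c : V) : Prop := p c = c ∧ ∀ v, ∃ j : ℕ, p^[j] v = c

/-- number of descendants of `b` (with `b`) -/
noncomputable def dsz {V : Type} (p : V → V) (b : V) : ℕ := {v | ∃ j : ℕ, p^[j] v = b}.ncard

/-- all branches at the root `c` have size at most `J` -/
def AllLe {V : Type} (p : V → V) (c : V) (J : ℕ) : Prop := ∀ b, b ≠ c → p b = c → dsz p b ≤ J

/-- number of rooted labelled trees on `n` vertices, all branches at the root of size at most `J` -/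
noncomputable def RJ (n J : ℕ) : ℕ :=
  Nat.card {p : Fin n → Fin n // ∃ c, Rt p c ∧ AllLe p c J}

/-- the same with a marked branch of size `i` -/
noncomputable def RC (n i J : ℕ) : ℕ :=
  Nat.card {q : (Fin n → Fin n) × Fin n //
    ∃ c, Rt q.1 c ∧ AllLe q.1 c J ∧ q.2 ≠ c ∧ q.1 q.2 = c ∧ dsz q.1 q.2 = i}

/-- (T1) the parent function of a tree -/
def S_T1 : Prop := ∀ (n : ℕ) (G : SimpleGraph (Fin n)), G.IsTree → ∀ c : Fin n,
  ∃ p : Fin n → Fin n, Rt p c ∧ (∀ u v, G.Adj u v ↔ u ≠ v ∧ (p u = v ∨ p v = u)) ∧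
    ∀ b, G.Adj c b → bsz G c b = dsz p b

/-- (T2) trees against rooted trees -/
def S_T2 : Prop := ∀ (k : ℕ), 2 ≤ k →
  (∀ J, ((trees k).filter (fun G => cen G ≤ J)).card ≤ RJ k J) ∧
  (∀ j, ((trees k).filter (fun G => cen G = j)).card ≤ RC k j j)

/-- (T3) there are at least `k^(k-2)` trees -/
def S_T3 : Prop := ∀ (k : ℕ), 2 ≤ k → RJ k k ≤ k * (trees k).card

/-- (K4) number of rooted labelled trees -/
def S_K4 : Prop := ∀ (n : ℕ), 1 ≤ n → RJ n n = n ^ (n - 1)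

/-- (K1) splitting off a branch -/
def S_K1 : Prop := ∀ (n i J : ℕ), 1 ≤ i → i < n →
  RC n i J ≤ n.choose i * RJ i i * RJ (n - i) J

/-- (K5) sizes of the branches -/
def S_K5 : Prop := ∀ (n J : ℕ), 1 ≤ n →
  (n - 1) * RJ n J ≤ ∑ i ∈ Finset.Icc 1 J, i * RC n i J

/-- (K6) a large branch or no large branch -/
def S_K6 : Prop := ∀ (n H J : ℕ), H ≤ J →
  RJ n J ≤ RJ n H + ∑ i ∈ Finset.Ioc H J, RC n i J

/-- (ST) Stirling bound -/
def S_ST : Prop := ∃ C : ℝ, 0 < C ∧ ∀ (n i : ℕ), 1 ≤ i → i < n →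
  ((n.choose i : ℝ) * (i : ℝ) ^ (i - 1) * ((n - i : ℕ) : ℝ) ^ (n - i - 1)) / (n : ℝ) ^ (n - 1)
    ≤ C * ((n : ℝ) / ((i : ℝ) * ((n - i : ℕ) : ℝ))) ^ ((3 : ℝ) / 2)

/-- the counting facts about `RJ`, `RC` used in the analytic part -/
structure Cnt (R : ℕ → ℕ → ℝ) (Q : ℕ → ℕ → ℕ → ℝ) (q : ℕ → ℕ → ℝ) (C : ℝ) : Prop where
  R0 : ∀ n J : ℕ, 0 ≤ R n J
  R1 : ∀ n J : ℕ, 1 ≤ n → R n J ≤ 1
  Q0 : ∀ n i J : ℕ, 0 ≤ Q n i J
  q0 : ∀ n i : ℕ, 0 ≤ q n i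
  C0 : 0 < C
  split : ∀ n i J : ℕ, 1 ≤ i → i < n → Q n i J ≤ q n i * R (n - i) J
  sizes : ∀ n J : ℕ, 1 ≤ n → ((n : ℝ) - 1) * R n J ≤ ∑ i ∈ Finset.Icc 1 J, (i : ℝ) * Q n i J
  large : ∀ n H J : ℕ, 1 ≤ n → H ≤ J → R n J ≤ R n H + ∑ i ∈ Finset.Ioc H J, Q n i J
  st : ∀ n i : ℕ, 1 ≤ i → i < n →
    q n i ≤ C * ((n : ℝ) / ((i : ℝ) * ((n - i : ℕ) : ℝ))) ^ ((3 : ℝ) / 2)

/-- (A1) few trees with a small centroid branch: here `k * R k J` bounds their proportion -/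
def S_A1 : Prop := ∀ (R : ℕ → ℕ → ℝ) (Q : ℕ → ℕ → ℕ → ℝ) (q : ℕ → ℕ → ℝ) (C : ℝ), Cnt R Q q C →
  ∃ C' : ℝ, 0 < C' ∧ ∀ k J : ℕ, 2 ≤ k → 8 * J ≤ k → (k : ℝ) * R k J ≤ C' / Real.sqrt k

/-- (A2) local bound: `k * Q k j j` bounds the proportion of trees with `cen = j` -/
def S_A2 : Prop := ∀ (R : ℕ → ℕ → ℝ) (Q : ℕ → ℕ → ℕ → ℝ) (q : ℕ → ℕ → ℝ) (C : ℝ), Cnt R Q q C →
  ∃ C' : ℝ, 0 < C' ∧ ∀ k j : ℕ, k < 8 * (j + 1) → 1 ≤ j →
    (2 * j < k → (k : ℝ) * Q k j j ≤ C' / (Real.sqrt k * Real.sqrt ((k : ℝ) - 2 * j))) ∧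
    (2 * j = k → (k : ℝ) * Q k j j ≤ C' / Real.sqrt k)

/-- (LIM) the total variation distances are non-increasing, so `delta` is their limit -/
def S_LIM : Prop := ∀ (k : ℕ), 2 ≤ k → ∀ (S T : SimpleGraph (Fin k)), S.IsTree → T.IsTree →
  ∀ m, tv (m + 1) ⟨k, S⟩ ⟨k, T⟩ ≤ tv m ⟨k, S⟩ ⟨k, T⟩

/-- (CN) the counting numbers satisfy `Cnt` -/
def S_CN : Prop := ∃ C : ℝ, Cnt (fun n J => (RJ n J : ℝ) / (n : ℝ) ^ (n - 1))
  (fun n i J => (RC n i J : ℝ) / (n : ℝ) ^ (n - 1))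
  (fun n i => ((n.choose i : ℝ) * (i : ℝ) ^ (i - 1) * ((n - i : ℕ) : ℝ) ^ (n - i - 1))
    / (n : ℝ) ^ (n - 1)) C

/-- (AC) anti-concentration of the statistic -/
def S_AC : Prop := ∀ η : ℝ, 0 < η → ∃ ε : ℝ, 0 < ε ∧ ∃ K : ℕ, ∀ k : ℕ, K ≤ k → ∀ x : ℝ,
  (((trees k).filter (fun G => |(cen G : ℝ) / k - x| ≤ ε)).card : ℝ) ≤ η * (trees k).card

end Pool.Agent.R944.SD
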