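import Pool.Agent.R944.SD.Stm

/-! SD-T1 (MP_b12932_pr): the parent function of a tree. -/

set_option autoImplicit false

namespace Pool.Agent.R944.SD.T1

open Pool.Agent.R944.SD SimpleGraph

open Classical in
/-- the second vertex of the path -/
noncomputable def nx {V : Type} (F : SimpleGraph V) (v w : V) : V :=
  if h : ∃ p : F.Walk v w, p.IsPath then h.choose.snd else v

theorem nx_eq {V : Type} {F : SimpleGraph V} (hF : F.IsAcyclic) {v w : V} {p : F.Walk v w}
    (hp : p.IsPath) : nx F v w = p.snd := by
  have h : ∃ p : F.Walk v w, p.IsPath := ⟨p, hp⟩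
  unfold nx
  rw [dif_pos h]
  have h1 := congrArg Subtype.val ((hF.subsingleton_path v w).elim ⟨h.choose, h.choose_spec⟩ ⟨p, hp⟩)
  exact congrArg Walk.snd h1

/-- the parent function -/
noncomputable def par {V : Type} (F : SimpleGraph V) (c v : V) : V := nx F v c

section

variable {V : Type} {F : SimpleGraph V}

theorem par_root (hF : F.IsAcyclic) (c : V) : par F c c = c := by
  unfold par
  rw [nx_eq hF (Walk.IsPath.nil (u := c))]
  simp [Walk.snd]

theorem par_adj (hF : F.IsAcyclic) {c v : V} (P : F.Walk v c) (hP : P.IsPath) (hne : v ≠ c) :
    F.Adj v (par F c v) := by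
  unfold par
  rw [nx_eq hF hP]
  exact P.adj_snd (Walk.not_nil_of_ne hne)

theorem adj_par (hF : F.IsAcyclic) (hc : F.Connected) {c u v : V} (h : F.Adj u v) :
    par F c u = v ∨ par F c v = u := by
  obtain ⟨P, hP⟩ := (hc.preconnected u c).exists_isPath
  by_cases hv : v ∈ P.support
  · left
    unfold par
    rw [nx_eq hF hP]
    exact (hF.eq_snd_of_adj_start hP h hv).symm
  · right
    have h1 : (Walk.cons h.symm P).IsPath := hP.cons hv
    unfold par
    rw [nx_eq hF h1, Walk.snd_cons]

theorem rt_aux (hF : F.IsAcyclic) (c : V) : ∀ (l : ℕ) (v : V) (P : F.Walk v c), P.IsPath →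
    P.length = l → (par F c)^[l] v = c := by
  intro l
  induction l with
  | zero =>
    intro v P _ h
    exact Walk.eq_of_length_eq_zero h
  | succ l ih =>
    intro v P hP h
    cases P with
    | nil => simp at h
    | @cons _ u _ hadj q =>
      rw [Function.iterate_succ_apply]
      have h1 : par F c v = u := by
        unfold par
        rw [nx_eq hF hP, Walk.snd_cons]
      rw [h1]
      refine ih u q ((Walk.cons_isPath_iff _ _).1 hP).1 ?_
      simpa using h

end

theorem main : S_T1 := by
  classical
  intro n G hG c
  have hF : G.IsAcyclic := hG.isAcyclic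
  have hc : G.Connected := hG.connected
  have hroot := par_root hF c
  have hadj' : ∀ u v, G.Adj u v → par G c u = v ∨ par G c v = u := fun u v h => adj_par hF hc h
  have hpa : ∀ v, v ≠ c → G.Adj v (par G c v) := by
    intro v hv
    obtain ⟨P, hP⟩ := (hc.preconnected v c).exists_isPath
    exact par_adj hF P hP hv
  have hiter : ∀ j, (par G c)^[j] c = c := by
    intro j
    induction j with
    | zero => rfl
    | succ j ih => rw [Function.iterate_succ_apply, hroot, ih]
  refine ⟨par G c, ⟨hroot, fun v => ?_⟩, fun u v => ⟨fun h => ⟨h.ne, hadj' u v h⟩, ?_⟩, ?_⟩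
  · obtain ⟨P, hP⟩ := (hc.preconnected v c).exists_isPath
    exact ⟨P.length, rt_aux hF c P.length v P hP rfl⟩
  · rintro ⟨hne, h | h⟩
    · have hu : u ≠ c := by
        rintro rfl
        rw [hroot] at h
        exact hne h
      rw [← h]
      exact hpa u hu
    · have hv : v ≠ c := by
        rintro rfl
        rw [hroot] at h
        exact hne h.symm
      rw [← h]
      exact (hpa v hv).symm
  · intro b hb
    have hbc : par G c b = c := by
      rcases hadj' c b hb with h | h
      · rw [hroot] at h
        exact absurd h hb.ne
      · exact h
    unfold bsz dsz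
    congr 1
    ext w
    constructor
    · rintro ⟨P, hP⟩
      have key : ∀ (u w : Fin n) (P : G.Walk u w), c ∉ P.support →
          (∃ j : ℕ, (par G c)^[j] u = b) → ∃ j : ℕ, (par G c)^[j] w = b := by
        intro u w P
        induction P with
        | nil => exact fun _ h => h
        | @cons u u' w hadj q ih =>
          intro hcs hu
          rw [Walk.support_cons, List.mem_cons, not_or] at hcs
          apply ih hcs.2
          obtain ⟨j, hj⟩ := hu
          have hu'c : u' ≠ c := by
            rintro rfl
            exact hcs.2 q.start_mem_support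
          rcases hadj' u u' hadj with h | h
          · cases j with
            | zero =>
              rw [Function.iterate_zero_apply] at hj
              rw [hj, hbc] at h
              exact absurd h.symm hu'c
            | succ i =>
              rw [Function.iterate_succ_apply, h] at hj
              exact ⟨i, hj⟩
          · exact ⟨j + 1, by rw [Function.iterate_succ_apply, h]; exact hj⟩
      exact key b w P hP ⟨0, rfl⟩
    · rintro ⟨j, hj⟩
      induction j generalizing w with
      | zero =>
        rw [Function.iterate_zero_apply] at hj
        subst hj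
        exact ⟨Walk.nil, by rw [Walk.support_nil, List.mem_singleton]; exact hb.ne⟩
      | succ j ih =>
        rw [Function.iterate_succ_apply] at hj
        obtain ⟨P, hP⟩ := ih _ hj
        have hwc : w ≠ c := by
          rintro rfl
          rw [hroot, hiter] at hj
          exact hb.ne hj
        refine ⟨P.concat (hpa w hwc).symm, ?_⟩
        rw [Walk.support_concat, List.mem_append, not_or]
        exact ⟨hP, by rw [List.mem_singleton]; exact fun h => hwc h.symm⟩

end Pool.Agent.R944.SD.T1
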