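import Pool.Agent.R944.SD.Stm

/-! SD-T2 (MP_b12932_pr): trees inject into rooted trees. -/

set_option autoImplicit false

namespace Pool.Agent.R944.SD.T2

open Pool.Agent.R944.SD SimpleGraph

theorem main (hT1 : S_T1) : S_T2 := by
  classical
  intro k hk
  have hne : Nonempty (Fin k) := ⟨⟨0, by omega⟩⟩
  have hle : ∀ (G : SimpleGraph (Fin k)) (c b : Fin k), G.Adj c b → bsz G c b ≤ mx G c := by
    intro G c b h
    unfold mx
    have h1 := Finset.le_sup (f := fun b => if G.Adj c b then bsz G c b else 0)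
      (Finset.mem_univ b)
    simp only [h, if_true] at h1
    exact h1
  have hpos : ∀ (G : SimpleGraph (Fin k)) (c b : Fin k), G.Adj c b → 1 ≤ bsz G c b := by
    intro G c b h
    unfold bsz
    rw [Nat.one_le_iff_ne_zero, Ne, Set.ncard_eq_zero (Set.toFinite _)]
    apply Set.Nonempty.ne_empty
    exact ⟨b, Walk.nil, by rw [Walk.support_nil, List.mem_singleton]; exact h.ne⟩
  have key : ∀ G : SimpleGraph (Fin k), G.IsTree → ∃ (c : Fin k) (p : Fin k → Fin k) (b : Fin k),
      mx G c = cen G ∧ Rt p c ∧ (∀ u v, G.Adj u v ↔ u ≠ v ∧ (p u = v ∨ p v = u)) ∧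
      (∀ b, G.Adj c b → bsz G c b = dsz p b) ∧ G.Adj c b ∧ bsz G c b = cen G := by
    intro G hG
    obtain ⟨c, hc⟩ : cen G ∈ Set.range (mx G) := Nat.sInf_mem (Set.range_nonempty _)
    obtain ⟨p, hp1, hp2, hp3⟩ := hT1 k G hG c
    obtain ⟨b, -, hb⟩ := Finset.exists_mem_eq_sup Finset.univ Finset.univ_nonempty
      (fun b => if G.Adj c b then bsz G c b else 0)
    have hb' : mx G c = if G.Adj c b then bsz G c b else 0 := hb
    by_cases hadj : G.Adj c b
    · rw [if_pos hadj] at hb'
      exact ⟨c, p, b, hc, hp1, hp2, hp3, hadj, by rw [← hb', hc]⟩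
    · rw [if_neg hadj] at hb'
      exfalso
      have : Nontrivial (Fin k) := Fin.nontrivial_iff_two_le.2 hk
      obtain ⟨w, hw⟩ := exists_ne c
      obtain ⟨P⟩ := hG.connected.preconnected c w
      have h1 := P.adj_snd (Walk.not_nil_of_ne hw.symm)
      have h2 := hle G c _ h1
      have h3 := hpos G c _ h1
      omega
  choose! c p b h1 h2 h3 h4 h5 h6 using key
  have hinj : ∀ G H : SimpleGraph (Fin k), G.IsTree → H.IsTree → p G = p H → G = H := by
    intro G H hG hH h
    ext u v
    rw [h3 G hG, h3 H hH, h]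
  have hall : ∀ (G : SimpleGraph (Fin k)), G.IsTree → ∀ J, cen G ≤ J → AllLe (p G) (c G) J := by
    intro G hG J hJ b' hb' hpb
    have hadj : G.Adj (c G) b' := (h3 G hG _ _).2 ⟨hb'.symm, Or.inr hpb⟩
    rw [← h4 G hG b' hadj]
    exact (hle G _ _ hadj).trans ((h1 G hG).le.trans hJ)
  have htree : ∀ (G : SimpleGraph (Fin k)), G ∈ trees k → G.IsTree := fun G hG =>
    (Finset.mem_filter.1 hG).2
  refine ⟨fun J => ?_, fun j => ?_⟩
  · have h7 : ∀ G : {G // G ∈ (trees k).filter (fun G => cen G ≤ J)},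
        ∃ c, Rt (p G.1) c ∧ AllLe (p G.1) c J := by
      intro G
      have hG := Finset.mem_filter.1 G.2
      exact ⟨c G.1, h2 _ (htree _ hG.1), hall _ (htree _ hG.1) J hG.2⟩
    have h8 : Nat.card {G // G ∈ (trees k).filter (fun G => cen G ≤ J)} ≤ RJ k J := by
      unfold RJ
      refine Nat.card_le_card_of_injective (fun G => ⟨p G.1, h7 G⟩) ?_
      intro G H h
      have hG := Finset.mem_filter.1 G.2
      have hH := Finset.mem_filter.1 H.2
      exact Subtype.ext (hinj _ _ (htree _ hG.1) (htree _ hH.1) (congrArg Subtype.val h))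
    rwa [Nat.card_eq_fintype_card, Fintype.card_coe] at h8
  · have h7 : ∀ G : {G // G ∈ (trees k).filter (fun G => cen G = j)},
        ∃ c, Rt (p G.1, b G.1).1 c ∧ AllLe (p G.1, b G.1).1 c j ∧ (p G.1, b G.1).2 ≠ c ∧
          (p G.1, b G.1).1 (p G.1, b G.1).2 = c ∧ dsz (p G.1, b G.1).1 (p G.1, b G.1).2 = j := by
      intro G
      have hG := Finset.mem_filter.1 G.2
      have ht := htree _ hG.1
      refine ⟨c G.1, h2 _ ht, hall _ ht j hG.2.le, (h5 _ ht).ne.symm, ?_, ?_⟩
      · have h8 := (h3 _ ht _ _).1 (h5 _ ht)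
        rcases h8.2 with h9 | h9
        · rw [(h2 _ ht).1] at h9
          exact absurd h9 h8.1
        · exact h9
      · show dsz (p G.1) (b G.1) = j
        rw [← h4 _ ht _ (h5 _ ht), h6 _ ht, hG.2]
    have h8 : Nat.card {G // G ∈ (trees k).filter (fun G => cen G = j)} ≤ RC k j j := by
      unfold RC
      refine Nat.card_le_card_of_injective (fun G => ⟨(p G.1, b G.1), h7 G⟩) ?_
      intro G H h
      have hG := Finset.mem_filter.1 G.2
      have hH := Finset.mem_filter.1 H.2
      have h9 := congrArg Subtype.val h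
      exact Subtype.ext (hinj _ _ (htree _ hG.1) (htree _ hH.1) (congrArg Prod.fst h9))
    rwa [Nat.card_eq_fintype_card, Fintype.card_coe] at h8

end Pool.Agent.R944.SD.T2
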