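import Pool.Agent.R944.SD.Stm

open scoped Classical

namespace Pool.Agent.R944.SD.T3

def gr {k : ℕ} (p : Fin k → Fin k) : SimpleGraph (Fin k) :=
  SimpleGraph.fromRel (fun u v => p u = v)

lemma adj {k : ℕ} (p : Fin k → Fin k) (u v : Fin k) :
    (gr p).Adj u v ↔ u ≠ v ∧ (p u = v ∨ p v = u) := by
  simp [gr, SimpleGraph.fromRel_adj]

lemma reach {k : ℕ} (p : Fin k → Fin k) (j : ℕ) (v : Fin k) :
    (gr p).Reachable v (p^[j] v) := by
  induction j generalizing v with
  | zero => exact SimpleGraph.Reachable.refl _
  | succ j ih =>
    rw [Function.iterate_succ_apply]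
    refine SimpleGraph.Reachable.trans ?_ (ih (p v))
    by_cases h : v = p v
    · rw [← h]
    · exact SimpleGraph.Adj.reachable ((adj p v (p v)).mpr ⟨h, Or.inl rfl⟩)

lemma conn {k : ℕ} (p : Fin k → Fin k) (c : Fin k) (h : Rt p c) : (gr p).Connected := by
  have h1 : ∀ v, (gr p).Reachable v c := by
    intro v
    obtain ⟨j, hj⟩ := h.2 v
    have := reach p j v
    rwa [hj] at this
  have : Nonempty (Fin k) := ⟨c⟩
  exact SimpleGraph.Connected.mk (fun u v => (h1 u).trans (h1 v).symm)

lemma fixed {k : ℕ} (p : Fin k → Fin k) (c : Fin k) (h : Rt p c) (v : Fin k) (hv : p v = v) :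
    v = c := by
  obtain ⟨j, hj⟩ := h.2 v
  rwa [Function.iterate_fixed hv] at hj

lemma tree {k : ℕ} (p : Fin k → Fin k) (c : Fin k) (h : Rt p c) : (gr p).IsTree := by
  have hc := conn p c h
  rw [SimpleGraph.isTree_iff_connected_and_card]
  refine ⟨hc, ?_⟩
  have h1 := hc.card_vert_le_card_edgeSet_add_one
  have h2 : Nat.card (gr p).edgeSet + 1 ≤ Nat.card (Fin k) := by
    have hs : (gr p).edgeSet ⊆ (fun v => s(v, p v)) '' ({c}ᶜ : Set (Fin k)) := by
      intro e
      induction e using Sym2.ind with
      | _ u v =>
        intro he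
        rw [SimpleGraph.mem_edgeSet, adj] at he
        rcases he with ⟨hne, h3 | h3⟩
        · refine ⟨u, ?_, ?_⟩
          · intro hu
            have hu' : u = c := hu
            subst hu'
            exact hne (h.1.symm.trans h3)
          · simp [h3]
        · refine ⟨v, ?_, ?_⟩
          · intro hu
            have hu' : v = c := hu
            subst hu'
            exact hne (h3.symm.trans h.1)
          · simp [h3, Sym2.eq_swap]
    have h3 : (gr p).edgeSet.ncard ≤ ({c}ᶜ : Set (Fin k)).ncard :=
      (Set.ncard_le_ncard hs (Set.toFinite _)).trans (Set.ncard_image_le (Set.toFinite _))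
    have h4 : ({c}ᶜ : Set (Fin k)).ncard + 1 = Nat.card (Fin k) := by
      have := Set.ncard_add_ncard_compl ({c} : Set (Fin k))
      rw [Set.ncard_singleton] at this
      omega
    have h5 : Nat.card (gr p).edgeSet = (gr p).edgeSet.ncard := rfl
    omega
  omega

lemma det {k : ℕ} (p p' : Fin k → Fin k) (c : Fin k) (h : Rt p c) (h' : Rt p' c)
    (hg : gr p = gr p') : p = p' := by
  have key : ∀ j : ℕ, ∀ v, p^[j] v = c → p' v = p v := by
    intro j
    induction j with
    | zero =>
      intro v hv
      have hv' : v = c := hv
      subst hv'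
      rw [h.1, h'.1]
    | succ j ih =>
      intro v hv
      rw [Function.iterate_succ_apply] at hv
      have h1 := ih (p v) hv
      by_cases h2 : v = p v
      · have := fixed p c h v h2.symm
        subst this
        rw [h.1, h'.1]
      · have h3 : (gr p').Adj v (p v) := by
          rw [← hg]
          exact (adj p v (p v)).mpr ⟨h2, Or.inl rfl⟩
        rw [adj] at h3
        rcases h3.2 with h4 | h4
        · exact h4
        · exfalso
          rw [h1] at h4
          -- p (p v) = v
          have h5 : ∀ i : ℕ, p^[i] v = v ∨ p^[i] v = p v := by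
            intro i
            induction i with
            | zero => left; rfl
            | succ i ihi =>
              rw [Function.iterate_succ_apply']
              rcases ihi with h6 | h6
              · right; rw [h6]
              · left; rw [h6, h4]
          obtain ⟨i, hi⟩ := h.2 v
          rcases h5 i with h6 | h6
          · rw [hi] at h6
            apply h2
            rw [← h6, h.1]
          · rw [hi] at h6
            have h7 := h.1
            rw [h6] at h7
            exact h2 (h4.symm.trans h7)
  funext v
  obtain ⟨j, hj⟩ := h.2 v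
  exact (key j v hj).symm

theorem main : S_T3 := by
  intro k hk
  unfold RJ
  let f : {p : Fin k → Fin k // ∃ c, Rt p c ∧ AllLe p c k} → Fin k × {G // G ∈ trees k} :=
    fun p => (p.2.choose, ⟨gr p.1, by
      unfold trees
      rw [Finset.mem_filter]
      exact ⟨Finset.mem_univ _, tree p.1 _ p.2.choose_spec.1⟩⟩)
  have hf : Function.Injective f := by
    intro p q hpq
    have h1 : p.2.choose = q.2.choose := congrArg Prod.fst hpq
    have h2 : gr p.1 = gr q.1 := congrArg (fun z => (z.2 : SimpleGraph (Fin k))) hpq
    have h3 := p.2.choose_spec.1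
    have h4 := q.2.choose_spec.1
    rw [← h1] at h4
    exact Subtype.ext (det p.1 q.1 _ h3 h4 h2)
  have h1 := Nat.card_le_card_of_injective f hf
  refine h1.trans (le_of_eq ?_)
  rw [Nat.card_prod, Nat.card_fin]
  congr 1
  rw [Nat.card_eq_fintype_card, Fintype.card_coe]

end Pool.Agent.R944.SD.T3
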